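import Pool.Agent.Work.MP_92f640_nt.HN.Defs

/-! # Module BoxPert: removing a small phase

`e(c l γ) = ∑_t (2π i γ X₁ X₂)^t/t! (c/X₁)^t (l/X₂)^t`; `w_t = (2π)^t/t!`, `∑ w_t = e^(2π)`: `|∑_t w_t z_t|² ≤ e^(2π) ∑_t w_t |z_t|²` (finite partial sums and a limit), sum over the classes. -/

namespace Pool.Agent.HN

open Finset Pool.Agent.BV Pool.Agent.HL

theorem box_pert (q X₁ X₂ : ℕ) (A B : ℕ → ℂ) (α γ V : ℝ) (hγ : |γ| * (X₁ * X₂) ≤ 1) (hV : 0 ≤ V)
    (h : ∀ t : ℕ, VB q (Icc 1 X₁) (Icc 1 X₂) (fun c => A c * ((c : ℂ) / X₁) ^ t)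
      (fun l => B l * ((l : ℂ) / X₂) ^ t) α ≤ V) :
    VB q (Icc 1 X₁) (Icc 1 X₂) A B (α + γ) ≤ Real.exp (4 * Real.pi) * V := by
  set K : ℂ := 2 * Real.pi * (γ * (X₁ * X₂) : ℝ) * Complex.I with hK
  have hKn : ‖K‖ ≤ 2 * Real.pi := by
    have h1 : ‖K‖ = 2 * Real.pi * (|γ| * (X₁ * X₂)) := by
      rw [hK, norm_mul, norm_mul, norm_mul, Complex.norm_I, Complex.norm_real, Complex.norm_real,
        Complex.norm_ofNat, Real.norm_eq_abs, Real.norm_eq_abs, abs_of_pos Real.pi_pos, abs_mul,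
        abs_of_nonneg (by positivity : (0 : ℝ) ≤ X₁ * X₂), mul_one]
    rw [h1]
    have := Real.pi_pos
    nlinarith
  set w : ℕ → ℝ := fun t => (2 * Real.pi) ^ t / t.factorial with hw
  have hw0 : ∀ t, 0 ≤ w t := fun t => by
    have := Real.pi_pos
    simp only [hw]
    positivity
  set z : ℕ → ℕ → ℂ := fun t a => ∑ c ∈ Icc 1 X₁, ∑ l ∈ Icc 1 X₂,
    if (c * l) % q = a then (A c * ((c : ℂ) / X₁) ^ t) * (B l * ((l : ℂ) / X₂) ^ t) *
      e ((c * l : ℕ) * α) else 0 with hz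
  have hz2 : ∀ t, ∑ a ∈ range q, ‖z t a‖ ^ 2 ≤ V := fun t => h t
  have hsum : ∀ n, ∑ t ∈ range n, w t ≤ Real.exp (2 * Real.pi) := fun n =>
    Real.sum_le_exp_of_nonneg (by have := Real.pi_pos; positivity) n
  have hT : ∀ a, HasSum (fun t => K ^ t / t.factorial * z t a)
      (∑ c ∈ Icc 1 X₁, ∑ l ∈ Icc 1 X₂,
        if (c * l) % q = a then A c * B l * e ((c * l : ℕ) * (α + γ)) else 0) := by
    intro a
    have e1 : (fun t => K ^ t / t.factorial * z t a) = fun t => ∑ c ∈ Icc 1 X₁, ∑ l ∈ Icc 1 X₂,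
        K ^ t / t.factorial * (if (c * l) % q = a then (A c * ((c : ℂ) / X₁) ^ t) *
          (B l * ((l : ℂ) / X₂) ^ t) * e ((c * l : ℕ) * α) else 0) := by
      funext t
      simp only [hz, mul_sum]
    rw [e1]
    refine hasSum_sum fun c hc => hasSum_sum fun l hl => ?_
    split_ifs with hcl
    · have hX₁ : (X₁ : ℂ) ≠ 0 := by
        have := (mem_Icc.1 hc)
        exact_mod_cast (by omega : X₁ ≠ 0)
      have hX₂ : (X₂ : ℂ) ≠ 0 := by
        have := (mem_Icc.1 hl)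
        exact_mod_cast (by omega : X₂ ≠ 0)
      have h2 := (NormedSpace.expSeries_div_hasSum_exp (K * ((c : ℂ) / X₁) * ((l : ℂ) / X₂))).mul_left
        (A c * B l * e ((c * l : ℕ) * α))
      rw [← Complex.exp_eq_exp_ℂ] at h2
      have e2 : A c * B l * e ((c * l : ℕ) * α) *
          Complex.exp (K * ((c : ℂ) / X₁) * ((l : ℂ) / X₂)) =
          A c * B l * e ((c * l : ℕ) * (α + γ)) := by
        have e3 : K * ((c : ℂ) / X₁) * ((l : ℂ) / X₂) =
            2 * Real.pi * ((c * l : ℕ) * γ : ℝ) * Complex.I := by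
          rw [hK]
          push_cast
          field_simp
        rw [e3, mul_assoc (A c * B l)]
        congr 1
        unfold e
        rw [← Complex.exp_add]
        congr 1
        push_cast
        ring
      rw [e2] at h2
      refine h2.congr_fun fun t => ?_
      rw [mul_pow, mul_pow]
      ring
    · simp
  have hT' : ∀ a, Filter.Tendsto (fun n => ∑ t ∈ range n, K ^ t / t.factorial * z t a) Filter.atTop
      (nhds (∑ c ∈ Icc 1 X₁, ∑ l ∈ Icc 1 X₂,
        if (c * l) % q = a then A c * B l * e ((c * l : ℕ) * (α + γ)) else 0)) :=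
    fun a => (hT a).tendsto_sum_nat
  have hlim : Filter.Tendsto
      (fun n => ∑ a ∈ range q, ‖∑ t ∈ range n, K ^ t / t.factorial * z t a‖ ^ 2) Filter.atTop
      (nhds (VB q (Icc 1 X₁) (Icc 1 X₂) A B (α + γ))) :=
    tendsto_finsetSum _ fun a _ => ((hT' a).norm).pow 2
  refine le_of_tendsto' hlim fun n => ?_
  have hb : ∀ a, ‖∑ t ∈ range n, K ^ t / t.factorial * z t a‖ ^ 2 ≤
      Real.exp (2 * Real.pi) * ∑ t ∈ range n, w t * ‖z t a‖ ^ 2 := by
    intro a
    have h1 : ‖∑ t ∈ range n, K ^ t / t.factorial * z t a‖ ≤ ∑ t ∈ range n, w t * ‖z t a‖ := by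
      refine (norm_sum_le _ _).trans (sum_le_sum fun t _ => ?_)
      rw [norm_mul, norm_div, norm_pow, Complex.norm_natCast]
      apply mul_le_mul_of_nonneg_right _ (norm_nonneg _)
      simp only [hw]
      gcongr
    have h2 : (∑ t ∈ range n, w t * ‖z t a‖) ^ 2 ≤
        (∑ t ∈ range n, w t) * ∑ t ∈ range n, w t * ‖z t a‖ ^ 2 := by
      apply sum_sq_le_sum_mul_sum_of_sq_le_mul
      · exact fun t _ => hw0 t
      · exact fun t _ => mul_nonneg (hw0 t) (sq_nonneg _)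
      · intro t _
        apply le_of_eq
        ring
    have h3 : 0 ≤ ∑ t ∈ range n, w t * ‖z t a‖ ^ 2 :=
      sum_nonneg fun t _ => mul_nonneg (hw0 t) (sq_nonneg _)
    calc ‖∑ t ∈ range n, K ^ t / t.factorial * z t a‖ ^ 2
        ≤ (∑ t ∈ range n, w t * ‖z t a‖) ^ 2 := by gcongr
      _ ≤ (∑ t ∈ range n, w t) * ∑ t ∈ range n, w t * ‖z t a‖ ^ 2 := h2
      _ ≤ _ := mul_le_mul_of_nonneg_right (hsum n) h3
  calc ∑ a ∈ range q, ‖∑ t ∈ range n, K ^ t / t.factorial * z t a‖ ^ 2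
      ≤ ∑ a ∈ range q, Real.exp (2 * Real.pi) * ∑ t ∈ range n, w t * ‖z t a‖ ^ 2 :=
        sum_le_sum fun a _ => hb a
    _ = Real.exp (2 * Real.pi) * ∑ t ∈ range n, w t * ∑ a ∈ range q, ‖z t a‖ ^ 2 := by
        rw [← mul_sum, sum_comm]
        simp only [mul_sum]
    _ ≤ Real.exp (2 * Real.pi) * ∑ t ∈ range n, w t * V := by
        apply mul_le_mul_of_nonneg_left _ (Real.exp_pos _).le
        exact sum_le_sum fun t _ => mul_le_mul_of_nonneg_left (hz2 t) (hw0 t)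
    _ = Real.exp (2 * Real.pi) * ((∑ t ∈ range n, w t) * V) := by rw [sum_mul]
    _ ≤ Real.exp (2 * Real.pi) * (Real.exp (2 * Real.pi) * V) := by
        apply mul_le_mul_of_nonneg_left _ (Real.exp_pos _).le
        exact mul_le_mul_of_nonneg_right (hsum n) hV
    _ = Real.exp (4 * Real.pi) * V := by
        rw [← mul_assoc, ← Real.exp_add]
        congr 2
        ring

end Pool.Agent.HN
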