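import Pool.Agent.Work.MP_92f640_nt.HN.Defs
import Pool.Agent.Work.MP_92f640_nt.HT.Coef

/-! # Module CountA: reduction of the count to `EC`

`S = s₁ s₂`, `c₂ - c₁ = S i`, `l₁ - l₂ = S j`: `c₁ l₁ - c₂ l₂ = S (j c₁ - i l₂)`, so the last congruence is `m ∣ j c₁ - i l₂` (`s₁` is coprime to `m`).
`i = j = 0`: `X₁ ∑ τ(l)⁴`. `i = 0 ≠ j`: `m ∣ j`, so `S m ∣ l₁ - l₂ ≠ 0`: at most `2 X₂/(S m)` values of `l₁`. `j = 0 ≠ i`: the same for `c`. `i, j ≠ 0`, `j c₁ = i l₂`: for given `i`, `l₂` at most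
`2 τ(|i| l₂) ≤ 2 τ(|i|) τ(l₂)` pairs `(j, c₁)`. The rest: `EC` (`(c₁,c₂,l₁,l₂) ↦ (l₂, i, j, c₁)` is injective). `tau_sum` (HT/Coef) for the sums of `τ^j`. -/

namespace Pool.Agent.HN

open Finset Pool.Agent.BV Pool.Agent.HL

/-- the triples `(c₁, c₂, l₁)` for a given `l₂ = l` -/
private def CA_T (m s₁ s₂ X₁ X₂ l : ℕ) : Finset (ℕ × ℕ × ℕ) :=
  (Cop m X₁ ×ˢ Cop m X₁ ×ˢ Cop m X₂).filter (fun t => t.1 ≡ t.2.1 [MOD s₁ * s₂] ∧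
    t.2.2 ≡ l [MOD s₁ * s₂] ∧ t.1 * t.2.2 ≡ t.2.1 * l [MOD s₂ * m])

private lemma CA_N4 (m s₁ s₂ X₁ X₂ : ℕ) : N4 m s₁ s₂ X₁ X₂ =
    ∑ l ∈ Cop m X₂, (l.divisors.card : ℝ) ^ 4 * ((CA_T m s₁ s₂ X₁ X₂ l).card : ℝ) := by
  have h : ∀ l : ℕ, (l.divisors.card : ℝ) ^ 4 * ((CA_T m s₁ s₂ X₁ X₂ l).card : ℝ) =
      ∑ c₁ ∈ Cop m X₁, ∑ c₂ ∈ Cop m X₁, ∑ l₁ ∈ Cop m X₂,
        if c₁ ≡ c₂ [MOD s₁ * s₂] ∧ l₁ ≡ l [MOD s₁ * s₂] ∧ c₁ * l₁ ≡ c₂ * l [MOD s₂ * m] then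
          (l.divisors.card : ℝ) ^ 4 else 0 := by
    intro l
    rw [CA_T, natCast_card_filter, sum_product]
    simp_rw [sum_product, mul_sum, mul_ite, mul_one, mul_zero]
  simp_rw [h]
  unfold N4
  symm
  rw [sum_comm]
  apply sum_congr rfl
  intro c₁ _
  rw [sum_comm]
  apply sum_congr rfl
  intro c₂ _
  rw [sum_comm]

/-- the congruences in terms of `i`, `j` -/
private lemma CA_key {m s₁ s₂ c₁ c₂ l₁ l₂ : ℕ} (hs : s₁.Coprime m) (hs2 : 1 ≤ s₂)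
    (h1 : c₁ ≡ c₂ [MOD s₁ * s₂]) (h2 : l₁ ≡ l₂ [MOD s₁ * s₂])
    (h3 : c₁ * l₁ ≡ c₂ * l₂ [MOD s₂ * m]) :
    (((s₁ * s₂ : ℕ) : ℤ) * (((c₂ : ℤ) - c₁) / ((s₁ * s₂ : ℕ) : ℤ)) = (c₂ : ℤ) - c₁) ∧
    (((s₁ * s₂ : ℕ) : ℤ) * (((l₁ : ℤ) - l₂) / ((s₁ * s₂ : ℕ) : ℤ)) = (l₁ : ℤ) - l₂) ∧
    (m : ℤ) ∣ (((l₁ : ℤ) - l₂) / ((s₁ * s₂ : ℕ) : ℤ)) * c₁ -
      (((c₂ : ℤ) - c₁) / ((s₁ * s₂ : ℕ) : ℤ)) * l₂ := by
  have e1 : ((s₁ * s₂ : ℕ) : ℤ) ∣ (c₂ : ℤ) - c₁ := (Nat.modEq_iff_dvd).1 h1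
  have e2 : ((s₁ * s₂ : ℕ) : ℤ) ∣ (l₁ : ℤ) - l₂ := (Nat.modEq_iff_dvd).1 h2.symm
  have e3 : ((s₂ * m : ℕ) : ℤ) ∣ ((c₁ * l₁ : ℕ) : ℤ) - ((c₂ * l₂ : ℕ) : ℤ) :=
    (Nat.modEq_iff_dvd).1 h3.symm
  have f1 := Int.mul_ediv_cancel' e1
  have f2 := Int.mul_ediv_cancel' e2
  refine ⟨f1, f2, ?_⟩
  set i := ((c₂ : ℤ) - c₁) / ((s₁ * s₂ : ℕ) : ℤ)
  set j := ((l₁ : ℤ) - l₂) / ((s₁ * s₂ : ℕ) : ℤ)
  have e4 : ((c₁ * l₁ : ℕ) : ℤ) - ((c₂ * l₂ : ℕ) : ℤ) = s₂ * (s₁ * (j * c₁ - i * l₂)) := by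
    push_cast at f1 f2 ⊢
    linear_combination (-(c₁ : ℤ)) * f2 + (l₂ : ℤ) * f1
  rw [e4] at e3
  push_cast at e3
  have hs2' : (s₂ : ℤ) ≠ 0 := by exact_mod_cast (by omega : s₂ ≠ 0)
  have e5 := Int.dvd_of_mul_dvd_mul_left hs2' e3
  have hc : IsCoprime (m : ℤ) (s₁ : ℤ) := (Nat.isCoprime_iff_coprime.2 hs).symm
  exact hc.dvd_of_dvd_mul_left e5

/-- the number of `n ≠ l` in `[1, X]` in the class of `l` mod `M` -/
private lemma CA_cls (X M l : ℕ) (hM : 1 ≤ M) (hl : l ∈ Icc 1 X) :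
    (((Icc 1 X).filter (fun n => n ≡ l [MOD M] ∧ n ≠ l)).card : ℝ) ≤ X / M := by
  have h1 := Nat.Ioc_filter_modEq_card 0 X (r := M) (by omega) l
  have h2 : ((Ioc 0 X).filter (fun n => n ≡ l [MOD M])) =
      insert l ((Icc 1 X).filter (fun n => n ≡ l [MOD M] ∧ n ≠ l)) := by
    ext n
    simp only [mem_filter, mem_Ioc, mem_insert, mem_Icc] at hl ⊢
    constructor
    · rintro ⟨a, b⟩
      by_cases h : n = l
      · left; exact h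
      · right; exact ⟨⟨by omega, by omega⟩, b, h⟩
    · rintro (h | ⟨a, b, -⟩)
      · subst h
        exact ⟨⟨by omega, by omega⟩, rfl⟩
      · exact ⟨⟨by omega, by omega⟩, b⟩
  have h3 : l ∉ (Icc 1 X).filter (fun n => n ≡ l [MOD M] ∧ n ≠ l) := by simp
  rw [h2, card_insert_of_notMem h3] at h1
  set k := ((Icc 1 X).filter (fun n => n ≡ l [MOD M] ∧ n ≠ l)).card
  have hM' : (0 : ℝ) < M := by exact_mod_cast (by omega : 0 < M)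
  have a1 := Int.floor_le (((X : ℚ) - l) / M)
  have a2 := Int.lt_floor_add_one ((((0 : ℕ) : ℚ) - l) / M)
  have hM'' : (0 : ℚ) < M := by exact_mod_cast (by omega : 0 < M)
  have h4 : (k : ℚ) ≤ X / M := by
    rcases max_cases (⌊((X : ℚ) - l) / M⌋ - ⌊(((0 : ℕ) : ℚ) - l) / M⌋) 0 with ⟨e, _⟩ | ⟨e, _⟩
    · rw [e] at h1
      have h5 : ((k : ℚ) + 1) = (⌊((X : ℚ) - l) / M⌋ : ℚ) - (⌊(((0 : ℕ) : ℚ) - l) / M⌋ : ℚ) := by
        exact_mod_cast h1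
      have h6 : ((X : ℚ) - l) / M = X / M + (((0 : ℕ) : ℚ) - l) / M := by
        field_simp
        push_cast
        ring
      linarith
    · rw [e] at h1
      omega
  have h7 : ((k : ℚ) : ℝ) ≤ (((X : ℚ) / (M : ℚ) : ℚ) : ℝ) := Rat.cast_le.2 h4
  rw [Rat.cast_div, Rat.cast_natCast, Rat.cast_natCast, Rat.cast_natCast] at h7
  exact h7

private lemma CA_nz {N : ℕ} {i : ℤ} (h0 : i ≠ 0) (h : i.natAbs ≤ N) : i ∈ Nz N := by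
  simp only [Nz, mem_filter, mem_Icc]
  exact ⟨⟨by omega, by omega⟩, h0⟩

private lemma CA_sumNz (N : ℕ) (f : ℕ → ℝ) : ∑ i ∈ Nz N, f i.natAbs = 2 * ∑ n ∈ Icc 1 N, f n := by
  have h : Nz N = (Icc 1 N).image (fun n : ℕ => (n : ℤ)) ∪ (Icc 1 N).image (fun n : ℕ => -(n : ℤ)) := by
    ext i
    simp only [Nz, mem_filter, mem_Icc, mem_union, mem_image]
    constructor
    · rintro ⟨⟨a, b⟩, c⟩
      rcases lt_or_gt_of_ne c with h | h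
      · right; exact ⟨i.natAbs, ⟨by omega, by omega⟩, by omega⟩
      · left; exact ⟨i.natAbs, ⟨by omega, by omega⟩, by omega⟩
    · rintro (⟨n, ⟨a, b⟩, rfl⟩ | ⟨n, ⟨a, b⟩, rfl⟩)
      · exact ⟨⟨by omega, by omega⟩, by omega⟩
      · exact ⟨⟨by omega, by omega⟩, by omega⟩
  have hd : Disjoint ((Icc 1 N).image (fun n : ℕ => (n : ℤ)))
      ((Icc 1 N).image (fun n : ℕ => -(n : ℤ))) := by
    rw [disjoint_left]
    intro i h1 h2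
    simp only [mem_image, mem_Icc] at h1 h2
    obtain ⟨a, ⟨ha, _⟩, rfl⟩ := h1
    obtain ⟨b, ⟨hb, _⟩, h3⟩ := h2
    omega
  rw [h, sum_union hd, sum_image (by intro a _ b _ hab; simpa using hab),
    sum_image (by intro a _ b _ hab; simpa using hab)]
  simp only [Int.natAbs_natCast, Int.natAbs_neg]
  ring

open Classical in
/-- pairs `(j, c)` with `j c = i l` -/
private lemma CA_R (N X l : ℕ) (i : ℤ) (hl : 1 ≤ l) (hi : i ≠ 0) :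
    (((Nz N ×ˢ Icc 1 X).filter (fun p : ℤ × ℕ => p.1 * (p.2 : ℤ) = i * (l : ℤ))).card : ℝ) ≤
      (i.natAbs.divisors.card : ℝ) * (l.divisors.card : ℝ) := by
  refine le_trans ?_ (DivSum_tauMul i.natAbs l)
  have : ((Nz N ×ˢ Icc 1 X).filter (fun p : ℤ × ℕ => p.1 * (p.2 : ℤ) = i * (l : ℤ))).card ≤
      (i.natAbs * l).divisors.card := by
    apply card_le_card_of_injOn (fun p => p.2)
    · intro p hp
      simp only [coe_filter, mem_product, Set.mem_ofPred_eq, mem_Icc] at hp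
      simp only [mem_coe, Nat.mem_divisors]
      refine ⟨⟨p.1.natAbs, ?_⟩, ?_⟩
      · have := congrArg Int.natAbs hp.2
        simp only [Int.natAbs_mul, Int.natAbs_natCast] at this
        rw [← this, mul_comm]
      · have : i.natAbs ≠ 0 := by omega
        positivity
    · intro p hp p' hp' h
      simp only [coe_filter, mem_product, Set.mem_ofPred_eq, mem_Icc] at hp hp' h
      have h1 : (p.2 : ℤ) ≠ 0 := by
        have := hp.1.2.1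
        omega
      apply Prod.ext
      · apply mul_right_cancel₀ h1
        rw [hp.2, h, hp'.2]
      · exact h
  exact_mod_cast this

open Classical in
private noncomputable def CA_Q (m S X₁ X₂ l : ℕ) (i : ℤ) : Finset (ℤ × ℕ) :=
  (Nz (X₂ / S) ×ˢ Icc 1 X₁).filter (fun p : ℤ × ℕ =>
      p.1 * (p.2 : ℤ) ≠ i * (l : ℤ) ∧ (m : ℤ) ∣ p.1 * (p.2 : ℤ) - i * (l : ℤ))

private lemma CA_EC (m S X₁ X₂ : ℕ) : EC m S X₁ X₂ =
    ∑ l ∈ Cop m X₂, (l.divisors.card : ℝ) ^ 4 * ∑ i ∈ Nz (X₁ / S),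
      ((CA_Q m S X₁ X₂ l i).card : ℝ) := rfl

private lemma CA_absdiff {a b X S : ℕ} {k : ℤ} (hS : 1 ≤ S) (ha : a ≤ X) (hb : b ≤ X)
    (h : (S : ℤ) * k = (a : ℤ) - b) : k.natAbs ≤ X / S := by
  rw [Nat.le_div_iff_mul_le (by omega)]
  have h1 := congrArg Int.natAbs h
  rw [Int.natAbs_mul, Int.natAbs_natCast] at h1
  rw [mul_comm, h1]
  omega

/-- the triples with `i, j ≠ 0` -/
private lemma CA_DE {m s₁ s₂ X₁ X₂ l : ℕ} (hs : s₁.Coprime m) (hs1 : 1 ≤ s₁) (hs2 : 1 ≤ s₂)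
    (hl : l ∈ Cop m X₂) :
    (((CA_T m s₁ s₂ X₁ X₂ l).filter (fun t => t.1 ≠ t.2.1 ∧ t.2.2 ≠ l)).card : ℝ) ≤
      (l.divisors.card : ℝ) * (2 * ∑ n ∈ Icc 1 (X₁ / (s₁ * s₂)), (n.divisors.card : ℝ)) +
      ∑ i ∈ Nz (X₁ / (s₁ * s₂)), ((CA_Q m (s₁ * s₂) X₁ X₂ l i).card : ℝ) := by
  classical
  have hS : 1 ≤ s₁ * s₂ := Nat.mul_pos hs1 hs2
  have hS0 : ((s₁ * s₂ : ℕ) : ℤ) ≠ 0 := by exact_mod_cast (by omega : s₁ * s₂ ≠ 0)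
  simp only [Cop, mem_filter, mem_Icc] at hl
  set fi : ℕ × ℕ × ℕ → ℤ := fun t => ((t.2.1 : ℤ) - t.1) / ((s₁ * s₂ : ℕ) : ℤ) with hfi
  set fj : ℕ × ℕ × ℕ → ℤ := fun t => ((t.2.2 : ℤ) - l) / ((s₁ * s₂ : ℕ) : ℤ) with hfj
  have key : ∀ t ∈ (CA_T m s₁ s₂ X₁ X₂ l).filter (fun t => t.1 ≠ t.2.1 ∧ t.2.2 ≠ l),
      (1 ≤ t.1 ∧ t.1 ≤ X₁) ∧ fi t ∈ Nz (X₁ / (s₁ * s₂)) ∧ fj t ∈ Nz (X₂ / (s₁ * s₂)) ∧
      ((s₁ * s₂ : ℕ) : ℤ) * fi t = (t.2.1 : ℤ) - t.1 ∧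
      ((s₁ * s₂ : ℕ) : ℤ) * fj t = (t.2.2 : ℤ) - l ∧
      (m : ℤ) ∣ fj t * t.1 - fi t * l := by
    intro t ht
    simp only [CA_T, Cop, mem_filter, mem_product, mem_Icc] at ht
    obtain ⟨⟨⟨⟨⟨a1, a2⟩, _⟩, ⟨⟨b1, b2⟩, _⟩, ⟨⟨c1, c2⟩, _⟩⟩, h1, h2, h3⟩, n1, n2⟩ := ht
    obtain ⟨k1, k2, k3⟩ := CA_key hs hs2 h1 h2 h3
    refine ⟨⟨a1, a2⟩, CA_nz ?_ (CA_absdiff hS b2 a2 k1), CA_nz ?_ (CA_absdiff hS c2 hl.1.2 k2),
      k1, k2, k3⟩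
    · intro h
      rw [hfi] at h
      simp only at h
      rw [h, mul_zero] at k1
      omega
    · intro h
      rw [hfj] at h
      simp only at h
      rw [h, mul_zero] at k2
      omega
  have hcard := card_eq_sum_card_fiberwise (s := (CA_T m s₁ s₂ X₁ X₂ l).filter
    (fun t => t.1 ≠ t.2.1 ∧ t.2.2 ≠ l)) (t := Nz (X₁ / (s₁ * s₂))) (f := fi)
    (fun t ht => (key t ht).2.1)
  rw [hcard]
  push_cast
  rw [← CA_sumNz (X₁ / (s₁ * s₂)) (fun n => (n.divisors.card : ℝ)), mul_sum, ← sum_add_distrib]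
  apply sum_le_sum
  intro i hi
  have hi0 : i ≠ 0 := (mem_filter.1 hi).2
  have h1 : (((CA_T m s₁ s₂ X₁ X₂ l).filter (fun t => t.1 ≠ t.2.1 ∧ t.2.2 ≠ l)).filter
      (fun t => fi t = i)).card ≤
      ((Nz (X₂ / (s₁ * s₂)) ×ˢ Icc 1 X₁).filter
        (fun p : ℤ × ℕ => p.1 * (p.2 : ℤ) = i * (l : ℤ)) ∪ CA_Q m (s₁ * s₂) X₁ X₂ l i).card := by
    apply card_le_card_of_injOn (fun t => (fj t, t.1))
    · intro t ht
      simp only [coe_filter, Set.mem_ofPred_eq] at ht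
      obtain ⟨a, b, c, d, e, g⟩ := key t (by simpa only [mem_filter] using ht.1)
      simp only [coe_union, Set.mem_union, mem_coe, CA_Q, mem_filter, mem_product, mem_Icc]
      rw [← ht.2]
      by_cases h : fj t * (t.1 : ℤ) = fi t * (l : ℤ)
      · left; exact ⟨⟨c, a⟩, h⟩
      · right; exact ⟨⟨c, a⟩, h, g⟩
    · intro t ht t' ht' h
      simp only [coe_filter, Set.mem_ofPred_eq] at ht ht'
      obtain ⟨a, b, c, d, e, g⟩ := key t (by simpa only [mem_filter] using ht.1)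
      obtain ⟨a', b', c', d', e', g'⟩ := key t' (by simpa only [mem_filter] using ht'.1)
      simp only [Prod.mk.injEq] at h
      rw [ht.2] at d
      rw [ht'.2] at d'
      rw [h.1] at e
      have h3 := h.2
      apply Prod.ext h3
      apply Prod.ext
      · rw [h3] at d
        have := d.symm.trans d'
        omega
      · have := e.symm.trans e'
        omega
  have h2 := CA_R (X₂ / (s₁ * s₂)) X₁ l i hl.1.1 hi0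
  have h3 := h1.trans (card_union_le _ _)
  have h4 : ((((CA_T m s₁ s₂ X₁ X₂ l).filter (fun t => t.1 ≠ t.2.1 ∧ t.2.2 ≠ l)).filter
      (fun t => fi t = i)).card : ℝ) ≤
      (((Nz (X₂ / (s₁ * s₂)) ×ˢ Icc 1 X₁).filter
        (fun p : ℤ × ℕ => p.1 * (p.2 : ℤ) = i * (l : ℤ))).card : ℝ) +
        ((CA_Q m (s₁ * s₂) X₁ X₂ l i).card : ℝ) := by exact_mod_cast h3
  rw [mul_comm (l.divisors.card : ℝ)]
  linarith

/-- `i = j = 0` -/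
private lemma CA_A (m s₁ s₂ X₁ X₂ l : ℕ) :
    (((CA_T m s₁ s₂ X₁ X₂ l).filter (fun t => t.1 = t.2.1 ∧ t.2.2 = l)).card : ℝ) ≤ X₁ := by
  have : ((CA_T m s₁ s₂ X₁ X₂ l).filter (fun t => t.1 = t.2.1 ∧ t.2.2 = l)).card ≤
      (Icc 1 X₁).card := by
    apply card_le_card_of_injOn (fun t => t.1)
    · intro t ht
      simp only [coe_filter, Set.mem_ofPred_eq, CA_T, Cop, mem_filter, mem_product] at ht
      exact mem_coe.2 ht.1.1.1.1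
    · intro t ht t' ht' h
      simp only [coe_filter, Set.mem_ofPred_eq] at ht ht' h
      apply Prod.ext h
      apply Prod.ext
      · rw [← ht.2.1, ← ht'.2.1, h]
      · rw [ht.2.2, ht'.2.2]
  rw [Nat.card_Icc, Nat.add_sub_cancel] at this
  exact_mod_cast this

/-- `i = 0 ≠ j` -/
private lemma CA_B {m s₁ s₂ X₁ X₂ l : ℕ} (hm : 1 ≤ m) (hs : s₁.Coprime m) (hs1 : 1 ≤ s₁)
    (hs2 : 1 ≤ s₂) (hl : l ∈ Cop m X₂) :
    (((CA_T m s₁ s₂ X₁ X₂ l).filter (fun t => t.1 = t.2.1 ∧ t.2.2 ≠ l)).card : ℝ) ≤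
      X₁ * ((X₂ : ℝ) / ((s₁ * s₂ : ℕ) * m)) := by
  have hSm : 1 ≤ s₁ * s₂ * m := Nat.mul_pos (Nat.mul_pos hs1 hs2) hm
  have h1 : ((CA_T m s₁ s₂ X₁ X₂ l).filter (fun t => t.1 = t.2.1 ∧ t.2.2 ≠ l)).card ≤
      (Icc 1 X₁ ×ˢ (Icc 1 X₂).filter (fun n => n ≡ l [MOD s₁ * s₂ * m] ∧ n ≠ l)).card := by
    apply card_le_card_of_injOn (fun t => (t.1, t.2.2))
    · intro t ht
      simp only [coe_filter, Set.mem_ofPred_eq, CA_T, Cop, mem_filter, mem_product] at ht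
      obtain ⟨⟨⟨⟨a, a'⟩, _, ⟨b, _⟩⟩, h1, h2, h3⟩, n1, n2⟩ := ht
      obtain ⟨k1, k2, k3⟩ := CA_key hs hs2 h1 h2 h3
      simp only [mem_coe, mem_product, mem_filter]
      refine ⟨a, b, ?_, n2⟩
      rw [← n1, sub_self, Int.zero_ediv, zero_mul, sub_zero] at k3
      have hc : IsCoprime (m : ℤ) (t.1 : ℤ) := (Nat.isCoprime_iff_coprime.2 a').symm
      have k4 := hc.dvd_of_dvd_mul_right k3
      apply Nat.ModEq.symm
      rw [Nat.modEq_iff_dvd, ← k2, Nat.cast_mul (s₁ * s₂) m]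
      exact mul_dvd_mul_left _ k4
    · intro t ht t' ht' h
      simp only [coe_filter, Set.mem_ofPred_eq] at ht ht'
      simp only [Prod.mk.injEq] at h
      apply Prod.ext h.1
      apply Prod.ext
      · rw [← ht.2.1, ← ht'.2.1, h.1]
      · exact h.2
  rw [card_product, Nat.card_Icc, Nat.add_sub_cancel] at h1
  have hl' : l ∈ Icc 1 X₂ := (mem_filter.1 hl).1
  have h2 := CA_cls X₂ (s₁ * s₂ * m) l hSm hl'
  rw [Nat.cast_mul (s₁ * s₂) m] at h2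
  calc (((CA_T m s₁ s₂ X₁ X₂ l).filter (fun t => t.1 = t.2.1 ∧ t.2.2 ≠ l)).card : ℝ)
      ≤ X₁ * (((Icc 1 X₂).filter (fun n => n ≡ l [MOD s₁ * s₂ * m] ∧ n ≠ l)).card : ℝ) := by
        exact_mod_cast h1
    _ ≤ _ := mul_le_mul_of_nonneg_left h2 (by positivity)

/-- `j = 0 ≠ i` -/
private lemma CA_C {m s₁ s₂ X₁ X₂ l : ℕ} (hm : 1 ≤ m) (hs : s₁.Coprime m) (hs1 : 1 ≤ s₁)
    (hs2 : 1 ≤ s₂) (hl : l ∈ Cop m X₂) :
    (((CA_T m s₁ s₂ X₁ X₂ l).filter (fun t => t.1 ≠ t.2.1 ∧ t.2.2 = l)).card : ℝ) ≤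
      X₁ * ((X₁ : ℝ) / ((s₁ * s₂ : ℕ) * m)) := by
  have hSm : 1 ≤ s₁ * s₂ * m := Nat.mul_pos (Nat.mul_pos hs1 hs2) hm
  have hl1 : l.Coprime m := (mem_filter.1 hl).2
  have h1 : ((CA_T m s₁ s₂ X₁ X₂ l).filter (fun t => t.1 ≠ t.2.1 ∧ t.2.2 = l)).card ≤
      ((Icc 1 X₁).sigma (fun c => (Icc 1 X₁).filter
        (fun n => n ≡ c [MOD s₁ * s₂ * m] ∧ n ≠ c))).card := by
    apply card_le_card_of_injOn (fun t => (⟨t.1, t.2.1⟩ : (_ : ℕ) × ℕ))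
    · intro t ht
      simp only [coe_filter, Set.mem_ofPred_eq, CA_T, Cop, mem_filter, mem_product] at ht
      obtain ⟨⟨⟨⟨a, _⟩, ⟨b, _⟩, _⟩, h1, h2, h3⟩, n1, n2⟩ := ht
      obtain ⟨k1, k2, k3⟩ := CA_key hs hs2 h1 h2 h3
      simp only [mem_coe, mem_sigma, mem_filter]
      refine ⟨a, b, ?_, fun h => n1 h.symm⟩
      rw [n2, sub_self, Int.zero_ediv, zero_mul, zero_sub, dvd_neg] at k3
      have hc : IsCoprime (m : ℤ) (l : ℤ) := (Nat.isCoprime_iff_coprime.2 hl1).symm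
      have k4 := hc.dvd_of_dvd_mul_right k3
      apply Nat.ModEq.symm
      rw [Nat.modEq_iff_dvd, ← k1, Nat.cast_mul (s₁ * s₂) m]
      exact mul_dvd_mul_left _ k4
    · intro t ht t' ht' h
      simp only [coe_filter, Set.mem_ofPred_eq] at ht ht'
      simp only [Sigma.mk.injEq, heq_eq_eq] at h
      apply Prod.ext h.1
      apply Prod.ext h.2
      rw [ht.2.2, ht'.2.2]
  rw [card_sigma] at h1
  calc (((CA_T m s₁ s₂ X₁ X₂ l).filter (fun t => t.1 ≠ t.2.1 ∧ t.2.2 = l)).card : ℝ)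
      ≤ ∑ c ∈ Icc 1 X₁, (((Icc 1 X₁).filter
        (fun n => n ≡ c [MOD s₁ * s₂ * m] ∧ n ≠ c)).card : ℝ) := by
        exact_mod_cast h1
    _ ≤ ∑ _c ∈ Icc 1 X₁, ((X₁ : ℝ) / ((s₁ * s₂ : ℕ) * m)) := by
        apply sum_le_sum
        intro c hc
        have h2 := CA_cls X₁ (s₁ * s₂ * m) c hSm hc
        rw [Nat.cast_mul (s₁ * s₂) m] at h2
        exact h2
    _ = _ := by rw [sum_const, Nat.card_Icc, Nat.add_sub_cancel, nsmul_eq_mul]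

/-- the number of triples for a given `l` -/
private lemma CA_all {m s₁ s₂ X₁ X₂ l : ℕ} (hm : 1 ≤ m) (hs : s₁.Coprime m) (hs1 : 1 ≤ s₁)
    (hs2 : 1 ≤ s₂) (hl : l ∈ Cop m X₂) :
    ((CA_T m s₁ s₂ X₁ X₂ l).card : ℝ) ≤
      (X₁ + X₁ * (((X₁ : ℝ) + X₂) / ((s₁ * s₂ : ℕ) * m))) +
      (l.divisors.card : ℝ) * (2 * ∑ n ∈ Icc 1 (X₁ / (s₁ * s₂)), (n.divisors.card : ℝ)) +
      ∑ i ∈ Nz (X₁ / (s₁ * s₂)), ((CA_Q m (s₁ * s₂) X₁ X₂ l i).card : ℝ) := by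
  have h1 : (CA_T m s₁ s₂ X₁ X₂ l).card ≤
      ((CA_T m s₁ s₂ X₁ X₂ l).filter (fun t => t.1 = t.2.1 ∧ t.2.2 = l)).card +
      ((CA_T m s₁ s₂ X₁ X₂ l).filter (fun t => t.1 = t.2.1 ∧ t.2.2 ≠ l)).card +
      ((CA_T m s₁ s₂ X₁ X₂ l).filter (fun t => t.1 ≠ t.2.1 ∧ t.2.2 = l)).card +
      ((CA_T m s₁ s₂ X₁ X₂ l).filter (fun t => t.1 ≠ t.2.1 ∧ t.2.2 ≠ l)).card := by
    refine le_trans (card_le_card ?_) ((card_union_le _ _).trans (Nat.add_le_add_right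
      ((card_union_le _ _).trans (Nat.add_le_add_right (card_union_le _ _) _)) _))
    intro t ht
    simp only [mem_union, mem_filter]
    by_cases a : t.1 = t.2.1 <;> by_cases b : t.2.2 = l <;> simp [ht, a, b]
  have h2 : ((CA_T m s₁ s₂ X₁ X₂ l).card : ℝ) ≤
      (((CA_T m s₁ s₂ X₁ X₂ l).filter (fun t => t.1 = t.2.1 ∧ t.2.2 = l)).card : ℝ) +
      (((CA_T m s₁ s₂ X₁ X₂ l).filter (fun t => t.1 = t.2.1 ∧ t.2.2 ≠ l)).card : ℝ) +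
      (((CA_T m s₁ s₂ X₁ X₂ l).filter (fun t => t.1 ≠ t.2.1 ∧ t.2.2 = l)).card : ℝ) +
      (((CA_T m s₁ s₂ X₁ X₂ l).filter (fun t => t.1 ≠ t.2.1 ∧ t.2.2 ≠ l)).card : ℝ) := by
    exact_mod_cast h1
  have a1 := CA_A m s₁ s₂ X₁ X₂ l
  have a2 := CA_B (X₁ := X₁) hm hs hs1 hs2 hl
  have a3 := CA_C (X₁ := X₁) hm hs hs1 hs2 hl
  have a4 := CA_DE (X₁ := X₁) hs hs1 hs2 hl
  rw [add_div, mul_add]
  linarith

theorem count_A : ∃ (K : ℝ) (c : ℕ), 0 < K ∧ ∀ x m s₁ s₂ X₁ X₂ : ℕ, 3 ≤ x → 1 ≤ m → 1 ≤ s₁ → 1 ≤ s₂ →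
    s₁.Coprime m → s₂ ∣ m → X₁ * X₂ ≤ x →
    N4 m s₁ s₂ X₁ X₂ ≤ K * (Real.log x) ^ c * ((x : ℝ) + x * (X₁ + X₂) / ((s₁ * s₂ : ℕ) * m)) +
      EC m (s₁ * s₂) X₁ X₂ := by
  obtain ⟨C₁, hC₁, g1⟩ := Pool.Agent.HT.tau_sum 1
  obtain ⟨C₄, hC₄, g4⟩ := Pool.Agent.HT.tau_sum 4
  obtain ⟨C₅, hC₅, g5⟩ := Pool.Agent.HT.tau_sum 5
  refine ⟨C₄ + 2 * C₁ * C₅, 34, by positivity, ?_⟩
  intro x m s₁ s₂ X₁ X₂ hx hm hs1 hs2 hs _ hX
  have hlog := DivSum_log x hx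
  have hEC : 0 ≤ EC m (s₁ * s₂) X₁ X₂ := by
    rw [CA_EC]
    positivity
  rcases Nat.eq_zero_or_pos X₁ with h0 | hX1
  · subst h0
    have : N4 m s₁ s₂ 0 X₂ = 0 := by simp [N4, Cop]
    rw [this]
    positivity
  rcases Nat.eq_zero_or_pos X₂ with h0 | hX2
  · subst h0
    have : N4 m s₁ s₂ X₁ 0 = 0 := by simp [N4, Cop]
    rw [this]
    positivity
  have hX1x : X₁ ≤ x := (Nat.le_mul_of_pos_right _ hX2).trans hX
  have hX2x : X₂ ≤ x := (Nat.le_mul_of_pos_left _ hX1).trans hX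
  have hXr : (X₁ : ℝ) * X₂ ≤ x := by exact_mod_cast hX
  set S := s₁ * s₂ with hS
  have hS1 : 1 ≤ S := Nat.mul_pos hs1 hs2
  set L := Real.log x
  -- sums of powers of `τ`
  have b1 : ∑ n ∈ Icc 1 (X₁ / S), (n.divisors.card : ℝ) ≤ C₁ * X₁ * L ^ 2 := by
    have h := g1 x (X₁ / S) hx ((Nat.div_le_self _ _).trans hX1x)
    simp only [pow_one] at h
    refine h.trans ?_
    have : ((X₁ / S : ℕ) : ℝ) ≤ X₁ := by exact_mod_cast Nat.div_le_self _ _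
    gcongr
  have b4 : ∑ l ∈ Cop m X₂, (l.divisors.card : ℝ) ^ 4 ≤ C₄ * X₂ * L ^ 16 := by
    refine le_trans (sum_le_sum_of_subset_of_nonneg (filter_subset _ _)
      (fun _ _ _ => by positivity)) ((g4 x X₂ hx hX2x).trans (le_of_eq ?_))
    show C₄ * (X₂ : ℝ) * L ^ (2 ^ 4) = C₄ * X₂ * L ^ 16
    norm_num
  have b5 : ∑ l ∈ Cop m X₂, (l.divisors.card : ℝ) ^ 5 ≤ C₅ * X₂ * L ^ 32 := by
    refine le_trans (sum_le_sum_of_subset_of_nonneg (filter_subset _ _)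
      (fun _ _ _ => by positivity)) ((g5 x X₂ hx hX2x).trans (le_of_eq ?_))
    show C₅ * (X₂ : ℝ) * L ^ (2 ^ 5) = C₅ * X₂ * L ^ 32
    norm_num
  obtain ⟨G, hG⟩ : ∃ G : ℝ, G = X₁ + X₁ * (((X₁ : ℝ) + X₂) / (S * m)) := ⟨_, rfl⟩
  have hG0 : 0 ≤ G := by rw [hG]; positivity
  obtain ⟨P, hP⟩ : ∃ P : ℝ, P = ∑ n ∈ Icc 1 (X₁ / S), (n.divisors.card : ℝ) := ⟨_, rfl⟩
  have hP0 : 0 ≤ P := by rw [hP]; exact sum_nonneg (fun _ _ => Nat.cast_nonneg _)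
  rw [← hP] at b1
  have step : N4 m s₁ s₂ X₁ X₂ ≤ (∑ l ∈ Cop m X₂, (l.divisors.card : ℝ) ^ 4) * G +
      (∑ l ∈ Cop m X₂, (l.divisors.card : ℝ) ^ 5) * (2 * P) + EC m S X₁ X₂ := by
    rw [CA_N4, CA_EC, sum_mul, sum_mul, ← sum_add_distrib, ← sum_add_distrib]
    apply sum_le_sum
    intro l hl
    have h := mul_le_mul_of_nonneg_left (CA_all (X₁ := X₁) hm hs hs1 hs2 hl)
      (by positivity : (0 : ℝ) ≤ (l.divisors.card : ℝ) ^ 4)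
    refine h.trans (le_of_eq ?_)
    rw [hG, hP, hS]
    ring
  have c1 : (∑ l ∈ Cop m X₂, (l.divisors.card : ℝ) ^ 4) * G ≤
      C₄ * L ^ 34 * ((x : ℝ) + x * (X₁ + X₂) / (S * m)) := by
    calc (∑ l ∈ Cop m X₂, (l.divisors.card : ℝ) ^ 4) * G ≤ (C₄ * X₂ * L ^ 16) * G :=
          mul_le_mul_of_nonneg_right b4 hG0
      _ = C₄ * L ^ 16 * ((X₁ * X₂ : ℝ) + (X₁ * X₂ : ℝ) * ((X₁ + X₂) / (S * m))) := by
          rw [hG]; ring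
      _ ≤ C₄ * L ^ 34 * ((x : ℝ) + x * ((X₁ + X₂) / (S * m))) := by
          gcongr
          norm_num
      _ = _ := by rw [mul_div_assoc]
  have c2 : (∑ l ∈ Cop m X₂, (l.divisors.card : ℝ) ^ 5) * (2 * P) ≤
      2 * C₁ * C₅ * L ^ 34 * ((x : ℝ) + x * (X₁ + X₂) / (S * m)) := by
    calc (∑ l ∈ Cop m X₂, (l.divisors.card : ℝ) ^ 5) * (2 * P) ≤
          (C₅ * X₂ * L ^ 32) * (2 * (C₁ * X₁ * L ^ 2)) := by
          gcongr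
      _ = 2 * C₁ * C₅ * L ^ 34 * (X₁ * X₂ : ℝ) := by ring
      _ ≤ 2 * C₁ * C₅ * L ^ 34 * ((x : ℝ) + x * (X₁ + X₂) / (S * m)) := by
          have : 0 ≤ (x : ℝ) * (X₁ + X₂) / (S * m) := by positivity
          gcongr
          linarith
  have : (C₄ + 2 * C₁ * C₅) * L ^ 34 * ((x : ℝ) + x * (X₁ + X₂) / (S * m)) =
      C₄ * L ^ 34 * ((x : ℝ) + x * (X₁ + X₂) / (S * m)) +
      2 * C₁ * C₅ * L ^ 34 * ((x : ℝ) + x * (X₁ + X₂) / (S * m)) := by ring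
  linarith

end Pool.Agent.HN
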