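import Pool.Agent.Work.MP_92f640_nt.HN.Defs
import Pool.Agent.Work.MP_92f640_nt.HT.Coef

/-! # Module CountL: `EC` with the trivial bound for the divisor function

For given `l`, `i` put `n = j c`, `0 < |n| ≤ N = X₁ X₂/S`, `n ≡ i l (m)`, `n ≠ i l`, `|i l| ≤ N`: at most `4 N/m` values (multiples of `m`, not `0`, of absolute value `≤ 2N`); each has at most `τ(|n|)` pairs
`(j, c)` (`j = ± n/c`), `τ(n) ≤ C n^ε`. Number of `i`: `≤ 2 X₁/S`; `∑ τ(l)⁴`: `tau_sum`. -/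

namespace Pool.Agent.HN

open Finset Pool.Agent.BV Pool.Agent.HL

namespace CountLAux

lemma card_Nz (N : ℕ) : (Nz N).card = 2 * N := by
  have h : Nz N = (Icc (-(N : ℤ)) N).erase 0 := by
    unfold Nz
    rw [filter_ne']
  rw [h, card_erase_of_mem (by rw [mem_Icc]; omega), Int.card_Icc]
  omega

lemma mem_Nz {N : ℕ} {i : ℤ} : i ∈ Nz N ↔ i.natAbs ≤ N ∧ i ≠ 0 := by
  unfold Nz
  rw [mem_filter, mem_Icc]
  constructor
  · rintro ⟨⟨h1, h2⟩, h3⟩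
    exact ⟨by omega, h3⟩
  · rintro ⟨h1, h3⟩
    exact ⟨⟨by omega, by omega⟩, h3⟩

/-- pairs with given product -/
lemma card_pairs (A B : ℕ) (v : ℤ) (hv : v ≠ 0) :
    ((Nz A ×ˢ Icc 1 B).filter (fun p : ℤ × ℕ => p.1 * (p.2 : ℤ) = v)).card ≤
      v.natAbs.divisors.card := by
  apply card_le_card_of_injOn (fun p => p.2)
  · intro p hp
    rw [mem_coe, mem_filter] at hp
    rw [mem_coe, Nat.mem_divisors]
    refine ⟨?_, by omega⟩
    rw [← Int.natCast_dvd]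
    exact ⟨p.1, by rw [mul_comm]; exact hp.2.symm⟩
  · intro p hp q hq h
    rw [mem_coe, mem_filter, mem_product, mem_Icc] at hp hq
    simp only at h
    have h1 : p.1 * (p.2 : ℤ) = q.1 * (p.2 : ℤ) := by rw [hp.2, h, hq.2]
    have h2 : (p.2 : ℤ) ≠ 0 := by
      have := hp.1.2.1
      omega
    exact Prod.ext (mul_right_cancel₀ h2 h1) h

open Classical in
lemma inner (m S X₁ X₂ l : ℕ) (i : ℤ) (hm : 1 ≤ m) (hl : l ≤ X₂) (hi : i.natAbs ≤ X₁ / S)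
    (B : ℝ) (hB0 : 0 ≤ B)
    (hB : ∀ v : ℕ, v ≠ 0 → v ≤ X₁ * X₂ / S → (v.divisors.card : ℝ) ≤ B) :
    (((Nz (X₂ / S) ×ˢ Icc 1 X₁).filter (fun p : ℤ × ℕ =>
      p.1 * (p.2 : ℤ) ≠ i * (l : ℤ) ∧ (m : ℤ) ∣ p.1 * (p.2 : ℤ) - i * (l : ℤ))).card : ℝ) ≤
      2 * ((2 * (X₁ * X₂ / S)) / m : ℕ) * B := by
  set T := Nz ((2 * (X₁ * X₂ / S)) / m) with hT
  have hil : (i * (l : ℤ)).natAbs ≤ X₁ * X₂ / S := by
    rw [Int.natAbs_mul, Int.natAbs_natCast]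
    calc i.natAbs * l ≤ (X₁ / S) * X₂ := Nat.mul_le_mul hi hl
      _ ≤ X₁ * X₂ / S := by
        rw [mul_comm (X₁ / S), mul_comm X₁]
        exact Nat.mul_div_le_mul_div_assoc _ _ _
  have hjc : ∀ p ∈ (Nz (X₂ / S) ×ˢ Icc 1 X₁), (p.1 * (p.2 : ℤ)).natAbs ≤ X₁ * X₂ / S := by
    intro p hp
    rw [mem_product, mem_Nz, mem_Icc] at hp
    rw [Int.natAbs_mul, Int.natAbs_natCast]
    calc p.1.natAbs * p.2 ≤ (X₂ / S) * X₁ := Nat.mul_le_mul hp.1.1 hp.2.2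
      _ ≤ X₁ * X₂ / S := by
        rw [mul_comm (X₂ / S)]
        exact Nat.mul_div_le_mul_div_assoc _ _ _
  have h1 : ((Nz (X₂ / S) ×ˢ Icc 1 X₁).filter (fun p : ℤ × ℕ =>
      p.1 * (p.2 : ℤ) ≠ i * (l : ℤ) ∧ (m : ℤ) ∣ p.1 * (p.2 : ℤ) - i * (l : ℤ))) ⊆
      T.biUnion (fun t => (Nz (X₂ / S) ×ˢ Icc 1 X₁).filter (fun p : ℤ × ℕ =>
        p.1 * (p.2 : ℤ) = i * (l : ℤ) + m * t)) := by
    intro p hp
    rw [mem_filter] at hp
    obtain ⟨hp1, hp2, t, ht⟩ := hp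
    rw [mem_biUnion]
    refine ⟨t, ?_, ?_⟩
    · rw [hT, mem_Nz]
      have ht0 : t ≠ 0 := by
        rintro rfl
        rw [mul_zero] at ht
        exact hp2 (by linarith)
      refine ⟨?_, ht0⟩
      rw [Nat.le_div_iff_mul_le (by omega)]
      have h2 : ((m : ℤ) * t).natAbs = m * t.natAbs := by
        rw [Int.natAbs_mul, Int.natAbs_natCast]
      rw [mul_comm, ← h2, ← ht]
      have := hjc p hp1
      omega
    · rw [mem_filter]
      exact ⟨hp1, by linarith⟩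
  have h2 : ∀ t ∈ T, (((Nz (X₂ / S) ×ˢ Icc 1 X₁).filter (fun p : ℤ × ℕ =>
        p.1 * (p.2 : ℤ) = i * (l : ℤ) + m * t)).card : ℝ) ≤ B := by
    intro t _
    rcases (((Nz (X₂ / S) ×ˢ Icc 1 X₁).filter (fun p : ℤ × ℕ =>
        p.1 * (p.2 : ℤ) = i * (l : ℤ) + m * t))).eq_empty_or_nonempty with h | ⟨p, hp⟩
    · rw [h, card_empty]
      simpa using hB0
    · have hp' := mem_filter.1 hp
      have hp1 := mem_product.1 hp'.1
      have hv : i * (l : ℤ) + m * t ≠ 0 := by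
        rw [← hp'.2]
        have a1 := (mem_Nz.1 hp1.1).2
        have a2 := (mem_Icc.1 hp1.2).1
        exact mul_ne_zero a1 (by omega)
      refine le_trans ?_ (hB (i * (l : ℤ) + m * t).natAbs (by omega) ?_)
      · exact_mod_cast card_pairs _ _ _ hv
      · rw [← hp'.2]
        exact hjc p hp'.1
  calc (((Nz (X₂ / S) ×ˢ Icc 1 X₁).filter (fun p : ℤ × ℕ =>
      p.1 * (p.2 : ℤ) ≠ i * (l : ℤ) ∧ (m : ℤ) ∣ p.1 * (p.2 : ℤ) - i * (l : ℤ))).card : ℝ)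
      ≤ ((∑ t ∈ T, ((Nz (X₂ / S) ×ˢ Icc 1 X₁).filter (fun p : ℤ × ℕ =>
        p.1 * (p.2 : ℤ) = i * (l : ℤ) + m * t)).card : ℕ) : ℝ) := by
        exact_mod_cast (card_le_card h1).trans card_biUnion_le
    _ = ∑ t ∈ T, (((Nz (X₂ / S) ×ˢ Icc 1 X₁).filter (fun p : ℤ × ℕ =>
        p.1 * (p.2 : ℤ) = i * (l : ℤ) + m * t)).card : ℝ) := by push_cast; rfl
    _ ≤ ∑ _t ∈ T, B := sum_le_sum h2
    _ = _ := by
      rw [sum_const, nsmul_eq_mul, hT, card_Nz]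
      push_cast
      ring

end CountLAux

open CountLAux in
theorem count_L (ε : ℝ) (hε : 0 < ε) : ∃ (K : ℝ) (c : ℕ), 0 < K ∧ ∀ x m S X₁ X₂ : ℕ, 3 ≤ x →
    1 ≤ m → 1 ≤ S → X₁ * X₂ ≤ x →
    EC m S X₁ X₂ ≤ K * (Real.log x) ^ c * (x : ℝ) ^ ε * ((x : ℝ) ^ 2 / ((S : ℝ) ^ 2 * m)) := by
  obtain ⟨C1, hC1, h1⟩ := Pool.Agent.Work.MP_aac176_nt.divisor_bound ε hε
  obtain ⟨C2, hC2, h2⟩ := Pool.Agent.HT.tau_sum 4
  refine ⟨8 * C1 * C2, 2 ^ 4, by positivity, ?_⟩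
  intro x m S X₁ X₂ hx hm hS hX
  have hlog : 0 ≤ Real.log x := Real.log_natCast_nonneg x
  have hx0 : (1 : ℝ) ≤ x := by exact_mod_cast (by omega : 1 ≤ x)
  rcases Nat.eq_zero_or_pos X₁ with rfl | hX1
  · unfold EC
    simp only [Nat.zero_div, show Nz 0 = ∅ from by rw [← card_eq_zero, card_Nz], sum_empty,
      mul_zero, sum_const_zero]
    positivity
  have hX2x : X₂ ≤ x := le_trans (Nat.le_mul_of_pos_left _ hX1) hX
  set B : ℝ := C1 * (x : ℝ) ^ ε with hBdef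
  have hB0 : 0 ≤ B := by positivity
  have hB : ∀ v : ℕ, v ≠ 0 → v ≤ X₁ * X₂ / S → (v.divisors.card : ℝ) ≤ B := by
    intro v hv hvx
    refine (h1 v hv).trans ?_
    have hvx' : v ≤ x := hvx.trans ((Nat.div_le_self _ _).trans hX)
    apply mul_le_mul_of_nonneg_left _ (by linarith)
    exact Real.rpow_le_rpow (by positivity) (by exact_mod_cast hvx') hε.le
  set D : ℝ := 2 * ((2 * (X₁ * X₂ / S)) / m : ℕ) * B with hD
  have hD0 : 0 ≤ D := by positivity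
  have h3 : EC m S X₁ X₂ ≤ ∑ l ∈ Icc 1 X₂, (l.divisors.card : ℝ) ^ 4 * ((2 * (X₁ / S) : ℕ) * D) := by
    unfold EC
    refine le_trans (sum_le_sum (g := fun l : ℕ => (l.divisors.card : ℝ) ^ 4 *
      ((2 * (X₁ / S) : ℕ) * D)) ?_) (sum_le_sum_of_subset_of_nonneg (filter_subset _ _) ?_)
    · intro l hl
      apply mul_le_mul_of_nonneg_left _ (by positivity)
      have hl2 : l ≤ X₂ := (mem_Icc.1 (mem_filter.1 hl).1).2
      calc _ ≤ ∑ _i ∈ Nz (X₁ / S), D := by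
            apply sum_le_sum
            intro i hi
            exact inner m S X₁ X₂ l i hm hl2 (mem_Nz.1 hi).1 B hB0 hB
        _ = _ := by rw [sum_const, nsmul_eq_mul, card_Nz]
    · intro l _ _
      positivity
  have h4 := h2 x X₂ hx hX2x
  have hS0 : (0 : ℝ) < S := by exact_mod_cast hS
  have hm0 : (0 : ℝ) < m := by exact_mod_cast hm
  have h5 : ((X₁ / S : ℕ) : ℝ) ≤ X₁ / S := Nat.cast_div_le
  have h6 : (((2 * (X₁ * X₂ / S)) / m : ℕ) : ℝ) ≤ 2 * (X₁ * X₂ / S) / m := by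
    refine Nat.cast_div_le.trans ?_
    apply div_le_div_of_nonneg_right _ hm0.le
    push_cast
    apply mul_le_mul_of_nonneg_left _ (by norm_num)
    have := (Nat.cast_div_le : (((X₁ * X₂) / S : ℕ) : ℝ) ≤ ((X₁ * X₂ : ℕ) : ℝ) / S)
    push_cast at this
    exact this
  have hXr : (X₁ : ℝ) * X₂ ≤ x := by exact_mod_cast hX
  have hXr0 : (0 : ℝ) ≤ (X₁ : ℝ) * X₂ := by positivity
  calc EC m S X₁ X₂ ≤ ∑ l ∈ Icc 1 X₂, (l.divisors.card : ℝ) ^ 4 * ((2 * (X₁ / S) : ℕ) * D) := h3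
    _ = (∑ l ∈ Icc 1 X₂, (l.divisors.card : ℝ) ^ 4) * ((2 * (X₁ / S) : ℕ) * D) := by rw [sum_mul]
    _ ≤ (C2 * X₂ * (Real.log x) ^ (2 ^ 4)) * ((2 * (X₁ / S)) * (2 * (2 * (X₁ * X₂ / S) / m) * B)) := by
        apply mul_le_mul h4 _ (by positivity) (by positivity)
        push_cast
        apply mul_le_mul _ _ hD0 (by positivity)
        · exact mul_le_mul_of_nonneg_left h5 (by norm_num)
        · rw [hD]
          exact mul_le_mul_of_nonneg_right (mul_le_mul_of_nonneg_left h6 (by norm_num)) hB0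
    _ = 8 * C1 * C2 * (Real.log x) ^ (2 ^ 4) * (x : ℝ) ^ ε *
        (((X₁ : ℝ) * X₂) ^ 2 / ((S : ℝ) ^ 2 * m)) := by
        rw [hBdef]
        field_simp
        ring
    _ ≤ _ := by
        apply mul_le_mul_of_nonneg_left _ (by positivity)
        apply div_le_div_of_nonneg_right _ (by positivity)
        exact pow_le_pow_left₀ hXr0 hXr 2

end Pool.Agent.HN
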