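import Mathlib

/-! # Module Landreau

Among the primes of `n` (with multiplicity) fewer than `k` have `p^k > n`. Write the product of the others as a product of as few as possible blocks `d` with `d^k ≤ n`:
two blocks multiply to more than `n^(1/k)`, so there are at most `2k - 1` blocks; `τ` is submultiplicative: `τ(n) ≤ 2^k max τ(d)^(2k-1)`. (For `n = 1` trivial.) -/

namespace Pool.Agent.HN

open Finset

private theorem landreau_tau_mul (a b : ℕ) :
    (a * b).divisors.card ≤ a.divisors.card * b.divisors.card := by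
  rw [Nat.divisors_mul]
  exact Finset.card_mul_le

private theorem landreau_tau_pos {a : ℕ} (ha : a ≠ 0) : 1 ≤ a.divisors.card :=
  Finset.card_pos.2 ⟨1, Nat.one_mem_divisors.2 ha⟩

/-- Invariant: `m = B e` with `B` a product of `b` big primes and `c` blocks. -/
private theorem landreau_aux (k : ℕ) (n : ℕ) (hn : 1 ≤ n) (T : ℕ)
    (hT : ∀ d : ℕ, d ∣ n → d ^ k ≤ n → d.divisors.card ≤ T) (m : ℕ) (hm : m ∣ n) :
    ∃ b c B e : ℕ, m = B * e ∧ B.divisors.card ≤ 2 ^ b * T ^ c ∧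
      (n + 1) ^ (2 * b + c) ≤ B ^ (2 * k) ∧ e ^ (2 * k) ≤ n := by
  induction m using Nat.recOnMul with
  | zero =>
    exfalso
    have := Nat.eq_zero_of_zero_dvd hm
    omega
  | one =>
    exact ⟨0, 0, 1, 1, by simp, by simp, by simp, by simpa using hn⟩
  | prime p hp =>
    have h1 : (p.divisors.card : ℕ) ≤ 2 := by
      rw [hp.divisors, Finset.card_pair hp.one_lt.ne]
    by_cases hbig : p ^ k ≤ n
    · by_cases hmid : p ^ (2 * k) ≤ n
      · exact ⟨0, 0, 1, p, by simp, by simp, by simp, hmid⟩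
      · refine ⟨0, 1, p, 1, by simp, by simpa using hT p hm hbig, ?_, by simpa using hn⟩
        simp only [Nat.mul_zero, Nat.zero_add, pow_one]
        omega
    · refine ⟨1, 0, p, 1, by simp, by simpa using h1, ?_, by simpa using hn⟩
      have h2 : n + 1 ≤ p ^ k := by omega
      calc (n + 1) ^ (2 * 1 + 0) = (n + 1) ^ 2 := by norm_num
        _ ≤ (p ^ k) ^ 2 := Nat.pow_le_pow_left h2 2
        _ = p ^ (2 * k) := by rw [← pow_mul, mul_comm]
  | mul m₁ m₂ ih₁ ih₂ =>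
    obtain ⟨b₁, c₁, B₁, e₁, hm₁, ht₁, hB₁, he₁⟩ := ih₁ (dvd_of_mul_right_dvd hm)
    obtain ⟨b₂, c₂, B₂, e₂, hm₂, ht₂, hB₂, he₂⟩ := ih₂ (dvd_of_mul_left_dvd hm)
    have hB : (n + 1) ^ (2 * (b₁ + b₂) + (c₁ + c₂)) ≤ (B₁ * B₂) ^ (2 * k) := by
      calc (n + 1) ^ (2 * (b₁ + b₂) + (c₁ + c₂)) =
            (n + 1) ^ (2 * b₁ + c₁) * (n + 1) ^ (2 * b₂ + c₂) := by
              rw [← pow_add]; congr 1; ring
        _ ≤ B₁ ^ (2 * k) * B₂ ^ (2 * k) := Nat.mul_le_mul hB₁ hB₂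
        _ = (B₁ * B₂) ^ (2 * k) := (mul_pow _ _ _).symm
    have ht : (B₁ * B₂).divisors.card ≤ 2 ^ (b₁ + b₂) * T ^ (c₁ + c₂) := by
      calc (B₁ * B₂).divisors.card ≤ B₁.divisors.card * B₂.divisors.card :=
            landreau_tau_mul _ _
        _ ≤ (2 ^ b₁ * T ^ c₁) * (2 ^ b₂ * T ^ c₂) := Nat.mul_le_mul ht₁ ht₂
        _ = 2 ^ (b₁ + b₂) * T ^ (c₁ + c₂) := by ring
    have hprod : m₁ * m₂ = B₁ * B₂ * (e₁ * e₂) := by
      rw [hm₁, hm₂]; ring
    by_cases hsm : (e₁ * e₂) ^ (2 * k) ≤ n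
    · exact ⟨b₁ + b₂, c₁ + c₂, B₁ * B₂, e₁ * e₂, hprod, ht, hB, hsm⟩
    · have hedvd : e₁ * e₂ ∣ n := by
        refine dvd_trans ?_ hm
        rw [hprod]
        exact dvd_mul_left _ _
      have hek : (e₁ * e₂) ^ k ≤ n := by
        have h3 : ((e₁ * e₂) ^ k) ^ 2 ≤ n ^ 2 := by
          calc ((e₁ * e₂) ^ k) ^ 2 = e₁ ^ (2 * k) * e₂ ^ (2 * k) := by
                rw [← pow_mul, mul_comm k 2, mul_pow]
            _ ≤ n * n := Nat.mul_le_mul he₁ he₂
            _ = n ^ 2 := (pow_two n).symm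
        exact (Nat.pow_le_pow_iff_left (by norm_num)).1 h3
      refine ⟨b₁ + b₂, c₁ + c₂ + 1, B₁ * B₂ * (e₁ * e₂), 1, by rw [hprod, mul_one], ?_, ?_,
        by simpa using hn⟩
      · calc (B₁ * B₂ * (e₁ * e₂)).divisors.card ≤
              (B₁ * B₂).divisors.card * (e₁ * e₂).divisors.card := landreau_tau_mul _ _
          _ ≤ (2 ^ (b₁ + b₂) * T ^ (c₁ + c₂)) * T := Nat.mul_le_mul ht (hT _ hedvd hek)
          _ = 2 ^ (b₁ + b₂) * T ^ (c₁ + c₂ + 1) := by rw [pow_succ]; ring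
      · have h4 : n + 1 ≤ (e₁ * e₂) ^ (2 * k) := by omega
        calc (n + 1) ^ (2 * (b₁ + b₂) + (c₁ + c₂ + 1)) =
              (n + 1) ^ (2 * (b₁ + b₂) + (c₁ + c₂)) * (n + 1) := by
                rw [← pow_succ]; congr 1
          _ ≤ (B₁ * B₂) ^ (2 * k) * (e₁ * e₂) ^ (2 * k) := Nat.mul_le_mul hB h4
          _ = (B₁ * B₂ * (e₁ * e₂)) ^ (2 * k) := (mul_pow _ _ _).symm

theorem landreau (k : ℕ) (hk : 1 ≤ k) (n : ℕ) (hn : 1 ≤ n) : (n.divisors.card : ℝ) ≤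
    2 ^ k * ∑ d ∈ n.divisors.filter (fun d => d ^ k ≤ n), (d.divisors.card : ℝ) ^ (2 * k + 1) := by
  set S := n.divisors.filter (fun d => d ^ k ≤ n) with hS
  have hne : S.Nonempty := ⟨1, by
    rw [hS, Finset.mem_filter]
    exact ⟨Nat.one_mem_divisors.2 (by omega), by simpa using hn⟩⟩
  obtain ⟨d₀, hd₀, hmax⟩ := S.exists_max_image (fun d => d.divisors.card) hne
  set T := d₀.divisors.card with hTdef
  have hd₀' : d₀ ∣ n ∧ d₀ ^ k ≤ n := by
    rw [hS, Finset.mem_filter, Nat.mem_divisors] at hd₀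
    exact ⟨hd₀.1.1, hd₀.2⟩
  have hT : ∀ d : ℕ, d ∣ n → d ^ k ≤ n → d.divisors.card ≤ T := by
    intro d hd hdk
    refine hmax d ?_
    rw [hS, Finset.mem_filter, Nat.mem_divisors]
    exact ⟨⟨hd, by omega⟩, hdk⟩
  have hd₀pos : d₀ ≠ 0 := by
    rintro rfl
    have := Nat.eq_zero_of_zero_dvd hd₀'.1
    omega
  have hT1 : 1 ≤ T := landreau_tau_pos hd₀pos
  obtain ⟨b, c, B, e, hBe, ht, hB, he⟩ := landreau_aux k n hn T hT n dvd_rfl
  have hepos : e ≠ 0 := by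
    rintro rfl
    simp at hBe
    omega
  have hBn : B ≤ n := by
    rw [hBe]
    exact Nat.le_mul_of_pos_right B (Nat.pos_of_ne_zero hepos)
  have hlt : 2 * b + c < 2 * k := by
    by_contra hcon
    have h1 : (n + 1) ^ (2 * k) ≤ (n + 1) ^ (2 * b + c) :=
      Nat.pow_le_pow_right (by omega) (by omega)
    have h2 : B ^ (2 * k) ≤ n ^ (2 * k) := Nat.pow_le_pow_left hBn _
    have h3 : n ^ (2 * k) < (n + 1) ^ (2 * k) := Nat.pow_lt_pow_left (by omega) (by omega)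
    omega
  have heT : e.divisors.card ≤ T := by
    refine hT e ⟨B, by rw [mul_comm]; exact hBe⟩ ?_
    exact (Nat.pow_le_pow_right (Nat.pos_of_ne_zero hepos) (by omega)).trans he
  have hnat : n.divisors.card ≤ 2 ^ k * T ^ (2 * k + 1) := by
    calc n.divisors.card = (B * e).divisors.card := by rw [← hBe]
      _ ≤ B.divisors.card * e.divisors.card := landreau_tau_mul _ _
      _ ≤ (2 ^ b * T ^ c) * T := Nat.mul_le_mul ht heT
      _ = 2 ^ b * T ^ (c + 1) := by rw [pow_succ]; ring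
      _ ≤ 2 ^ k * T ^ (2 * k + 1) :=
          Nat.mul_le_mul (Nat.pow_le_pow_right (by norm_num) (by omega))
            (Nat.pow_le_pow_right hT1 (by omega))
  calc (n.divisors.card : ℝ) ≤ ((2 ^ k * T ^ (2 * k + 1) : ℕ) : ℝ) := by exact_mod_cast hnat
    _ = 2 ^ k * (T : ℝ) ^ (2 * k + 1) := by push_cast; ring
    _ ≤ 2 ^ k * ∑ d ∈ S, (d.divisors.card : ℝ) ^ (2 * k + 1) := by
        refine mul_le_mul_of_nonneg_left ?_ (by positivity)
        exact Finset.single_le_sum (f := fun d : ℕ => (d.divisors.card : ℝ) ^ (2 * k + 1))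
          (fun d _ => by positivity) hd₀

end Pool.Agent.HN
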