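import Pool.Agent.Work.MP_92f640_nt.HN.Group
import Pool.Agent.Work.MP_92f640_nt.HN.CountA
import Pool.Agent.Work.MP_92f640_nt.HN.CountL
import Pool.Agent.Work.MP_92f640_nt.HN.CountS
import Pool.Agent.Work.MP_92f640_nt.HN.BoxPert

/-! # Module BoxMinor: type II sums over a box on the minor arcs

`split` gives `s = g s₁ s₂`, `S = s₁ s₂`, `g ≤ s₂ ≤ S`, so `s ≤ S²`. `box_pert` with `α₀ = b/(s q)`; for each `t` `group_q` (weights stay `≤ 1`, `≤ τ²`), `count_A`: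
`s (x + x (X₁+X₂)/(S g q)) = s x + x (X₁+X₂)/q`. `EC`: if `s ≤ x^(η₁/4)`: `count_S` with `k = ⌈4/η₁⌉`: `s x²/(S² g q) = x²/(S q) ≤ x²/(q √s)` and
`s (x/S) x^(1/k) = g x^(1 + 1/k) ≤ s x^(1 + η₁/4) ≤ x²/(q s^(1/4))` (`q s^(5/4) ≤ x^(1 - η₁ + 5η₁/16)`). If `s > x^(η₁/4)`: `count_L` with `ε = η₁/16`: `x^ε ≤ s^(1/4)`. -/

namespace Pool.Agent.HN

open Finset Pool.Agent.BV Pool.Agent.HL

/-- the box sum for the modified weights -/
private theorem box_t (q g s₁ s₂ : ℕ) (hq : 1 ≤ q) (hg : 1 ≤ g) (hs₁ : 1 ≤ s₁) (hs₂ : 1 ≤ s₂)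
    (h₁ : s₁.Coprime (g * q)) (h₂ : s₂ ∣ g * q) (hgq : ∀ p : ℕ, p.Prime → p ∣ g → p ∣ q)
    (b : ℤ) (hb : IsCoprime b ((g * s₁ * s₂ : ℕ) : ℤ)) (X₁ X₂ : ℕ) (A B : ℕ → ℂ)
    (hA : ∀ c, ‖A c‖ ≤ 1) (hB : ∀ l, ‖B l‖ ≤ (l.divisors.card : ℝ) ^ 2)
    (hAq : ∀ c, ¬ c.Coprime q → A c = 0) (hBq : ∀ l, ¬ l.Coprime q → B l = 0) (t : ℕ) :
    VB q (Icc 1 X₁) (Icc 1 X₂) (fun c => A c * ((c : ℂ) / X₁) ^ t)
      (fun l => B l * ((l : ℂ) / X₂) ^ t) ((b : ℝ) / ((g * s₁ * s₂ : ℕ) * q)) ≤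
      g * (s₁ * s₂) * N4 (g * q) s₁ s₂ X₁ X₂ := by
  have hfrac : ∀ (X c : ℕ), c ≤ X → ‖((c : ℂ) / X) ^ t‖ ≤ 1 := by
    intro X c hc
    rw [norm_pow]
    refine pow_le_one₀ (norm_nonneg _) ?_
    rw [norm_div, Complex.norm_natCast, Complex.norm_natCast]
    exact div_le_one_of_le₀ (by exact_mod_cast hc) (Nat.cast_nonneg _)
  have key := group_q q g s₁ s₂ hq hg hs₁ hs₂ h₁ h₂ hgq b hb X₁ X₂
    (fun c => if c ≤ X₁ then A c * ((c : ℂ) / X₁) ^ t else 0)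
    (fun l => if l ≤ X₂ then B l * ((l : ℂ) / X₂) ^ t else 0)
    (by
      intro c
      split_ifs with h
      · rw [norm_mul]
        exact mul_le_one₀ (hA c) (norm_nonneg _) (hfrac X₁ c h)
      · simp)
    (by
      intro l
      split_ifs with h
      · rw [norm_mul]
        calc ‖B l‖ * ‖((l : ℂ) / X₂) ^ t‖ ≤ ‖B l‖ * 1 :=
              mul_le_mul_of_nonneg_left (hfrac X₂ l h) (norm_nonneg _)
          _ = ‖B l‖ := mul_one _
          _ ≤ _ := hB l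
      · rw [norm_zero]
        exact pow_nonneg (Nat.cast_nonneg _) 2)
    (by
      intro c hc
      simp [hAq c hc])
    (by
      intro l hl
      simp [hBq l hl])
  refine le_trans (le_of_eq ?_) key
  unfold VB
  refine Finset.sum_congr rfl fun a _ => ?_
  congr 2
  refine Finset.sum_congr rfl fun c hc => Finset.sum_congr rfl fun l hl => ?_
  beta_reduce
  rw [if_pos (Finset.mem_Icc.mp hc).2, if_pos (Finset.mem_Icc.mp hl).2]

theorem box_minor (η₁ : ℝ) (hη : 0 < η₁) : ∃ (K : ℝ) (c : ℕ), 0 < K ∧ ∀ (x q s X₁ X₂ : ℕ)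
    (A B : ℕ → ℂ) (α : ℝ) (b : ℤ), 3 ≤ x → 1 ≤ q → (q : ℝ) ≤ (x : ℝ) ^ (1 - η₁) → 1 ≤ s → s ≤ x →
    X₁ * X₂ ≤ x → (∀ c, ‖A c‖ ≤ 1) → (∀ l, ‖B l‖ ≤ (l.divisors.card : ℝ) ^ 2) →
    (∀ c, ¬ c.Coprime q → A c = 0) → (∀ l, ¬ l.Coprime q → B l = 0) → IsCoprime b (s : ℤ) →
    |q * α - b / s| ≤ (q : ℝ) / x →
    VB q (Icc 1 X₁) (Icc 1 X₂) A B α ≤ K * (Real.log x) ^ c *
      ((s : ℝ) * x + x * (X₁ + X₂) / q + (x : ℝ) ^ 2 / (q * (s : ℝ) ^ (1 / 4 : ℝ))) := by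
  obtain ⟨KA, cA, hKA, hA'⟩ := count_A
  obtain ⟨KL, cL, hKL, hL'⟩ := count_L (η₁ / 16) (by positivity)
  set k : ℕ := ⌈4 / η₁⌉₊ with hkdef
  have hk : 1 ≤ k := Nat.one_le_iff_ne_zero.mpr (Nat.ceil_pos.mpr (by positivity)).ne'
  have hk0 : (0 : ℝ) < k := by exact_mod_cast hk
  have hk1 : 1 / (k : ℝ) ≤ η₁ / 4 := by
    have h := Nat.le_ceil (4 / η₁)
    rw [← hkdef] at h
    rw [div_le_iff₀ hη] at h
    rw [div_le_div_iff₀ hk0 (by norm_num)]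
    linarith
  obtain ⟨KS, cS, hKS, hS'⟩ := count_S k hk
  refine ⟨Real.exp (4 * Real.pi) * (KA + 2 * KS + KL), cA + cS + cL, by positivity, ?_⟩
  intro x q s X₁ X₂ A B α b hx hq hqx hs hsx hX hA hB hAq hBq hb hα
  obtain ⟨g, s₁, s₂, hs_eq, hg, hs₁, hs₂, hco, hdv, hgs, hgq⟩ := split q s hq hs
  have hx0 : (0 : ℝ) < x := by exact_mod_cast (by omega : 0 < x)
  have hx1 : (1 : ℝ) ≤ x := by exact_mod_cast (by omega : 1 ≤ x)
  have hq0 : (0 : ℝ) < q := by exact_mod_cast hq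
  have hg0 : (0 : ℝ) < g := by exact_mod_cast hg
  have hs0 : (0 : ℝ) < s := by exact_mod_cast hs
  have hs1R : (1 : ℝ) ≤ s := by exact_mod_cast hs
  have hL1 : 1 ≤ Real.log x := by
    rw [Real.le_log_iff_exp_le hx0]
    have h3 : (3 : ℝ) ≤ x := by exact_mod_cast hx
    linarith [Real.exp_one_lt_d9]
  have hL0 : 0 ≤ Real.log x := by linarith
  set L := Real.log x with hLdef
  set S : ℕ := s₁ * s₂ with hSdef
  have hS1 : 1 ≤ S := Nat.mul_pos hs₁ hs₂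
  have hS0 : (0 : ℝ) < S := by exact_mod_cast hS1
  have hsS : s = g * S := by rw [hs_eq, hSdef, mul_assoc]
  have hsSR : (s : ℝ) = g * S := by rw [hsS]; push_cast; ring
  have hgS : g ≤ S := (Nat.le_of_dvd hs₂ hgs).trans (Nat.le_mul_of_pos_left s₂ hs₁)
  have hgSR : (g : ℝ) ≤ S := by exact_mod_cast hgS
  have hgs' : (g : ℝ) ≤ s := by
    rw [hsSR]
    exact le_mul_of_one_le_right hg0.le (by exact_mod_cast hS1)
  -- powers of s
  have hq4 : (s : ℝ) ^ (1 / 4 : ℝ) * (s : ℝ) ^ (1 / 4 : ℝ) ≤ S := by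
    rw [← Real.rpow_add hs0]
    have h1 : (1 / 4 : ℝ) + 1 / 4 = 1 / 2 := by norm_num
    rw [h1, ← Real.sqrt_eq_rpow]
    rw [show (S : ℝ) = Real.sqrt ((S : ℝ) ^ 2) from (Real.sqrt_sq hS0.le).symm]
    apply Real.sqrt_le_sqrt
    rw [hsSR]
    nlinarith
  have h4pos : 0 < (s : ℝ) ^ (1 / 4 : ℝ) := Real.rpow_pos_of_pos hs0 _
  have h4one : 1 ≤ (s : ℝ) ^ (1 / 4 : ℝ) := Real.one_le_rpow hs1R (by norm_num)
  have h4S : (s : ℝ) ^ (1 / 4 : ℝ) ≤ S :=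
    le_trans (le_mul_of_one_le_left h4pos.le h4one) hq4
  set W : ℝ := (x : ℝ) ^ 2 / (q * (s : ℝ) ^ (1 / 4 : ℝ)) with hW
  have hW0 : 0 ≤ W := by positivity
  -- the essential count
  have hEC : (g : ℝ) * S * EC (g * q) S X₁ X₂ ≤ (2 * KS + KL) * L ^ (cA + cS + cL) * W := by
    have hgq1 : 1 ≤ g * q := Nat.mul_pos hg hq
    have hmain : (x : ℝ) ^ 2 / (S * q) ≤ W := by
      rw [hW]
      apply div_le_div_of_nonneg_left (by positivity) (by positivity)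
      rw [mul_comm]
      exact mul_le_mul_of_nonneg_right h4S hq0.le
    rcases le_or_gt (s : ℝ) ((x : ℝ) ^ (η₁ / 4)) with hcase | hcase
    · have h1 := hS' x (g * q) S X₁ X₂ hx hgq1 hS1 hX
      have h2 : (g : ℝ) * x * (x : ℝ) ^ (1 / (k : ℝ)) ≤ W := by
        rw [hW, le_div_iff₀ (by positivity)]
        have e1 : (x : ℝ) ^ (1 / (k : ℝ)) ≤ (x : ℝ) ^ (η₁ / 4) :=
          Real.rpow_le_rpow_of_exponent_le hx1 hk1
        have e2 : (s : ℝ) ^ (1 / 4 : ℝ) ≤ (x : ℝ) ^ (η₁ / 16) := by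
          calc (s : ℝ) ^ (1 / 4 : ℝ) ≤ ((x : ℝ) ^ (η₁ / 4)) ^ (1 / 4 : ℝ) :=
                Real.rpow_le_rpow hs0.le hcase (by norm_num)
            _ = (x : ℝ) ^ (η₁ / 16) := by
                rw [← Real.rpow_mul hx0.le]
                congr 1
                ring
        have e3 : (g : ℝ) ≤ (x : ℝ) ^ (η₁ / 4) := hgs'.trans hcase
        have e4 : (g : ℝ) * (x : ℝ) ^ (1 / (k : ℝ)) * (q * (s : ℝ) ^ (1 / 4 : ℝ)) ≤ x := by
          calc (g : ℝ) * (x : ℝ) ^ (1 / (k : ℝ)) * (q * (s : ℝ) ^ (1 / 4 : ℝ)) ≤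
              (x : ℝ) ^ (η₁ / 4) * (x : ℝ) ^ (η₁ / 4) * ((x : ℝ) ^ (1 - η₁) * (x : ℝ) ^ (η₁ / 16)) := by
                gcongr
            _ = (x : ℝ) ^ (1 - 7 * η₁ / 16) := by
                rw [← Real.rpow_add hx0, ← Real.rpow_add hx0, ← Real.rpow_add hx0]
                congr 1
                ring
            _ ≤ (x : ℝ) ^ (1 : ℝ) :=
                Real.rpow_le_rpow_of_exponent_le hx1 (by linarith)
            _ = x := Real.rpow_one _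
        calc (g : ℝ) * x * (x : ℝ) ^ (1 / (k : ℝ)) * (q * (s : ℝ) ^ (1 / 4 : ℝ)) =
            ((g : ℝ) * (x : ℝ) ^ (1 / (k : ℝ)) * (q * (s : ℝ) ^ (1 / 4 : ℝ))) * x := by ring
          _ ≤ x * x := mul_le_mul_of_nonneg_right e4 hx0.le
          _ = (x : ℝ) ^ 2 := by ring
      have h3 : (g : ℝ) * S * EC (g * q) S X₁ X₂ ≤ KS * L ^ cS * (W + W) := by
        calc (g : ℝ) * S * EC (g * q) S X₁ X₂ ≤ (g : ℝ) * S * (KS * L ^ cS *
              ((x : ℝ) ^ 2 / ((S : ℝ) ^ 2 * (g * q : ℕ)) + (x : ℝ) / S * (x : ℝ) ^ (1 / (k : ℝ)))) :=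
              mul_le_mul_of_nonneg_left h1 (by positivity)
          _ = KS * L ^ cS * ((x : ℝ) ^ 2 / (S * q) + (g : ℝ) * x * (x : ℝ) ^ (1 / (k : ℝ))) := by
              push_cast
              field_simp
          _ ≤ KS * L ^ cS * (W + W) := by
              apply mul_le_mul_of_nonneg_left (add_le_add hmain h2)
              exact mul_nonneg hKS.le (pow_nonneg hL0 _)
      have h5 : L ^ cS ≤ L ^ (cA + cS + cL) := pow_le_pow_right₀ hL1 (by omega)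
      calc (g : ℝ) * S * EC (g * q) S X₁ X₂ ≤ KS * L ^ cS * (W + W) := h3
        _ = 2 * KS * L ^ cS * W := by ring
        _ ≤ 2 * KS * L ^ (cA + cS + cL) * W := by gcongr
        _ ≤ (2 * KS + KL) * L ^ (cA + cS + cL) * W := by
            apply mul_le_mul_of_nonneg_right _ hW0
            apply mul_le_mul_of_nonneg_right _ (pow_nonneg hL0 _)
            linarith
    · have h1 := hL' x (g * q) S X₁ X₂ hx hgq1 hS1 hX
      have e1 : (x : ℝ) ^ (η₁ / 16) ≤ (s : ℝ) ^ (1 / 4 : ℝ) := by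
        calc (x : ℝ) ^ (η₁ / 16) = ((x : ℝ) ^ (η₁ / 4)) ^ (1 / 4 : ℝ) := by
              rw [← Real.rpow_mul hx0.le]
              congr 1
              ring
          _ ≤ (s : ℝ) ^ (1 / 4 : ℝ) :=
              Real.rpow_le_rpow (Real.rpow_nonneg hx0.le _) hcase.le (by norm_num)
      have h2 : (x : ℝ) ^ (η₁ / 16) * ((x : ℝ) ^ 2 / (S * q)) ≤ W := by
        rw [hW, le_div_iff₀ (by positivity), ← mul_div_assoc, div_mul_eq_mul_div,
          div_le_iff₀ (by positivity)]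
        calc (x : ℝ) ^ (η₁ / 16) * (x : ℝ) ^ 2 * (q * (s : ℝ) ^ (1 / 4 : ℝ)) ≤
            (s : ℝ) ^ (1 / 4 : ℝ) * (x : ℝ) ^ 2 * (q * (s : ℝ) ^ (1 / 4 : ℝ)) := by gcongr
          _ = (x : ℝ) ^ 2 * (((s : ℝ) ^ (1 / 4 : ℝ) * (s : ℝ) ^ (1 / 4 : ℝ)) * q) := by ring
          _ ≤ (x : ℝ) ^ 2 * (S * q) := by gcongr
      have h3 : (g : ℝ) * S * EC (g * q) S X₁ X₂ ≤ KL * L ^ cL * W := by
        calc (g : ℝ) * S * EC (g * q) S X₁ X₂ ≤ (g : ℝ) * S * (KL * L ^ cL * (x : ℝ) ^ (η₁ / 16) *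
              ((x : ℝ) ^ 2 / ((S : ℝ) ^ 2 * (g * q : ℕ)))) :=
              mul_le_mul_of_nonneg_left h1 (by positivity)
          _ = KL * L ^ cL * ((x : ℝ) ^ (η₁ / 16) * ((x : ℝ) ^ 2 / (S * q))) := by
              push_cast
              field_simp
          _ ≤ KL * L ^ cL * W := by
              apply mul_le_mul_of_nonneg_left h2
              exact mul_nonneg hKL.le (pow_nonneg hL0 _)
      have h5 : L ^ cL ≤ L ^ (cA + cS + cL) := pow_le_pow_right₀ hL1 (by omega)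
      calc (g : ℝ) * S * EC (g * q) S X₁ X₂ ≤ KL * L ^ cL * W := h3
        _ ≤ KL * L ^ (cA + cS + cL) * W := by gcongr
        _ ≤ (2 * KS + KL) * L ^ (cA + cS + cL) * W := by
            apply mul_le_mul_of_nonneg_right _ hW0
            apply mul_le_mul_of_nonneg_right _ (pow_nonneg hL0 _)
            linarith
  -- the count
  set U : ℝ := (s : ℝ) * x + x * (X₁ + X₂) / q with hU
  have hU0 : 0 ≤ U := by positivity
  have hN : (g : ℝ) * (s₁ * s₂) * N4 (g * q) s₁ s₂ X₁ X₂ ≤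
      (KA + 2 * KS + KL) * L ^ (cA + cS + cL) * (U + W) := by
    have h1 := hA' x (g * q) s₁ s₂ X₁ X₂ hx (Nat.mul_pos hg hq) hs₁ hs₂ hco hdv hX
    have hSR : ((s₁ : ℝ) * s₂) = S := by rw [hSdef]; push_cast; ring
    rw [hSR]
    have h5 : L ^ cA ≤ L ^ (cA + cS + cL) := pow_le_pow_right₀ hL1 (by omega)
    calc (g : ℝ) * S * N4 (g * q) s₁ s₂ X₁ X₂ ≤ (g : ℝ) * S * (KA * L ^ cA *
          ((x : ℝ) + x * (X₁ + X₂) / ((s₁ * s₂ : ℕ) * (g * q : ℕ))) + EC (g * q) (s₁ * s₂) X₁ X₂) :=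
          mul_le_mul_of_nonneg_left h1 (by positivity)
      _ = KA * L ^ cA * U + (g : ℝ) * S * EC (g * q) S X₁ X₂ := by
          rw [← hSdef, hU, hsSR]
          push_cast
          field_simp
      _ ≤ KA * L ^ (cA + cS + cL) * U + (2 * KS + KL) * L ^ (cA + cS + cL) * W := by
          apply add_le_add _ hEC
          gcongr
      _ ≤ (KA + 2 * KS + KL) * L ^ (cA + cS + cL) * (U + W) := by
          have hP : 0 ≤ L ^ (cA + cS + cL) := pow_nonneg hL0 _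
          have a1 : 0 ≤ KA * (L ^ (cA + cS + cL) * W) := by positivity
          have a2 : 0 ≤ (2 * KS + KL) * (L ^ (cA + cS + cL) * U) := by positivity
          nlinarith
  -- removing the small phase
  have hbs : IsCoprime b ((g * s₁ * s₂ : ℕ) : ℤ) := by rw [← hs_eq]; exact hb
  set α₀ : ℝ := (b : ℝ) / ((g * s₁ * s₂ : ℕ) * q) with hα₀
  have hγ : |α - α₀| * (X₁ * X₂) ≤ 1 := by
    have h1 : (q : ℝ) * (α - α₀) = q * α - b / s := by
      rw [hα₀, ← hs_eq]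
      field_simp
    have h2 : (q : ℝ) * |α - α₀| ≤ q / x := by
      have : (q : ℝ) * |α - α₀| = |q * α - b / s| := by
        rw [← h1, abs_mul, abs_of_pos hq0]
      rw [this]
      exact hα
    have h3 : |α - α₀| ≤ 1 / x := by
      rw [le_div_iff₀ hx0]
      rw [le_div_iff₀ hx0] at h2
      nlinarith
    have h4 : ((X₁ : ℝ) * X₂) ≤ x := by exact_mod_cast hX
    calc |α - α₀| * (X₁ * X₂) ≤ 1 / x * x := mul_le_mul h3 h4 (by positivity) (by positivity)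
      _ = 1 := by field_simp
  have hpert := box_pert q X₁ X₂ A B α₀ (α - α₀)
    ((KA + 2 * KS + KL) * L ^ (cA + cS + cL) * (U + W)) hγ (by positivity)
    (fun t => (box_t q g s₁ s₂ hq hg hs₁ hs₂ hco hdv hgq b hbs X₁ X₂ A B hA hB hAq hBq t).trans hN)
  have e0 : α₀ + (α - α₀) = α := by ring
  rw [e0] at hpert
  refine hpert.trans (le_of_eq ?_)
  ring

end Pool.Agent.HN
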