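import Pool.Agent.Work.MP_92f640_nt.HN.MinorII
import Pool.Agent.Work.MP_92f640_nt.HS.CtlMinor

/-! # Module CtlMinorN: controlled functions on the minor arcs

As HS/CtlMinor: type I part `CtlMinor.partI` (`VV_le`), type II part `minor_II` for each `j`, Cauchy over `j < J`, error `CtlMinor.trivial_le`. (`VV (f₁ + f₂ + f₃) ≤ 3 ∑ VV f_i`.) -/

namespace Pool.Agent.HN

open Finset Pool.Agent.BV Pool.Agent.HL Pool.Agent.HS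
open Pool.Agent.HT.IIMinor (one_le_log sq_sum_le)

namespace CtlMinorN

lemma VV_congr {q y : ℕ} {f g : ℕ → ℂ} (α : ℝ) (h : ∀ n, 1 ≤ n → n ≤ y → f n = g n) :
    VV q y f α = VV q y g α := by
  unfold VV
  refine sum_congr rfl fun a _ => ?_
  congr 2
  refine sum_congr rfl fun n hn => ?_
  obtain ⟨hn1, _⟩ := mem_filter.mp hn
  obtain ⟨h1, h2⟩ := mem_Icc.mp hn1
  rw [h n h1 h2]

lemma norm3_sq (a b c : ℂ) : ‖a + b + c‖ ^ 2 ≤ 3 * (‖a‖ ^ 2 + ‖b‖ ^ 2 + ‖c‖ ^ 2) := by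
  have b1 : ‖a + b + c‖ ≤ ‖a‖ + ‖b‖ + ‖c‖ :=
    (norm_add_le _ _).trans (add_le_add_left (norm_add_le _ _) _)
  have b2 := pow_le_pow_left₀ (norm_nonneg _) b1 2
  nlinarith [sq_nonneg (‖a‖ - ‖b‖), sq_nonneg (‖a‖ - ‖c‖), sq_nonneg (‖b‖ - ‖c‖)]

lemma VV_add3 (q y : ℕ) (f g h : ℕ → ℂ) (α : ℝ) :
    VV q y (fun n => f n + g n + h n) α ≤ 3 * (VV q y f α + VV q y g α + VV q y h α) := by
  unfold VV
  rw [← sum_add_distrib, ← sum_add_distrib, mul_sum]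
  refine sum_le_sum fun a _ => ?_
  have h1 : ∑ n ∈ (Icc 1 y).filter (fun n => n % q = a), (f n + g n + h n) * e (n * α) =
      ∑ n ∈ (Icc 1 y).filter (fun n => n % q = a), f n * e (n * α) +
      ∑ n ∈ (Icc 1 y).filter (fun n => n % q = a), g n * e (n * α) +
      ∑ n ∈ (Icc 1 y).filter (fun n => n % q = a), h n * e (n * α) := by
    rw [← sum_add_distrib, ← sum_add_distrib]
    exact sum_congr rfl fun n _ => by ring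
  rw [h1]
  exact norm3_sq _ _ _

lemma VV_sum (q y J : ℕ) (g : ℕ → ℕ → ℂ) (α : ℝ) :
    VV q y (fun n => ∑ j ∈ range J, g j n) α ≤ J * ∑ j ∈ range J, VV q y (g j) α := by
  unfold VV
  rw [sum_comm, mul_sum]
  refine sum_le_sum fun a _ => ?_
  have h1 : ∑ n ∈ (Icc 1 y).filter (fun n => n % q = a), (∑ j ∈ range J, g j n) * e (n * α) =
      ∑ j ∈ range J, ∑ n ∈ (Icc 1 y).filter (fun n => n % q = a), g j n * e (n * α) := by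
    rw [sum_comm]
    exact sum_congr rfl fun n _ => by rw [sum_mul]
  rw [h1]
  have h2 := sq_sum_le (range J)
    (fun j => ∑ n ∈ (Icc 1 y).filter (fun n => n % q = a), g j n * e (n * α))
  rwa [card_range] at h2

lemma FA_mul {q : ℕ} {φ : ℕ → ℂ} (hφ : Tw q φ) (f : ℕ → ℝ) (n : ℕ) :
    FA q f n * φ n = ((f n : ℝ) : ℂ) * φ n := by
  unfold FA
  split_ifs with h
  · rfl
  · rw [hφ.cop n h]
    simp

lemma VV_FA_le {q y : ℕ} (hq : 1 ≤ q) (f : ℕ → ℝ) (α K : ℝ) (hK : 0 ≤ K)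
    (h : ∀ φ, Tw q φ → ‖∑ n ∈ Icc 1 y, ((f n : ℝ) : ℂ) * (φ n * e (n * α))‖ ^ 2 ≤ K) :
    VV q y (FA q f) α ≤ K := by
  have h1 : VV q y (FA q f) α ≤ (Real.sqrt K) ^ 2 := by
    refine VV_le q y hq (FA q f) (fun n hn => by unfold FA; rw [if_neg hn]) α _
      (Real.sqrt_nonneg _) ?_
    intro φ hφ
    refine Real.le_sqrt_of_sq_le ?_
    have h2 : ∑ n ∈ Icc 1 y, FA q f n * φ n * e (n * α) =
        ∑ n ∈ Icc 1 y, ((f n : ℝ) : ℂ) * (φ n * e (n * α)) := by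
      refine sum_congr rfl fun n _ => ?_
      rw [FA_mul hφ, mul_assoc]
    rw [h2]
    exact h φ hφ
  rwa [Real.sq_sqrt hK] at h1

lemma FA_split {x D w₁ w₂ J : ℕ} {A B : ℕ → ℕ → ℝ} {β err f : ℕ → ℝ}
    (h : Ctl x D w₁ w₂ J A B β err f) (q : ℕ) {n : ℕ} (h1 : 1 ≤ n) (h2 : n ≤ x) :
    FA q f n = FA q (fun n => ∑ m ∈ n.divisors, β m) n +
      ∑ j ∈ range J, FA q (fun n => ∑ p ∈ n.divisorsAntidiagonal, A j p.1 * B j p.2) n +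
      FA q err n := by
  unfold FA
  split_ifs
  · rw [h.eq n h1 h2]
    push_cast
    rfl
  · simp

end CtlMinorN

open CtlMinorN

theorem ctl_minorN (η₁ : ℝ) (hη₁ : 0 < η₁) : ∃ (C : ℝ) (c : ℕ), 0 < C ∧ ∀ (x y q s D w₁ w₂ J : ℕ)
    (A B : ℕ → ℕ → ℝ) (β err f : ℕ → ℝ) (M α η : ℝ) (b : ℤ), Ctl x D w₁ w₂ J A B β err f →
    ∑ n ∈ Icc 1 x, (err n) ^ 2 ≤ M → 3 ≤ y → y ≤ x → 1 ≤ q → (q : ℝ) ≤ (x : ℝ) ^ (1 - η₁) →
    1 ≤ w₁ → w₁ ≤ w₂ → w₂ ≤ x → D ≤ x → 1 ≤ s → q * s ≤ y → IsCoprime b (s : ℤ) →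
    |q * α - b / s| ≤ 1 / (s : ℝ) ^ 2 → |q * α - b / s| ≤ (q : ℝ) / x → 0 < η → η ≤ 1 →
    2 ≤ η * w₁ → (q : ℝ) ≤ η * x →
    VV q y (FA q f) α ≤ C * (Real.log x) ^ c *
      (((x : ℝ) ^ 2 / q) * (1 / s + q * s / x + q * D ^ 2 / x ^ 2) +
        (J : ℝ) ^ 2 * (1 / η ^ 2 * ((s : ℝ) * x + (x : ℝ) ^ 2 / (q * w₁) + (x : ℝ) * w₂ / q +
          (x : ℝ) ^ 2 / (q * (s : ℝ) ^ (1 / 4 : ℝ))) + (x : ℝ) ^ 2 / q * Real.sqrt η) +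
        (x / q + 1) * M) := by
  obtain ⟨C₁, hC₁, hI⟩ := typeIG
  obtain ⟨C₂, c₂, hC₂, hII⟩ := minor_II η₁ hη₁
  refine ⟨9 * C₁ ^ 2 + 3 * C₂ + 3, 6 + c₂, by positivity, ?_⟩
  intro x y q s D w₁ w₂ J A B β err f M α η b hctl hM hy hyx hq hqx hw₁ hw₁₂ hw₂ hDx hs hqs hbs
    hα hα' hη hη1 hηw hqη
  have hx : 3 ≤ x := hy.trans hyx
  have hL := one_le_log hx
  have hq0 : (0 : ℝ) < q := by exact_mod_cast hq
  have hs0 : (0 : ℝ) < s := by exact_mod_cast hs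
  have hx0 : (0 : ℝ) < x := by exact_mod_cast (by omega : 0 < x)
  have hw0 : (0 : ℝ) < w₁ := by exact_mod_cast hw₁
  have hM0 : 0 ≤ M := (sum_nonneg fun _ _ => sq_nonneg _).trans hM
  have hsx : s ≤ x := (le_trans (Nat.le_mul_of_pos_left _ hq) hqs).trans hyx
  set T₁ := ((x : ℝ) ^ 2 / q) * (1 / s + q * s / x + q * D ^ 2 / x ^ 2) with hT₁
  set T₂ := 1 / η ^ 2 * ((s : ℝ) * x + (x : ℝ) ^ 2 / (q * w₁) + (x : ℝ) * w₂ / q +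
          (x : ℝ) ^ 2 / (q * (s : ℝ) ^ (1 / 4 : ℝ))) + (x : ℝ) ^ 2 / q * Real.sqrt η with hT₂
  have hT₁0 : 0 ≤ T₁ := by positivity
  have hT₂0 : 0 ≤ T₂ := by positivity
  set L := Real.log x with hLdef
  -- type I
  have a1 : VV q y (FA q (fun n => ∑ m ∈ n.divisors, β m)) α ≤ 3 * C₁ ^ 2 * L ^ 6 * T₁ := by
    refine VV_FA_le hq _ α _ (by positivity) ?_
    intro φ hφ
    exact CtlMinor.partI hC₁ hI hctl.hβ hctl.hβD hy hyx hq hqs hφ hs hbs hα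
  -- error
  have a3 : VV q y (FA q err) α ≤ M * (x / q + 1) := by
    refine VV_FA_le hq _ α _ (by positivity) ?_
    intro φ hφ
    have a4 := CtlMinor.trivial_le hq hφ y α (fun n => ((err n : ℝ) : ℂ)) M (by
      refine le_trans ?_ hM
      calc ∑ n ∈ Icc 1 y, ‖((err n : ℝ) : ℂ)‖ ^ 2 = ∑ n ∈ Icc 1 y, (err n) ^ 2 := by
            refine sum_congr rfl fun n _ => ?_
            rw [Complex.norm_real, Real.norm_eq_abs, sq_abs]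
        _ ≤ _ := sum_le_sum_of_subset_of_nonneg (Icc_subset_Icc_right hyx)
            (fun _ _ _ => sq_nonneg _))
    refine a4.trans ?_
    have : (y : ℝ) ≤ x := by exact_mod_cast hyx
    gcongr
  -- type II
  have a2 : VV q y (fun n => ∑ j ∈ range J,
      FA q (fun n => ∑ p ∈ n.divisorsAntidiagonal, A j p.1 * B j p.2) n) α ≤
      (J : ℝ) ^ 2 * (C₂ * L ^ c₂ * T₂) := by
    refine (VV_sum q y J (fun j => FA q (fun n => ∑ p ∈ n.divisorsAntidiagonal,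
      A j p.1 * B j p.2)) α).trans ?_
    calc (J : ℝ) * ∑ j ∈ range J, VV q y (FA q (fun n => ∑ p ∈ n.divisorsAntidiagonal,
          A j p.1 * B j p.2)) α ≤ J * ∑ _j ∈ range J, C₂ * L ^ c₂ * T₂ := by
          refine mul_le_mul_of_nonneg_left (sum_le_sum fun j _ => ?_) (Nat.cast_nonneg _)
          exact hII x y q s w₁ w₂ (A j) (B j) α η b hx hyx hq hqx hw₁ hw₁₂ hw₂ (hctl.hA j)
            (hctl.hAs j) (hctl.hB j) hs hsx hbs hα' hη hη1 hηw hqη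
      _ = _ := by
          rw [sum_const, card_range, nsmul_eq_mul]
          ring
  have h1 : VV q y (FA q f) α ≤ 3 * (3 * C₁ ^ 2 * L ^ 6 * T₁ +
      (J : ℝ) ^ 2 * (C₂ * L ^ c₂ * T₂) + M * (x / q + 1)) := by
    rw [VV_congr α (fun n h1 h2 => FA_split hctl q h1 (h2.trans hyx))]
    refine (VV_add3 q y _ _ _ α).trans ?_
    linarith
  refine h1.trans ?_
  set N := (J : ℝ) ^ 2 * T₂ with hN
  have hN0 : 0 ≤ N := by positivity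
  set E := ((x : ℝ) / q + 1) * M with hE
  have hE0 : 0 ≤ E := by positivity
  have hL0 : 0 ≤ L := by linarith
  have hL6 : L ^ 6 ≤ L ^ (6 + c₂) := pow_le_pow_right₀ hL (by omega)
  have hLc : L ^ c₂ ≤ L ^ (6 + c₂) := pow_le_pow_right₀ hL (by omega)
  have hL1 : 1 ≤ L ^ (6 + c₂) := one_le_pow₀ hL
  have hP0 : 0 ≤ L ^ (6 + c₂) := by positivity
  have g1 : L ^ 6 * T₁ ≤ L ^ (6 + c₂) * T₁ := mul_le_mul_of_nonneg_right hL6 hT₁0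
  have g2 : L ^ c₂ * N ≤ L ^ (6 + c₂) * N := mul_le_mul_of_nonneg_right hLc hN0
  have g3 : E ≤ L ^ (6 + c₂) * E := le_mul_of_one_le_left hE0 hL1
  have p1 : 0 ≤ L ^ (6 + c₂) * T₁ := mul_nonneg hP0 hT₁0
  have p2 : 0 ≤ L ^ (6 + c₂) * N := mul_nonneg hP0 hN0
  have p3 : 0 ≤ L ^ (6 + c₂) * E := mul_nonneg hP0 hE0
  have q1 : 0 ≤ C₁ ^ 2 * (L ^ (6 + c₂) * N) := mul_nonneg (sq_nonneg _) p2
  have q2 : 0 ≤ C₁ ^ 2 * (L ^ (6 + c₂) * E) := mul_nonneg (sq_nonneg _) p3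
  have q3 : 0 ≤ C₂ * (L ^ (6 + c₂) * T₁) := mul_nonneg hC₂.le p1
  have q4 : 0 ≤ C₂ * (L ^ (6 + c₂) * E) := mul_nonneg hC₂.le p3
  have r1 : C₁ ^ 2 * (L ^ 6 * T₁) ≤ C₁ ^ 2 * (L ^ (6 + c₂) * T₁) :=
    mul_le_mul_of_nonneg_left g1 (sq_nonneg _)
  have r2 : C₂ * (L ^ c₂ * N) ≤ C₂ * (L ^ (6 + c₂) * N) := mul_le_mul_of_nonneg_left g2 hC₂.le
  have e1 : 3 * (3 * C₁ ^ 2 * L ^ 6 * T₁ + (J : ℝ) ^ 2 * (C₂ * L ^ c₂ * T₂) +
      M * (x / q + 1)) = 9 * (C₁ ^ 2 * (L ^ 6 * T₁)) + 3 * (C₂ * (L ^ c₂ * N)) + 3 * E := by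
    rw [hN, hE]
    ring
  have e2 : (9 * C₁ ^ 2 + 3 * C₂ + 3) * L ^ (6 + c₂) * (T₁ + N + E) =
      9 * (C₁ ^ 2 * (L ^ (6 + c₂) * T₁)) + 9 * (C₁ ^ 2 * (L ^ (6 + c₂) * N)) +
      9 * (C₁ ^ 2 * (L ^ (6 + c₂) * E)) + 3 * (C₂ * (L ^ (6 + c₂) * T₁)) +
      3 * (C₂ * (L ^ (6 + c₂) * N)) + 3 * (C₂ * (L ^ (6 + c₂) * E)) +
      3 * (L ^ (6 + c₂) * T₁) + 3 * (L ^ (6 + c₂) * N) + 3 * (L ^ (6 + c₂) * E) := by
    ring
  rw [e1, e2]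
  linarith

end Pool.Agent.HN
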