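import Pool.Agent.Work.MP_92f640_nt.HS.Defs

/-! # Range `q ≤ x^(10/11-ε)`: definitions (plan note of helper55, 10:40, on MP_92f640_nt)

Sifting limit `z = x^(2/11) = zx (9/11) x`, level `x^(6/11)`. -/

namespace Pool.Agent.HN

open Finset Pool.Agent.BV Pool.Agent.HL Pool.Agent.HS

noncomputable section

/-- the bilinear sum over the residue classes mod `m` -/
def VB (m : ℕ) (X Y : Finset ℕ) (A B : ℕ → ℂ) (α : ℝ) : ℝ :=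
  ∑ a ∈ range m, ‖∑ c ∈ X, ∑ l ∈ Y, if (c * l) % m = a then A c * B l * e ((c * l : ℕ) * α) else 0‖ ^ 2

/-- integers in `[1, X]` coprime to `m` -/
def Cop (m X : ℕ) : Finset ℕ := (Icc 1 X).filter (fun c => c.Coprime m)

/-- the number of solutions of the three congruences, weighted by `τ(l₂)⁴` -/
def N4 (m s₁ s₂ X₁ X₂ : ℕ) : ℝ :=
  ∑ c₁ ∈ Cop m X₁, ∑ c₂ ∈ Cop m X₁, ∑ l₁ ∈ Cop m X₂, ∑ l₂ ∈ Cop m X₂,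
    if c₁ ≡ c₂ [MOD s₁ * s₂] ∧ l₁ ≡ l₂ [MOD s₁ * s₂] ∧ c₁ * l₁ ≡ c₂ * l₂ [MOD s₂ * m] then
      (l₂.divisors.card : ℝ) ^ 4 else 0

/-- integers `i ≠ 0`, `|i| ≤ N` -/
def Nz (N : ℕ) : Finset ℤ := (Icc (-(N : ℤ)) N).filter (fun i => i ≠ 0)

open Classical in
/-- the essential part of the count: `m ∣ j c - i l ≠ 0`, `1 ≤ |i| ≤ X₁/S`, `1 ≤ |j| ≤ X₂/S` -/
def EC (m S X₁ X₂ : ℕ) : ℝ :=
  ∑ l ∈ Cop m X₂, (l.divisors.card : ℝ) ^ 4 * ∑ i ∈ Nz (X₁ / S),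
    (((Nz (X₂ / S) ×ˢ Icc 1 X₁).filter (fun p : ℤ × ℕ =>
      p.1 * (p.2 : ℤ) ≠ i * (l : ℤ) ∧ (m : ℤ) ∣ p.1 * (p.2 : ℤ) - i * (l : ℤ))).card : ℝ)

/-- admissible weights: `z = x^(2/11)`, level `x^(6/11)`, minorant of the primes, density `≥ c₀ / log` -/
structure AdmN (c₀ V0 : ℝ) (x : ℕ) (cc : ℕ → ℝ) (E : ℕ → ℕ → ℝ) : Prop where
  wt : Wt (zx (9 / 11) x) ⌈(x : ℝ) ^ (6 / 11 : ℝ)⌉₊ cc
  wte : WtE (zx (9 / 11) x) V0 cc E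
  minor : ∀ n : ℕ, x / 8 < n → n ≤ x → aa cc (zx (9 / 11) x) n ≤ if n.Prime then 1 else 0
  dens : ∀ n : ℕ, x / 8 < n → n ≤ x → c₀ ≤ KK cc E (zx (9 / 11) x) n

/-- existence of admissible weights for all large `x` -/
def VLowN (c₀ V0 : ℝ) : Prop := ∃ x₁ : ℕ, ∀ x : ℕ, x₁ ≤ x → ∃ (cc : ℕ → ℝ) (E : ℕ → ℕ → ℝ),
  AdmN c₀ V0 x cc E

end

end Pool.Agent.HN
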