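import Pool.Agent.Work.MP_92f640_nt.HN.SupN
import Pool.Agent.Work.MP_92f640_nt.HS.FinalS

/-! # Module FinalN

Copy of `main_natS`, `level_theta` (HS/FinalS): `θ = 10/11` for `q` (`bsetF (10/11) κ ε (B' + 2) (B₁ + 1) B9`), `zx (9/11) x`, `dens (9/11) V0`, `κ = min (ε/8) (1/100)`, `sup_N`. -/

namespace Pool.Agent.HN

open Finset Pool.Agent.BV Pool.Agent.HL Pool.Agent.HS

open Classical in
theorem main_natN (c₀ V0 : ℝ) (hc : 0 < c₀) (hV0 : 0 ≤ V0)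
    (hv : VLowN c₀ V0) (ε : ℝ) (hε : 0 < ε) (K : ℕ) : ∃ C : ℕ, ∀ A : ℕ, ∃ x₁ : ℕ, ∀ x : ℕ, x₁ ≤ x →
    ∃ B : Finset ℕ, (B.card : ℝ) ≤ (Real.log x) ^ C ∧ (∀ b ∈ B, (Real.log x) ^ A < (b : ℝ)) ∧
      ∀ q : ℕ, 1 ≤ q → (q : ℝ) ≤ (x : ℝ) ^ (10 / 11 - ε) → (∀ b ∈ B, ¬ b ∣ q) →
        (((Icc 1 x).filter (fun n => x < 2 * n ∧ Even n ∧ q ∣ n ∧
          Pool.Agent.Work.MP_92f640_nt.Bad (c₀ / 4) n)).card : ℝ) ≤
          (x : ℝ) / (q * (Real.log x) ^ K) := by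
  obtain ⟨V, hVp, hdens⟩ := dens (9 / 11) V0 (by norm_num) (by norm_num) hV0
  set κ : ℝ := min (ε / 8) (1 / 100) with hκdef
  have hκ : 0 < κ := by
    rw [hκdef]
    exact lt_min (by linarith) (by norm_num)
  have hκ1 : κ ≤ 1 / 100 := min_le_right _ _
  have hκε : 8 * κ ≤ ε := by
    have : κ ≤ ε / 8 := min_le_left _ _
    linarith
  obtain ⟨B₁, B', B9, BD, hB₁, hsup⟩ := sup_N κ ε V hκ hκ1 hε hκε hVp (2 * K + 8)
  obtain ⟨C, hbset⟩ := bsetF (10 / 11) κ ε (by norm_num) hκ hε (B' + 2) (B₁ + 1) B9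
  obtain ⟨C₂, hC₂, hsing⟩ := sing
  obtain ⟨xd, hxd⟩ := hdens BD
  obtain ⟨xt, hxt⟩ := tl_main (B₁ + 1) 2 V hVp
  obtain ⟨xv, hxv⟩ := hv
  refine ⟨C, fun A => ?_⟩
  obtain ⟨x₁, hx₁⟩ := hsup (A + (B₁ + 1) + 1)
  obtain ⟨x₂, hx₂⟩ := hbset A
  have hev : ∀ᶠ x : ℕ in Filter.atTop, 20000 / c₀ ^ 2 ≤ (Real.log x) ^ 4 ∧
      4 * C₂ ≤ (Real.log x) ^ 3 ∧ 4 ≤ Real.log x ∧ 100 ≤ c₀ * Real.log x ∧
      400 * (Real.log x) ^ 2 * Real.sqrt x ≤ c₀ * x ∧ wk κ x * zx (9 / 11) x ≤ x ∧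
      200 ≤ x ∧ x₁ ≤ x ∧ x₂ ≤ x ∧ xd ≤ x ∧ xt ≤ x ∧ xv ≤ x := by
    filter_upwards [ev_log_ge 4 (by norm_num) (20000 / c₀ ^ 2),
      ev_log_ge 3 (by norm_num) (4 * C₂), evt_log 4, evt_log (100 / c₀), ev_pow_log 2 (400 / c₀),
      ev_wz (9 / 11) κ (by norm_num) (by linarith) hκ, Filter.eventually_ge_atTop 200, Filter.eventually_ge_atTop x₁,
      Filter.eventually_ge_atTop x₂, Filter.eventually_ge_atTop xd, Filter.eventually_ge_atTop xt,
      Filter.eventually_ge_atTop xv] with x a1 a2 a3 a4 a5 a6 a7 a8 a9 a10 a11 a12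
    refine ⟨a1, a2, a3, ?_, ?_, a6, a7, a8, a9, a10, a11, a12⟩
    · rw [div_le_iff₀ hc] at a4
      linarith
    · have h1 := mul_le_mul_of_nonneg_left a5 hc.le
      have h2 : c₀ * (400 / c₀ * Real.log x ^ 2 * Real.sqrt x) =
          400 * (Real.log x) ^ 2 * Real.sqrt x := by
        field_simp
      rw [h2] at h1
      exact h1
  obtain ⟨x₀, hx₀⟩ := Filter.eventually_atTop.1 hev
  refine ⟨x₀, fun x hx => ?_⟩
  obtain ⟨c1, c2, c3, c4, c5, c6, c7, hxx1, hxx2, hxxd, hxxt, hxxv⟩ := hx₀ x hx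
  have h3 : 3 ≤ x := by omega
  have hL := one_le_log h3
  set L := Real.log x with hLdef
  have hx0 : (0 : ℝ) < x := by exact_mod_cast (by omega : 0 < x)
  have hx1 : (1 : ℝ) ≤ x := by exact_mod_cast (by omega : 1 ≤ x)
  have hJ : (JJ x B' : ℝ) ≤ L ^ (B' + 2) := by
    unfold JJ
    have b1 := Nat.ceil_lt_add_one (by positivity : 0 ≤ 2 * L ^ (B' + 1))
    have b2 : 1 ≤ L ^ (B' + 1) := one_le_pow₀ hL
    have b3 : L ^ (B' + 2) = L * L ^ (B' + 1) := by ring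
    rw [b3]
    have b4 : 4 * L ^ (B' + 1) ≤ L * L ^ (B' + 1) := mul_le_mul_of_nonneg_right c3 (by positivity)
    linarith
  obtain ⟨B, hB1, hB2, hB3⟩ := hx₂ x hxx2 (wk κ x * zx (9 / 11) x) (JJ x B')
    (AJ (y0 x) (zx (9 / 11) x) (wk κ x) (1 / (Real.log x) ^ B')) (fun j c => abs_AJ_le _ _ _ _ j c) c6 hJ
  refine ⟨B, hB1, hB2, fun q hq hqx hqB => ?_⟩
  obtain ⟨cc, E, hadm⟩ := hxv x hxxv
  obtain ⟨hvb, hvd⟩ := hxd x hxxd _ cc E hadm.wt hadm.wte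
  set v : ℕ → ℝ := cut x (fun n => KK cc E (zx (9 / 11) x) n / Real.log n) with hvdef
  have hV := hx₁ x hxx1 q hq hqx (hB3 q hq hqx hqB) cc v hadm.wt hvb hvd
  set Q := ⌈L ^ B₁⌉₊ with hQdef
  have hq0 : (0 : ℝ) < q := by exact_mod_cast hq
  have hLB : 1 ≤ L ^ B₁ := one_le_pow₀ hL
  have hQle : (Q : ℝ) ≤ 2 * L ^ B₁ := by
    have := Nat.ceil_lt_add_one (by positivity : 0 ≤ L ^ B₁)
    linarith
  have hQge : L ^ B₁ ≤ (Q : ℝ) := Nat.le_ceil _
  have hQ1 : 1 ≤ Q := by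
    have : (1 : ℝ) ≤ Q := hLB.trans hQge
    exact_mod_cast this
  have hQB : (Q : ℝ) ≤ L ^ (B₁ + 1) := by
    refine hQle.trans ?_
    rw [pow_succ, mul_comm (L ^ B₁)]
    exact mul_le_mul_of_nonneg_right (by linarith) (by positivity)
  have hqx' : q ≤ x := by
    have h1 : (q : ℝ) ≤ x := by
      refine hqx.trans ?_
      calc (x : ℝ) ^ (10 / 11 - ε) ≤ (x : ℝ) ^ (1 : ℝ) :=
            Real.rpow_le_rpow_of_exponent_le hx1 (by linarith)
        _ = x := Real.rpow_one _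
    exact_mod_cast h1
  have hlogq : Real.log q ≤ L := Real.log_le_log hq0 (by exact_mod_cast hqx')
  have hE1 := count_bigS q x (2 * K + 8) _ (c₀ / 100) (by positivity) h3 hq hV
  have hE2 := hsing q Q (x / q) hq hQ1
  set D : ℕ → ℝ := fun m => ‖cv (fun n => FA q (cut x (aa cc (zx (9 / 11) x))) n - ((v n : ℝ) : ℂ) * TM q Q n)
    (FL q) (q * m)‖ with hD
  set E1 := (Icc 1 (x / q)).filter (fun m => c₀ / 100 * x / L ≤ D m) with hE1def
  set E2 := (Icc 1 (x / q)).filter (fun m => Even (q * m) ∧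
    (q : ℝ) / q.totient * Sg q Q m < 4 / 5) with hE2def
  have hsub : (Icc 1 x).filter (fun n => x < 2 * n ∧ Even n ∧ q ∣ n ∧
          Pool.Agent.Work.MP_92f640_nt.Bad (c₀ / 4) n) ⊆ (E1 ∪ E2).image (fun m => q * m) := by
    intro n hn
    rw [mem_filter, mem_Icc] at hn
    obtain ⟨⟨hn1, hnx⟩, hx2, hev', ⟨m, rfl⟩, hbad⟩ := hn
    have hm : 1 ≤ m := by
      rcases Nat.eq_zero_or_pos m with h | h
      · subst h; simp at hn1
      · exact h
    have hmx : m ≤ x / q := by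
      rw [Nat.le_div_iff_mul_le hq, mul_comm]
      exact hnx
    rw [mem_image]
    refine ⟨m, ?_, rfl⟩
    rw [mem_union]
    by_contra hcon
    push Not at hcon
    obtain ⟨k1, k2⟩ := hcon
    rw [hE1def, mem_filter, mem_Icc] at k1
    rw [hE2def, mem_filter, mem_Icc] at k2
    have k1' : D m < c₀ / 100 * x / L := by
      by_contra h
      exact k1 ⟨⟨hm, hmx⟩, not_lt.1 h⟩
    have k2' : 4 / 5 ≤ (q : ℝ) / q.totient * Sg q Q m := by
      by_contra h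
      exact k2 ⟨⟨hm, hmx⟩, hev', not_le.1 h⟩
    have ht := hxt x hxxt q Q m v hq hqx' hQ1 hQB hvb hm hnx
    have hvs := dens_sum_ge c₀ hc x (q * m) (KK cc E (zx (9 / 11) x)) (by omega) hnx hx2 hadm.dens
    exact not_badS c₀ hc q Q m x (aa cc (zx (9 / 11) x)) v hadm.minor (by omega) hnx hx2 k1' k2' ht hvs
      c3 c4 c7 c5 hbad
  have hcard : (((Icc 1 x).filter (fun n => x < 2 * n ∧ Even n ∧ q ∣ n ∧
          Pool.Agent.Work.MP_92f640_nt.Bad (c₀ / 4) n)).card : ℝ) ≤ (E1.card : ℝ) + E2.card := by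
    have := (card_le_card hsub).trans (card_image_le.trans (card_union_le E1 E2))
    exact_mod_cast this
  refine hcard.trans ?_
  have hLK : 0 < L ^ K := by positivity
  have hb1 : (E1.card : ℝ) ≤ 1 / 2 * ((x : ℝ) / (q * L ^ K)) := by
    refine hE1.trans ?_
    have a1 : x * L ^ 4 / ((c₀ / 100) ^ 2 * (q * L ^ (2 * K + 8))) =
        10000 / c₀ ^ 2 * ((x : ℝ) / (q * L ^ K)) / L ^ (K + 4) := by
      have : L ^ (2 * K + 8) = L ^ K * L ^ (K + 4) * L ^ 4 := by ring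
      rw [this]
      have hL0 : L ≠ 0 := by positivity
      field_simp
      ring
    rw [a1, div_le_iff₀ (by positivity)]
    have a2 : L ^ 4 ≤ L ^ (K + 4) := pow_le_pow_right₀ hL (by omega)
    have a3 : 0 ≤ (x : ℝ) / (q * L ^ K) := by positivity
    have a4 : 20000 / c₀ ^ 2 = 2 * (10000 / c₀ ^ 2) := by ring
    have a5 := c1.trans a2
    rw [a4] at a5
    nlinarith [mul_le_mul_of_nonneg_right a5 a3]
  have hb2 : (E2.card : ℝ) ≤ 1 / 2 * ((x : ℝ) / (q * L ^ K)) := by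
    refine hE2.trans ?_
    have a1 : ((x / q : ℕ) : ℝ) ≤ (x : ℝ) / q := Nat.cast_div_le
    have a2 : L ^ (K + 4) ≤ Real.sqrt Q := by
      apply Real.le_sqrt_of_sq_le
      calc (L ^ (K + 4)) ^ 2 = L ^ (2 * K + 8) := by ring
        _ ≤ L ^ B₁ := pow_le_pow_right₀ hL hB₁
        _ ≤ Q := hQge
    have a3 : (0 : ℝ) < L ^ (K + 4) := by positivity
    have hlq0 : 0 ≤ Real.log q := Real.log_nonneg (by exact_mod_cast hq)
    calc C₂ * ((x / q : ℕ) : ℝ) * (1 + Real.log q) / Real.sqrt Q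
        ≤ C₂ * ((x : ℝ) / q) * (2 * L) / L ^ (K + 4) := by
          apply div_le_div₀ (by positivity) _ a3 a2
          have : 1 + Real.log q ≤ 2 * L := by linarith
          gcongr
      _ = (4 * C₂) * (1 / 2 * ((x : ℝ) / (q * L ^ K))) / L ^ 3 := by
          have hL0 : L ≠ 0 := by positivity
          have : L ^ (K + 4) = L ^ K * L ^ 3 * L := by ring
          rw [this]
          field_simp
          ring
      _ ≤ L ^ 3 * (1 / 2 * ((x : ℝ) / (q * L ^ K))) / L ^ 3 := by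
          apply div_le_div_of_nonneg_right _ (by positivity)
          exact mul_le_mul_of_nonneg_right c2 (by positivity)
      _ = _ := by
          rw [mul_comm, mul_div_assoc, div_self (by positivity), mul_one]
  linarith

open Pool.Agent.Work.MP_92f640_nt in
theorem level_N (c₀ V0 : ℝ) (hc : 0 < c₀) (hV0 : 0 ≤ V0) (hv : VLowN c₀ V0) (ε : ℝ) (hε : 0 < ε)
    (K : ℕ) : ∃ C : ℕ, ∀ A : ℕ, ∃ x₁ : ℝ, ∀ x : ℝ, x₁ ≤ x →
    ∃ B : Finset ℕ, (B.card : ℝ) ≤ (Real.log x) ^ C ∧ (∀ b ∈ B, (Real.log x) ^ A < (b : ℝ)) ∧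
      ∀ q : ℕ, 1 ≤ q → (q : ℝ) ≤ x ^ (10 / 11 - ε) → (∀ b ∈ B, ¬ b ∣ q) →
        ((exceptions (c₀ / 4) x q).card : ℝ) ≤ x / (q * (Real.log x) ^ K) := by
  classical
  obtain ⟨C, hC⟩ := main_natN c₀ V0 hc hV0 hv (ε / 2) (by linarith) (K + 1)
  refine ⟨C, fun A => ?_⟩
  obtain ⟨x₁, hx₁⟩ := hC (A + 1)
  have hev : ∀ᶠ X : ℕ in Filter.atTop, (2 : ℝ) ^ K ≤ (Real.log X) ^ 1 ∧
      (2 : ℝ) ^ A ≤ (Real.log X) ^ 1 ∧ 2 ≤ (X : ℝ) ^ (ε / 2) ∧ 3 ≤ X ∧ x₁ ≤ X := by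
    have h1 : ∀ᶠ X : ℕ in Filter.atTop, 2 ≤ (X : ℝ) ^ (ε / 2) :=
      ((tendsto_rpow_atTop (by linarith : (0 : ℝ) < ε / 2)).comp
        tendsto_natCast_atTop_atTop).eventually_ge_atTop _
    filter_upwards [ev_log_ge 1 le_rfl ((2 : ℝ) ^ K), ev_log_ge 1 le_rfl ((2 : ℝ) ^ A), h1,
      Filter.eventually_ge_atTop 3, Filter.eventually_ge_atTop x₁] with X a1 a2 a3 a4 a5
    exact ⟨a1, a2, a3, a4, a5⟩
  obtain ⟨X₀, hX₀⟩ := Filter.eventually_atTop.1 hev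
  refine ⟨X₀ + 1, fun x hx => ?_⟩
  have hx0 : (0 : ℝ) ≤ x := by
    have : (0 : ℝ) ≤ X₀ := Nat.cast_nonneg _
    linarith
  set X := ⌊x⌋₊ with hX
  have hXx : (X : ℝ) ≤ x := Nat.floor_le hx0
  have hxX : x < X + 1 := Nat.lt_floor_add_one x
  have hXX0 : X₀ ≤ X := by
    rw [hX, Nat.le_floor_iff hx0]
    linarith
  obtain ⟨a1, a2, a3, a4, a5⟩ := hX₀ X hXX0
  rw [pow_one] at a1 a2
  have hX3 : (3 : ℝ) ≤ X := by exact_mod_cast a4
  have hX0 : (0 : ℝ) < X := by linarith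
  have hL1 := one_le_log a4
  have hLx : Real.log X ≤ Real.log x := Real.log_le_log hX0 hXx
  have hLx2 : Real.log x ≤ 2 * Real.log X := by
    have h1 : x ≤ (X : ℝ) ^ 2 := by nlinarith
    calc Real.log x ≤ Real.log ((X : ℝ) ^ 2) := Real.log_le_log (by linarith) h1
      _ = 2 * Real.log X := by rw [Real.log_pow]; norm_num
  have hkey : ∀ k : ℕ, (2 : ℝ) ^ k ≤ Real.log X → (Real.log x) ^ k ≤ (Real.log X) ^ (k + 1) := by
    intro k hk
    calc (Real.log x) ^ k ≤ (2 * Real.log X) ^ k := pow_le_pow_left₀ (by linarith) hLx2 k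
      _ = 2 ^ k * (Real.log X) ^ k := by rw [mul_pow]
      _ ≤ Real.log X * (Real.log X) ^ k := mul_le_mul_of_nonneg_right hk (by positivity)
      _ = _ := by ring
  obtain ⟨B, hB1, hB2, hB3⟩ := hx₁ X a5
  refine ⟨B, hB1.trans (pow_le_pow_left₀ (by linarith) hLx C), fun b hb => ?_,
    fun q hq hqx hqB => ?_⟩
  · exact (hkey A a2).trans_lt (hB2 b hb)
  · have hq0 : (0 : ℝ) < q := by exact_mod_cast hq
    have hq1 : (1 : ℝ) ≤ q := by exact_mod_cast hq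
    have hqX : (q : ℝ) ≤ (X : ℝ) ^ (10 / 11 - ε / 2) := by
      rcases lt_or_ge (10 / 11 - ε) 0 with hneg | hpos
      · exfalso
        have : x ^ (10 / 11 - ε) < 1 := Real.rpow_lt_one_of_one_lt_of_neg (by linarith) hneg
        linarith
      · have h2X : x ≤ 2 * X := by linarith
        calc (q : ℝ) ≤ x ^ (10 / 11 - ε) := hqx
          _ ≤ (2 * X) ^ (10 / 11 - ε) := Real.rpow_le_rpow hx0 h2X hpos
          _ = 2 ^ (10 / 11 - ε) * (X : ℝ) ^ (10 / 11 - ε) := Real.mul_rpow (by norm_num) hX0.le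
          _ ≤ (X : ℝ) ^ (ε / 2) * (X : ℝ) ^ (10 / 11 - ε) := by
              apply mul_le_mul_of_nonneg_right _ (by positivity)
              refine le_trans ?_ a3
              calc (2 : ℝ) ^ (10 / 11 - ε) ≤ 2 ^ (1 : ℝ) :=
                    Real.rpow_le_rpow_of_exponent_le (by norm_num) (by linarith)
                _ = 2 := Real.rpow_one 2
          _ = (X : ℝ) ^ (10 / 11 - ε / 2) := by
              rw [← Real.rpow_add hX0]
              congr 1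
              ring
    have hmain := hB3 q hq hqX hqB
    have hsub : exceptions (c₀ / 4) x q ⊆ (Icc 1 X).filter (fun n => X < 2 * n ∧ Even n ∧ q ∣ n ∧
          Bad (c₀ / 4) n) := by
      intro n hn
      rw [mem_exceptions] at hn
      obtain ⟨⟨h1, h2⟩, h3, h4, h5, h6⟩ := hn
      rw [mem_filter, mem_Icc]
      refine ⟨⟨h1, h2⟩, ?_, h4, h5, h6⟩
      have : (X : ℝ) < 2 * n := by linarith
      exact_mod_cast this
    have hcard : ((exceptions (c₀ / 4) x q).card : ℝ) ≤ ((Icc 1 X).filter (fun n => X < 2 * n ∧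
        Even n ∧ q ∣ n ∧ Bad (c₀ / 4) n)).card := by
      exact_mod_cast card_le_card hsub
    refine hcard.trans (hmain.trans ?_)
    have hlx0 : 0 < (Real.log x) ^ K := by
      have : 0 < Real.log x := by linarith
      positivity
    apply div_le_div₀ hx0 hXx (by positivity)
    exact mul_le_mul_of_nonneg_left (hkey K a1) hq0.le

end Pool.Agent.HN
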