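import Pool.Agent.Work.MP_92f640_nt.HN.Defs
import Pool.Agent.Work.MP_92f640_nt.HL.Circle

/-! # Module GCls: the Fourier matrix mod `s₁`

Classes `u` of `c` and `v` of `l` mod `s₁ s₂`, `u = (u₁, u₂)`, `v = (v₁, v₂)` mod `s₁`, `s₂` (coprime). The condition `c l ≡ r (s₂)` is `u₂ v₂ = r`; `u₂` is a unit
(`c` is coprime to `m`, `s₂ ∣ m`), so `v₂ = r/u₂` (if `r` is not a unit the sum is `0`). For fixed `u₂`: `|∑_{u₁,v₁} A_u B_v e(u₁ v₁ b₁/s₁)|² ≤ s₁ ∑_{u₁} |A_u|² ∑_{v₁} |B_v|²`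
(`gaussLS_parseval`, `b₁` is a unit mod `s₁`), then Cauchy over `u₂`. -/

namespace Pool.Agent.HN

open Finset Pool.Agent.BV Pool.Agent.HL

/-- `e` has period `1` -/
private theorem gc_e (x y : ℝ) (z : ℤ) (h : x = y + z) : e x = e y := by
  rw [h, add_e_add, add_e_int, mul_one]

/-- Parseval mod `s₁` for a set on which the reduction mod `s₁` is injective -/
private theorem gc_pars (s₁ : ℕ) (hs₁ : 1 ≤ s₁) (b₁ : ℤ) (hb : IsCoprime b₁ (s₁ : ℤ))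
    (V : Finset ℕ) (hV : ∀ v ∈ V, ∀ v' ∈ V, v % s₁ = v' % s₁ → v = v') (b : ℕ → ℂ) :
    ∑ j ∈ range s₁, ‖∑ v ∈ V, b v * e ((j * v : ℕ) * ((b₁ : ℝ) / s₁))‖ ^ 2 =
      s₁ * ∑ v ∈ V, ‖b v‖ ^ 2 := by
  have : NeZero s₁ := ⟨by omega⟩
  have hs0 : (0 : ℤ) < s₁ := by exact_mod_cast hs₁
  have hsR : (0 : ℝ) < s₁ := by exact_mod_cast hs₁
  set u : ℕ → ℕ := fun v => (((v : ℤ) * b₁) % (s₁ : ℤ)).toNat with hu
  have hu1 : ∀ v, ((u v : ℕ) : ℤ) = ((v : ℤ) * b₁) % (s₁ : ℤ) := fun v =>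
    Int.toNat_of_nonneg (Int.emod_nonneg _ hs0.ne')
  have hlt : ∀ v ∈ V, u v < s₁ := by
    intro v _
    have h := Int.emod_lt_of_pos ((v : ℤ) * b₁) hs0
    rw [← hu1 v] at h
    exact_mod_cast h
  have hinj : ∀ v ∈ V, ∀ v' ∈ V, u v = u v' → v = v' := by
    intro v hv v' hv' h
    have h1 : ((v : ℤ) * b₁) % (s₁ : ℤ) = ((v' : ℤ) * b₁) % (s₁ : ℤ) := by
      rw [← hu1 v, ← hu1 v', h]
    have h2 : (s₁ : ℤ) ∣ ((v' : ℤ) * b₁) - ((v : ℤ) * b₁) := Int.modEq_iff_dvd.1 h1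
    have h3 : (s₁ : ℤ) ∣ ((v' : ℤ) - v) * b₁ := by
      have h30 : ((v' : ℤ) - v) * b₁ = ((v' : ℤ) * b₁) - ((v : ℤ) * b₁) := by ring
      rw [h30]
      exact h2
    have h4 : (s₁ : ℤ) ∣ ((v' : ℤ) - v) := (IsCoprime.symm hb).dvd_of_dvd_mul_right h3
    have h5 : (v : ℤ) ≡ v' [ZMOD s₁] := Int.modEq_iff_dvd.2 h4
    have h6 : v ≡ v' [MOD s₁] := (Int.natCast_modEq_iff).1 h5
    exact hV v hv v' hv' h6
  have h1 := circ_parseval (N := s₁) V u hlt hinj b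
  rw [← h1]
  refine sum_congr rfl fun j _ => ?_
  congr 2
  refine sum_congr rfl fun v _ => ?_
  congr 1
  have h3 : (s₁ : ℤ) * (((v : ℤ) * b₁) / s₁) + u v = ((v : ℤ) * b₁) := by
    rw [hu1 v]
    exact Int.mul_ediv_add_emod _ _
  refine gc_e _ _ (j * (((v : ℤ) * b₁) / s₁)) ?_
  have h4 : (s₁ : ℝ) * ((((v : ℤ) * b₁) / s₁ : ℤ) : ℝ) + u v = ((v : ℝ) * b₁) := by
    exact_mod_cast congrArg (fun t : ℤ => (t : ℝ)) h3
  rw [Int.cast_mul, Int.cast_natCast]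
  set q : ℝ := ((((v : ℤ) * b₁) / s₁ : ℤ) : ℝ)
  push_cast
  field_simp
  linear_combination -(j : ℝ) * h4

/-- the operator norm of the Fourier matrix mod `s₁` -/
private theorem gc_L1 (s₁ : ℕ) (hs₁ : 1 ≤ s₁) (b₁ : ℤ) (hb : IsCoprime b₁ (s₁ : ℤ))
    (U V : Finset ℕ) (hU : ∀ u ∈ U, ∀ u' ∈ U, u % s₁ = u' % s₁ → u = u')
    (hV : ∀ v ∈ V, ∀ v' ∈ V, v % s₁ = v' % s₁ → v = v') (a b : ℕ → ℂ) :
    ‖∑ u ∈ U, ∑ v ∈ V, a u * b v * e ((u * v : ℕ) * ((b₁ : ℝ) / s₁))‖ ^ 2 ≤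
      (s₁ * ∑ u ∈ U, ‖a u‖ ^ 2) * ∑ v ∈ V, ‖b v‖ ^ 2 := by
  classical
  have hsR : (0 : ℝ) < s₁ := by exact_mod_cast hs₁
  set W : ℕ → ℂ := fun u => ∑ v ∈ V, b v * e ((u * v : ℕ) * ((b₁ : ℝ) / s₁)) with hW
  have hWp : ∀ u, W u = W (u % s₁) := by
    intro u
    rw [hW]
    simp only
    refine sum_congr rfl fun v _ => ?_
    congr 1
    obtain ⟨q, hq⟩ : ∃ q, s₁ * q + u % s₁ = u := ⟨u / s₁, Nat.div_add_mod u s₁⟩
    refine gc_e _ _ ((q : ℤ) * v * b₁) ?_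
    have hqR : (s₁ : ℝ) * q + ((u % s₁ : ℕ) : ℝ) = u := by exact_mod_cast hq
    set w := u % s₁
    push_cast
    rw [← hqR]
    field_simp
    ring
  have h1 : ∑ u ∈ U, ∑ v ∈ V, a u * b v * e ((u * v : ℕ) * ((b₁ : ℝ) / s₁)) =
      ∑ u ∈ U, a u * W u := by
    refine sum_congr rfl fun u _ => ?_
    rw [hW]
    simp only
    rw [mul_sum]
    exact sum_congr rfl fun v _ => by ring
  have h2 : ∑ u ∈ U, ‖W u‖ ^ 2 ≤ s₁ * ∑ v ∈ V, ‖b v‖ ^ 2 := by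
    rw [← gc_pars s₁ hs₁ b₁ hb V hV b]
    calc ∑ u ∈ U, ‖W u‖ ^ 2 = ∑ u ∈ U, ‖W (u % s₁)‖ ^ 2 :=
          sum_congr rfl fun u _ => by rw [← hWp u]
      _ = ∑ j ∈ U.image (fun u => u % s₁), ‖W j‖ ^ 2 := by
          rw [sum_image]
          intro u hu u' hu' h
          exact hU u hu u' hu' h
      _ ≤ ∑ j ∈ range s₁, ‖W j‖ ^ 2 := by
          refine sum_le_sum_of_subset_of_nonneg ?_ (fun j _ _ => sq_nonneg _)
          intro j hj
          obtain ⟨u, _, rfl⟩ := mem_image.1 hj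
          exact mem_range.2 (Nat.mod_lt _ hs₁)
  rw [h1]
  calc ‖∑ u ∈ U, a u * W u‖ ^ 2 ≤ (∑ u ∈ U, ‖a u‖ * ‖W u‖) ^ 2 := by
        refine pow_le_pow_left₀ (norm_nonneg _) ?_ 2
        refine (norm_sum_le _ _).trans (le_of_eq ?_)
        exact sum_congr rfl fun u _ => norm_mul _ _
    _ ≤ (∑ u ∈ U, ‖a u‖ ^ 2) * ∑ u ∈ U, ‖W u‖ ^ 2 := sum_mul_sq_le_sq_mul_sq _ _ _
    _ ≤ (∑ u ∈ U, ‖a u‖ ^ 2) * (s₁ * ∑ v ∈ V, ‖b v‖ ^ 2) :=
        mul_le_mul_of_nonneg_left h2 (sum_nonneg fun _ _ => sq_nonneg _)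
    _ = (s₁ * ∑ u ∈ U, ‖a u‖ ^ 2) * ∑ v ∈ V, ‖b v‖ ^ 2 := by ring

/-- Cauchy with inequalities -/
private theorem gc_cs {ι : Type*} (S : Finset ι) (x : ι → ℂ) (α β : ι → ℝ)
    (hα : ∀ i ∈ S, 0 ≤ α i) (hβ : ∀ i ∈ S, 0 ≤ β i) (h : ∀ i ∈ S, ‖x i‖ ^ 2 ≤ α i * β i) :
    ‖∑ i ∈ S, x i‖ ^ 2 ≤ (∑ i ∈ S, α i) * ∑ i ∈ S, β i := by
  have h1 : ‖∑ i ∈ S, x i‖ ≤ ∑ i ∈ S, √(α i) * √(β i) := by
    refine (norm_sum_le _ _).trans (sum_le_sum fun i hi => ?_)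
    rw [← Real.sqrt_mul (hα i hi)]
    exact Real.le_sqrt_of_sq_le (h i hi)
  calc ‖∑ i ∈ S, x i‖ ^ 2 ≤ (∑ i ∈ S, √(α i) * √(β i)) ^ 2 :=
        pow_le_pow_left₀ (norm_nonneg _) h1 2
    _ ≤ (∑ i ∈ S, √(α i) ^ 2) * ∑ i ∈ S, √(β i) ^ 2 := sum_mul_sq_le_sq_mul_sq _ _ _
    _ = (∑ i ∈ S, α i) * ∑ i ∈ S, β i := by
        rw [sum_congr rfl fun i hi => Real.sq_sqrt (hα i hi),
          sum_congr rfl fun i hi => Real.sq_sqrt (hβ i hi)]

theorem g_cls (m s₁ s₂ : ℕ) (hm : 1 ≤ m) (hs₁ : 1 ≤ s₁) (hs₂ : 1 ≤ s₂) (h₁ : s₁.Coprime m)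
    (h₂ : s₂ ∣ m) (b₁ : ℤ) (hb : IsCoprime b₁ (s₁ : ℤ)) (X Y : Finset ℕ) (A B : ℕ → ℂ)
    (hX : ∀ c ∈ X, c.Coprime m) (hY : ∀ l ∈ Y, l.Coprime m) (χ : DirichletCharacter ℂ (s₂ * m))
    (r : ℕ) : ‖∑ c ∈ X, ∑ l ∈ Y, if (c * l) % s₂ = r then
      A c * B l * χ ((c * l : ℕ) : ZMod (s₂ * m)) * e ((c * l : ℕ) * ((b₁ : ℝ) / s₁)) else 0‖ ^ 2 ≤
    s₁ * (∑ u ∈ range (s₁ * s₂), ‖∑ c ∈ X.filter (fun c => c % (s₁ * s₂) = u),
        A c * χ (c : ZMod (s₂ * m))‖ ^ 2) *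
      (∑ v ∈ range (s₁ * s₂), ‖∑ l ∈ Y.filter (fun l => l % (s₁ * s₂) = v),
        B l * χ (l : ZMod (s₂ * m))‖ ^ 2) := by
  classical
  have hN : 0 < s₁ * s₂ := Nat.mul_pos hs₁ hs₂
  have hsR : (0 : ℝ) < s₁ := by exact_mod_cast hs₁
  have hs12 : s₁.Coprime s₂ := Nat.Coprime.coprime_dvd_right h₂ h₁
  set a : ℕ → ℂ := fun u => ∑ c ∈ X.filter (fun c => c % (s₁ * s₂) = u),
    A c * χ (c : ZMod (s₂ * m)) with ha
  set b : ℕ → ℂ := fun v => ∑ l ∈ Y.filter (fun l => l % (s₁ * s₂) = v),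
    B l * χ (l : ZMod (s₂ * m)) with hbdef
  have hmodd : ∀ c u : ℕ, c % (s₁ * s₂) = u → c ≡ u [MOD s₁ * s₂] := by
    intro c u h
    rw [← h]
    exact (Nat.mod_modEq _ _).symm
  have ha0 : ∀ u, ¬ u.Coprime s₂ → a u = 0 := by
    intro u hu
    rw [ha]
    simp only
    refine sum_eq_zero fun c hc => ?_
    exfalso
    apply hu
    have h1 : c ≡ u [MOD s₂] := (hmodd c u (mem_filter.1 hc).2).of_dvd (Dvd.intro_left s₁ rfl)
    have h2 : c.Coprime s₂ := Nat.Coprime.coprime_dvd_right h₂ (hX c (mem_filter.1 hc).1)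
    rw [Nat.coprime_iff_gcd_eq_one, ← Nat.ModEq.gcd_eq h1]
    exact h2
  have hb0 : ∀ v, ¬ v.Coprime s₂ → b v = 0 := by
    intro u hu
    rw [hbdef]
    simp only
    refine sum_eq_zero fun c hc => ?_
    exfalso
    apply hu
    have h1 : c ≡ u [MOD s₂] := (hmodd c u (mem_filter.1 hc).2).of_dvd (Dvd.intro_left s₁ rfl)
    have h2 : c.Coprime s₂ := Nat.Coprime.coprime_dvd_right h₂ (hY c (mem_filter.1 hc).1)
    rw [Nat.coprime_iff_gcd_eq_one, ← Nat.ModEq.gcd_eq h1]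
    exact h2
  -- grouping into classes
  have hgrp : (∑ c ∈ X, ∑ l ∈ Y, if (c * l) % s₂ = r then
      A c * B l * χ ((c * l : ℕ) : ZMod (s₂ * m)) * e ((c * l : ℕ) * ((b₁ : ℝ) / s₁)) else 0) =
      ∑ u ∈ range (s₁ * s₂), ∑ v ∈ range (s₁ * s₂), if (u * v) % s₂ = r then
        a u * b v * e ((u * v : ℕ) * ((b₁ : ℝ) / s₁)) else 0 := by
    rw [← sum_fiberwise_of_maps_to (s := X) (t := range (s₁ * s₂))
      (g := fun c => c % (s₁ * s₂)) (fun c _ => mem_range.2 (Nat.mod_lt _ hN))]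
    refine sum_congr rfl fun u _ => ?_
    have h1 : ∀ c ∈ X.filter (fun c => c % (s₁ * s₂) = u), (∑ l ∈ Y, if (c * l) % s₂ = r then
      A c * B l * χ ((c * l : ℕ) : ZMod (s₂ * m)) * e ((c * l : ℕ) * ((b₁ : ℝ) / s₁)) else 0) =
      ∑ v ∈ range (s₁ * s₂), if (u * v) % s₂ = r then
        (A c * χ (c : ZMod (s₂ * m))) * b v * e ((u * v : ℕ) * ((b₁ : ℝ) / s₁)) else 0 := by
      intro c hc
      rw [← sum_fiberwise_of_maps_to (s := Y) (t := range (s₁ * s₂))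
        (g := fun l => l % (s₁ * s₂)) (fun l _ => mem_range.2 (Nat.mod_lt _ hN))]
      refine sum_congr rfl fun v _ => ?_
      have hcu := hmodd c u (mem_filter.1 hc).2
      have h2 : ∀ l ∈ Y.filter (fun l => l % (s₁ * s₂) = v), (if (c * l) % s₂ = r then
        A c * B l * χ ((c * l : ℕ) : ZMod (s₂ * m)) * e ((c * l : ℕ) * ((b₁ : ℝ) / s₁)) else 0) =
        if (u * v) % s₂ = r then (A c * χ (c : ZMod (s₂ * m))) * (B l * χ (l : ZMod (s₂ * m))) *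
          e ((u * v : ℕ) * ((b₁ : ℝ) / s₁)) else 0 := by
        intro l hl
        have hlv := hmodd l v (mem_filter.1 hl).2
        have h3 : c * l ≡ u * v [MOD s₁ * s₂] := hcu.mul hlv
        have h4 : (c * l) % s₂ = (u * v) % s₂ := h3.of_dvd (Dvd.intro_left s₁ rfl)
        have h5 : e ((c * l : ℕ) * ((b₁ : ℝ) / s₁)) = e ((u * v : ℕ) * ((b₁ : ℝ) / s₁)) := by
          have h6 : c * l ≡ u * v [MOD s₁] := h3.of_dvd (Dvd.intro s₂ rfl)
          obtain ⟨z, hz⟩ := Nat.modEq_iff_dvd.1 h6.symm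
          refine gc_e _ _ (z * b₁) ?_
          have hz' : (((c * l : ℕ) : ℝ) - ((u * v : ℕ) : ℝ)) = s₁ * z := by
            exact_mod_cast congrArg (fun t : ℤ => (t : ℝ)) hz
          rw [Int.cast_mul]
          field_simp
          linear_combination (b₁ : ℝ) * hz'
        rw [h4, h5]
        split_ifs
        · push_cast
          rw [map_mul]
          ring
        · rfl
      rw [sum_congr rfl h2, hbdef]
      simp only
      split_ifs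
      · rw [mul_sum, sum_mul]
      · simp
    rw [sum_congr rfl h1, sum_comm]
    refine sum_congr rfl fun v _ => ?_
    rw [ha]
    simp only
    split_ifs
    · rw [sum_mul, sum_mul]
    · simp
  rw [hgrp]
  -- splitting by the class of `u` mod `s₂`
  set U : ℕ → Finset ℕ := fun t => (range (s₁ * s₂)).filter (fun u => u % s₂ = t) with hU
  set V : ℕ → Finset ℕ := fun t => (range (s₁ * s₂)).filter (fun v => (t * v) % s₂ = r) with hV
  have hsp : (∑ u ∈ range (s₁ * s₂), ∑ v ∈ range (s₁ * s₂), if (u * v) % s₂ = r then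
        a u * b v * e ((u * v : ℕ) * ((b₁ : ℝ) / s₁)) else 0) =
      ∑ t ∈ range s₂, ∑ u ∈ U t, ∑ v ∈ V t, a u * b v * e ((u * v : ℕ) * ((b₁ : ℝ) / s₁)) := by
    rw [← sum_fiberwise_of_maps_to (s := range (s₁ * s₂)) (t := range s₂)
      (g := fun u => u % s₂) (fun u _ => mem_range.2 (Nat.mod_lt _ hs₂))]
    refine sum_congr rfl fun t _ => sum_congr rfl fun u hu => ?_
    rw [hV]
    simp only
    rw [sum_filter]
    refine sum_congr rfl fun v _ => ?_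
    have h3 : (u * v) % s₂ = (t * v) % s₂ := by
      have h4 : u ≡ t [MOD s₂] := by
        rw [← (mem_filter.1 hu).2]
        exact (Nat.mod_modEq _ _).symm
      exact h4.mul_right v
    rw [h3]
  rw [hsp]
  have hmain := gc_cs (range s₂)
    (fun t => ∑ u ∈ U t, ∑ v ∈ V t, a u * b v * e ((u * v : ℕ) * ((b₁ : ℝ) / s₁)))
    (fun t => s₁ * ∑ u ∈ U t, ‖a u‖ ^ 2)
    (fun t => if t.Coprime s₂ then ∑ v ∈ V t, ‖b v‖ ^ 2 else 0)
    (fun t _ => mul_nonneg hsR.le (sum_nonneg fun _ _ => sq_nonneg _))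
    (fun t _ => by
      split_ifs
      · exact sum_nonneg fun _ _ => sq_nonneg _
      · exact le_rfl)
    (fun t ht => by
      by_cases htc : t.Coprime s₂
      · rw [if_pos htc]
        refine gc_L1 s₁ hs₁ b₁ hb (U t) (V t) ?_ ?_ a b
        · intro u hu u' hu' h
          have h3 : u ≡ u' [MOD s₂] := by
            show u % s₂ = u' % s₂
            rw [(mem_filter.1 hu).2, (mem_filter.1 hu').2]
          have h4 : u ≡ u' [MOD s₁ * s₂] :=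
            (Nat.modEq_and_modEq_iff_modEq_mul hs12).1 ⟨h, h3⟩
          exact Nat.ModEq.eq_of_lt_of_lt h4 (mem_range.1 (mem_filter.1 hu).1)
            (mem_range.1 (mem_filter.1 hu').1)
        · intro v hv v' hv' h
          have h3 : t * v ≡ t * v' [MOD s₂] := by
            show (t * v) % s₂ = (t * v') % s₂
            rw [(mem_filter.1 hv).2, (mem_filter.1 hv').2]
          have h3' : v ≡ v' [MOD s₂] :=
            Nat.ModEq.cancel_left_of_coprime (by rw [Nat.gcd_comm]; exact htc) h3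
          have h4 : v ≡ v' [MOD s₁ * s₂] :=
            (Nat.modEq_and_modEq_iff_modEq_mul hs12).1 ⟨h, h3'⟩
          exact Nat.ModEq.eq_of_lt_of_lt h4 (mem_range.1 (mem_filter.1 hv).1)
            (mem_range.1 (mem_filter.1 hv').1)
      · rw [if_neg htc, mul_zero]
        have h3 : ∑ u ∈ U t, ∑ v ∈ V t, a u * b v * e ((u * v : ℕ) * ((b₁ : ℝ) / s₁)) = 0 := by
          refine sum_eq_zero fun u hu => sum_eq_zero fun v _ => ?_
          have h4 : ¬ u.Coprime s₂ := by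
            intro h5
            apply htc
            have h6 : u ≡ t [MOD s₂] := by
              rw [← (mem_filter.1 hu).2]
              exact (Nat.mod_modEq _ _).symm
            rw [Nat.coprime_iff_gcd_eq_one, ← Nat.ModEq.gcd_eq h6]
            exact h5
          rw [ha0 u h4]
          ring
        rw [h3]
        simp)
  refine hmain.trans ?_
  have hA : ∑ t ∈ range s₂, (s₁ : ℝ) * ∑ u ∈ U t, ‖a u‖ ^ 2 =
      s₁ * ∑ u ∈ range (s₁ * s₂), ‖a u‖ ^ 2 := by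
    rw [← mul_sum]
    congr 1
    exact sum_fiberwise_of_maps_to (s := range (s₁ * s₂)) (t := range s₂)
      (g := fun u => u % s₂) (fun u _ => mem_range.2 (Nat.mod_lt _ hs₂)) (fun u => ‖a u‖ ^ 2)
  have hB : ∑ t ∈ range s₂, (if t.Coprime s₂ then ∑ v ∈ V t, ‖b v‖ ^ 2 else 0) ≤
      ∑ v ∈ range (s₁ * s₂), ‖b v‖ ^ 2 := by
    calc ∑ t ∈ range s₂, (if t.Coprime s₂ then ∑ v ∈ V t, ‖b v‖ ^ 2 else 0)
        ≤ ∑ t ∈ range s₂, ∑ v ∈ range (s₁ * s₂), (if (t * v) % s₂ = r then ‖b v‖ ^ 2 else 0) := by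
          refine sum_le_sum fun t _ => ?_
          rw [← sum_filter]
          split_ifs
          · exact le_rfl
          · exact sum_nonneg fun _ _ => sq_nonneg _
      _ = ∑ v ∈ range (s₁ * s₂), ∑ t ∈ range s₂, (if (t * v) % s₂ = r then ‖b v‖ ^ 2 else 0) :=
          sum_comm
      _ ≤ ∑ v ∈ range (s₁ * s₂), ‖b v‖ ^ 2 := by
          refine sum_le_sum fun v _ => ?_
          by_cases hv : v.Coprime s₂
          · rw [← sum_filter, sum_const, nsmul_eq_mul]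
            have h3 : ((range s₂).filter (fun t => (t * v) % s₂ = r)).card ≤ 1 := by
              rw [card_le_one]
              intro t ht t' ht'
              have h4 : t * v ≡ t' * v [MOD s₂] := by
                show (t * v) % s₂ = (t' * v) % s₂
                rw [(mem_filter.1 ht).2, (mem_filter.1 ht').2]
              have h5 : t ≡ t' [MOD s₂] :=
                Nat.ModEq.cancel_right_of_coprime (by rw [Nat.gcd_comm]; exact hv) h4
              exact Nat.ModEq.eq_of_lt_of_lt h5 (mem_range.1 (mem_filter.1 ht).1)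
                (mem_range.1 (mem_filter.1 ht').1)
            have h4 : (((range s₂).filter (fun t => (t * v) % s₂ = r)).card : ℝ) ≤ 1 := by
              exact_mod_cast h3
            exact mul_le_of_le_one_left (sq_nonneg _) h4
          · rw [hb0 v hv]
            simp
  rw [hA]
  exact mul_le_mul_of_nonneg_left hB
    (mul_nonneg hsR.le (sum_nonneg fun _ _ => sq_nonneg _))

end Pool.Agent.HN
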