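import Pool.Agent.Work.MP_92f640_nt.HN.Split
import Pool.Agent.Work.MP_92f640_nt.HN.GPars
import Pool.Agent.Work.MP_92f640_nt.HN.GCls
import Pool.Agent.Work.MP_92f640_nt.HN.GOrth

/-! # Module Group: the minor arc inequality

`g_refine`: a class mod `q` is a union of `g` classes mod `g q`: Cauchy-Schwarz. `group_le`: `g_pars`, `g_cls`, `g_orth`. `group_q`: both, weights
`|A| ≤ 1`, `|B l₁| |B l₂| ≤ (|B l₁|² + |B l₂|²)/2` and the symmetry `(c₁,l₁) ↔ (c₂,l₂)` of the conditions. -/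

namespace Pool.Agent.HN

open Finset Pool.Agent.BV Pool.Agent.HL

/-- a class mod `q` is a union of `g` classes mod `g q` -/
private theorem class_split (q g a n : ℕ) (hq : 1 ≤ q) (hg : 1 ≤ g) (ha : a < q) (z : ℂ) :
    (if n % q = a then z else 0) = ∑ j ∈ range g, if n % (g * q) = a + q * j then z else 0 := by
  have hmod : n % (g * q) % q = n % q := Nat.mod_mod_of_dvd n (Dvd.intro_left g rfl)
  have hlt : n % (g * q) < g * q := Nat.mod_lt n (Nat.mul_pos hg hq)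
  have hdiv : n % (g * q) / q < g := by
    rw [Nat.div_lt_iff_lt_mul hq]; exact hlt
  by_cases h : n % q = a
  · rw [if_pos h, Finset.sum_eq_single (n % (g * q) / q)]
    · rw [if_pos]
      have := Nat.mod_add_div (n % (g * q)) q
      rw [hmod, h] at this
      exact this.symm
    · intro j hj hne
      rw [if_neg]
      intro h2
      apply hne
      rw [h2, Nat.add_mul_div_left _ _ hq, Nat.div_eq_of_lt ha, zero_add]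
    · intro hnot
      exact absurd (Finset.mem_range.mpr hdiv) hnot
  · rw [if_neg h]
    symm
    apply Finset.sum_eq_zero
    intro j hj
    rw [if_neg]
    intro h2
    apply h
    rw [← hmod, h2, Nat.add_mul_mod_self_left, Nat.mod_eq_of_lt ha]

theorem g_refine (q g : ℕ) (hq : 1 ≤ q) (hg : 1 ≤ g) (X Y : Finset ℕ) (A B : ℕ → ℂ) (α : ℝ) :
    VB q X Y A B α ≤ g * VB (g * q) X Y A B α := by
  unfold VB
  set G : ℕ → ℂ := fun a => ∑ c ∈ X, ∑ l ∈ Y,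
    if (c * l) % (g * q) = a then A c * B l * e ((c * l : ℕ) * α) else 0 with hG
  have h1 : ∀ a ∈ range q, ‖∑ c ∈ X, ∑ l ∈ Y,
      if (c * l) % q = a then A c * B l * e ((c * l : ℕ) * α) else 0‖ ^ 2 ≤
      g * ∑ j ∈ range g, ‖G (a + q * j)‖ ^ 2 := by
    intro a ha
    have ha' := Finset.mem_range.mp ha
    have h2 : (∑ c ∈ X, ∑ l ∈ Y,
        if (c * l) % q = a then A c * B l * e ((c * l : ℕ) * α) else 0) =
        ∑ j ∈ range g, G (a + q * j) := by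
      rw [hG]
      simp only
      symm
      rw [Finset.sum_comm]
      refine Finset.sum_congr rfl fun c hc => ?_
      rw [Finset.sum_comm]
      refine Finset.sum_congr rfl fun l hl => ?_
      exact (class_split q g a (c * l) hq hg ha' _).symm
    rw [h2]
    calc ‖∑ j ∈ range g, G (a + q * j)‖ ^ 2 ≤ (∑ j ∈ range g, ‖G (a + q * j)‖) ^ 2 :=
          pow_le_pow_left₀ (norm_nonneg _) (norm_sum_le _ _) 2
      _ ≤ (range g).card * ∑ j ∈ range g, ‖G (a + q * j)‖ ^ 2 := sq_sum_le_card_mul_sum_sq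
      _ = g * ∑ j ∈ range g, ‖G (a + q * j)‖ ^ 2 := by rw [Finset.card_range]
  refine (Finset.sum_le_sum h1).trans ?_
  rw [← Finset.mul_sum, Finset.sum_sigma']
  apply le_of_eq
  congr 1
  refine Finset.sum_nbij' (fun p => p.1 + q * p.2) (fun n => ⟨n % q, n / q⟩) ?_ ?_ ?_ ?_ ?_
  · rintro ⟨a, j⟩ h
    simp only [Finset.mem_sigma, Finset.mem_range] at h ⊢
    calc a + q * j < q + q * j := by omega
      _ = q * (j + 1) := by ring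
      _ ≤ q * g := Nat.mul_le_mul_left q h.2
      _ = g * q := Nat.mul_comm q g
  · intro n hn
    simp only [Finset.mem_sigma, Finset.mem_range] at hn ⊢
    exact ⟨Nat.mod_lt n hq, (Nat.div_lt_iff_lt_mul hq).mpr hn⟩
  · rintro ⟨a, j⟩ h
    simp only [Finset.mem_sigma, Finset.mem_range] at h
    have h3 : (a + q * j) % q = a := by
      rw [Nat.add_mul_mod_self_left, Nat.mod_eq_of_lt h.1]
    have h4 : (a + q * j) / q = j := by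
      rw [Nat.add_mul_div_left _ _ hq, Nat.div_eq_of_lt h.1, zero_add]
    simp only [h3, h4]
  · intro n hn
    exact Nat.mod_add_div n q
  · rintro ⟨a, j⟩ h
    rfl

theorem group_le (m s₁ s₂ : ℕ) (hm : 1 ≤ m) (hs₁ : 1 ≤ s₁) (hs₂ : 1 ≤ s₂) (h₁ : s₁.Coprime m)
    (h₂ : s₂ ∣ m) (b : ℤ) (hb : IsCoprime b ((s₁ * s₂ : ℕ) : ℤ)) (X Y : Finset ℕ) (A B : ℕ → ℂ)
    (hX : ∀ c ∈ X, c.Coprime m) (hY : ∀ l ∈ Y, l.Coprime m) :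
    VB m X Y A B ((b : ℝ) / (s₁ * s₂ * m)) ≤ s₁ * s₂ *
      ∑ c₁ ∈ X, ∑ c₂ ∈ X, ∑ l₁ ∈ Y, ∑ l₂ ∈ Y,
      if c₁ ≡ c₂ [MOD s₁ * s₂] ∧ l₁ ≡ l₂ [MOD s₁ * s₂] ∧ c₁ * l₁ ≡ c₂ * l₂ [MOD s₂ * m] then
        ‖A c₁‖ * ‖A c₂‖ * (‖B l₁‖ * ‖B l₂‖) else 0 := by
  have : NeZero (s₂ * m) := ⟨(Nat.mul_pos hs₂ hm).ne'⟩
  obtain ⟨b₁, hb₁, hmain⟩ := g_pars m s₁ s₂ hm hs₁ hs₂ h₁ h₂ b hb
  have h3 := hmain X Y A B hX hY (fun χ =>
    s₁ * (∑ u ∈ range (s₁ * s₂), ‖∑ c ∈ X.filter (fun c => c % (s₁ * s₂) = u),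
        A c * χ (c : ZMod (s₂ * m))‖ ^ 2) *
      (∑ v ∈ range (s₁ * s₂), ‖∑ l ∈ Y.filter (fun l => l % (s₁ * s₂) = v),
        B l * χ (l : ZMod (s₂ * m))‖ ^ 2))
    (fun χ r _ => g_cls m s₁ s₂ hm hs₁ hs₂ h₁ h₂ b₁ hb₁ X Y A B hX hY χ r)
  refine h3.trans ?_
  have hS : 1 ≤ s₁ * s₂ := Nat.mul_pos hs₁ hs₂
  have h4 := g_orth (s₂ * m) (s₁ * s₂) hS X Y A B
  have hφ : (0 : ℝ) < (s₂ * m).totient := by
    exact_mod_cast Nat.totient_pos.mpr (Nat.mul_pos hs₂ hm)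
  have h5 : (∑ χ : DirichletCharacter ℂ (s₂ * m),
      s₁ * (∑ u ∈ range (s₁ * s₂), ‖∑ c ∈ X.filter (fun c => c % (s₁ * s₂) = u),
        A c * χ (c : ZMod (s₂ * m))‖ ^ 2) *
      (∑ v ∈ range (s₁ * s₂), ‖∑ l ∈ Y.filter (fun l => l % (s₁ * s₂) = v),
        B l * χ (l : ZMod (s₂ * m))‖ ^ 2)) = (s₁ : ℝ) *
      ∑ χ : DirichletCharacter ℂ (s₂ * m),
      (∑ u ∈ range (s₁ * s₂), ‖∑ c ∈ X.filter (fun c => c % (s₁ * s₂) = u),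
        A c * χ (c : ZMod (s₂ * m))‖ ^ 2) *
      (∑ v ∈ range (s₁ * s₂), ‖∑ l ∈ Y.filter (fun l => l % (s₁ * s₂) = v),
        B l * χ (l : ZMod (s₂ * m))‖ ^ 2) := by
    rw [Finset.mul_sum]
    exact Finset.sum_congr rfl fun χ _ => by ring
  rw [h5]
  set T : ℝ := ∑ c₁ ∈ X, ∑ c₂ ∈ X, ∑ l₁ ∈ Y, ∑ l₂ ∈ Y,
      if c₁ ≡ c₂ [MOD s₁ * s₂] ∧ l₁ ≡ l₂ [MOD s₁ * s₂] ∧ c₁ * l₁ ≡ c₂ * l₂ [MOD s₂ * m] then
        ‖A c₁‖ * ‖A c₂‖ * (‖B l₁‖ * ‖B l₂‖) else 0 with hT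
  calc (s₂ : ℝ) / (s₂ * m).totient * (s₁ * _) ≤
      (s₂ : ℝ) / (s₂ * m).totient * (s₁ * ((s₂ * m).totient * T)) := by
        gcongr
    _ = s₁ * s₂ * T := by
        field_simp

private theorem cop_iff (q g c : ℕ) (hgq : ∀ p : ℕ, p.Prime → p ∣ g → p ∣ q)
    (h : c.Coprime q) : c.Coprime (g * q) := by
  refine Nat.Coprime.mul_right ?_ h
  refine Nat.Coprime.symm (Nat.coprime_of_dvd ?_)
  intro p hp hpg hpc
  have hpq := hgq p hp hpg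
  have h1 : p ∣ Nat.gcd c q := Nat.dvd_gcd hpc hpq
  rw [h] at h1
  exact hp.one_lt.ne' (Nat.dvd_one.mp h1)

private theorem VB_cop (q g : ℕ) (hgq : ∀ p : ℕ, p.Prime → p ∣ g → p ∣ q) (X₁ X₂ : ℕ)
    (A B : ℕ → ℂ) (α : ℝ)
    (hAq : ∀ c, ¬ c.Coprime q → A c = 0) (hBq : ∀ l, ¬ l.Coprime q → B l = 0) :
    VB q (Icc 1 X₁) (Icc 1 X₂) A B α = VB q (Cop (g * q) X₁) (Cop (g * q) X₂) A B α := by
  unfold VB Cop
  refine Finset.sum_congr rfl fun a _ => ?_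
  congr 2
  rw [Finset.sum_filter]
  refine Finset.sum_congr rfl fun c _ => ?_
  by_cases hc : c.Coprime (g * q)
  · rw [if_pos hc, Finset.sum_filter]
    refine Finset.sum_congr rfl fun l _ => ?_
    by_cases hl : l.Coprime (g * q)
    · rw [if_pos hl]
    · rw [if_neg hl]
      have : B l = 0 := hBq l fun h => hl (cop_iff q g l hgq h)
      rw [this]
      simp
  · rw [if_neg hc]
    have : A c = 0 := hAq c fun h => hc (cop_iff q g c hgq h)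
    rw [this]
    simp

theorem group_q (q g s₁ s₂ : ℕ) (hq : 1 ≤ q) (hg : 1 ≤ g) (hs₁ : 1 ≤ s₁) (hs₂ : 1 ≤ s₂)
    (h₁ : s₁.Coprime (g * q)) (h₂ : s₂ ∣ g * q) (hgq : ∀ p : ℕ, p.Prime → p ∣ g → p ∣ q)
    (b : ℤ) (hb : IsCoprime b ((g * s₁ * s₂ : ℕ) : ℤ)) (X₁ X₂ : ℕ) (A B : ℕ → ℂ)
    (hA : ∀ c, ‖A c‖ ≤ 1) (hB : ∀ l, ‖B l‖ ≤ (l.divisors.card : ℝ) ^ 2)
    (hAq : ∀ c, ¬ c.Coprime q → A c = 0) (hBq : ∀ l, ¬ l.Coprime q → B l = 0) :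
    VB q (Icc 1 X₁) (Icc 1 X₂) A B ((b : ℝ) / ((g * s₁ * s₂ : ℕ) * q)) ≤
      g * (s₁ * s₂) * N4 (g * q) s₁ s₂ X₁ X₂ := by
  rw [VB_cop q g hgq X₁ X₂ A B _ hAq hBq]
  refine (g_refine q g hq hg _ _ A B _).trans ?_
  have hα : (b : ℝ) / ((g * s₁ * s₂ : ℕ) * q) = (b : ℝ) / (s₁ * s₂ * (g * q : ℕ)) := by
    congr 1
    push_cast
    ring
  rw [hα]
  have hb' : IsCoprime b ((s₁ * s₂ : ℕ) : ℤ) := by
    have : ((g * s₁ * s₂ : ℕ) : ℤ) = (g : ℤ) * ((s₁ * s₂ : ℕ) : ℤ) := by push_cast; ring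
    rw [this] at hb
    exact hb.of_mul_right_right
  have hmem : ∀ X : ℕ, ∀ c ∈ Cop (g * q) X, c.Coprime (g * q) := by
    intro X c hc
    exact (Finset.mem_filter.mp hc).2
  have h3 := group_le (g * q) s₁ s₂ (Nat.mul_pos hg hq) hs₁ hs₂ h₁ h₂ b hb' (Cop (g * q) X₁)
    (Cop (g * q) X₂) A B (hmem X₁) (hmem X₂)
  rw [mul_assoc (g : ℝ) ((s₁ : ℝ) * s₂) (N4 (g * q) s₁ s₂ X₁ X₂)]
  refine mul_le_mul_of_nonneg_left (h3.trans ?_) (Nat.cast_nonneg g)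
  refine mul_le_mul_of_nonneg_left ?_ (by positivity)
  -- the symmetric sum
  set XX := Cop (g * q) X₁ with hXX
  set YY := Cop (g * q) X₂ with hYY
  let P : ℕ → ℕ → ℕ → ℕ → Prop := fun c₁ c₂ l₁ l₂ =>
    c₁ ≡ c₂ [MOD s₁ * s₂] ∧ l₁ ≡ l₂ [MOD s₁ * s₂] ∧ c₁ * l₁ ≡ c₂ * l₂ [MOD s₂ * (g * q)]
  have hsym : ∀ c₁ c₂ l₁ l₂, P c₁ c₂ l₁ l₂ ↔ P c₂ c₁ l₂ l₁ := by
    intro c₁ c₂ l₁ l₂
    exact ⟨fun h => ⟨h.1.symm, h.2.1.symm, h.2.2.symm⟩, fun h => ⟨h.1.symm, h.2.1.symm, h.2.2.symm⟩⟩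
  have hN : N4 (g * q) s₁ s₂ X₁ X₂ = ∑ c₁ ∈ XX, ∑ c₂ ∈ XX, ∑ l₁ ∈ YY, ∑ l₂ ∈ YY,
      if c₁ ≡ c₂ [MOD s₁ * s₂] ∧ l₁ ≡ l₂ [MOD s₁ * s₂] ∧
        c₁ * l₁ ≡ c₂ * l₂ [MOD s₂ * (g * q)] then (l₂.divisors.card : ℝ) ^ 4 else 0 := rfl
  have hN' : N4 (g * q) s₁ s₂ X₁ X₂ = ∑ c₁ ∈ XX, ∑ c₂ ∈ XX, ∑ l₁ ∈ YY, ∑ l₂ ∈ YY,
      if c₁ ≡ c₂ [MOD s₁ * s₂] ∧ l₁ ≡ l₂ [MOD s₁ * s₂] ∧
        c₁ * l₁ ≡ c₂ * l₂ [MOD s₂ * (g * q)] then (l₁.divisors.card : ℝ) ^ 4 else 0 := by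
    rw [hN, Finset.sum_comm]
    refine Finset.sum_congr rfl fun c₁ _ => Finset.sum_congr rfl fun c₂ _ => ?_
    rw [Finset.sum_comm]
    refine Finset.sum_congr rfl fun l₁ _ => Finset.sum_congr rfl fun l₂ _ => ?_
    exact if_congr (hsym c₂ c₁ l₂ l₁) rfl rfl
  have havg : N4 (g * q) s₁ s₂ X₁ X₂ = (N4 (g * q) s₁ s₂ X₁ X₂ + N4 (g * q) s₁ s₂ X₁ X₂) / 2 := by
    ring
  rw [havg]
  nth_rewrite 1 [hN']
  rw [hN, ← Finset.sum_add_distrib, Finset.sum_div]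
  refine Finset.sum_le_sum fun c₁ _ => ?_
  rw [← Finset.sum_add_distrib, Finset.sum_div]
  refine Finset.sum_le_sum fun c₂ _ => ?_
  rw [← Finset.sum_add_distrib, Finset.sum_div]
  refine Finset.sum_le_sum fun l₁ _ => ?_
  rw [← Finset.sum_add_distrib, Finset.sum_div]
  refine Finset.sum_le_sum fun l₂ _ => ?_
  by_cases hP : c₁ ≡ c₂ [MOD s₁ * s₂] ∧ l₁ ≡ l₂ [MOD s₁ * s₂] ∧
        c₁ * l₁ ≡ c₂ * l₂ [MOD s₂ * (g * q)]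
  · rw [if_pos hP, if_pos hP, if_pos hP]
    have e1 : ‖A c₁‖ * ‖A c₂‖ ≤ 1 := mul_le_one₀ (hA c₁) (norm_nonneg _) (hA c₂)
    have e2 : ‖B l₁‖ * ‖B l₂‖ ≤ (l₁.divisors.card : ℝ) ^ 2 * (l₂.divisors.card : ℝ) ^ 2 :=
      mul_le_mul (hB l₁) (hB l₂) (norm_nonneg _) (pow_nonneg (Nat.cast_nonneg _) 2)
    have e3 : ‖A c₁‖ * ‖A c₂‖ * (‖B l₁‖ * ‖B l₂‖) ≤ 1 * (‖B l₁‖ * ‖B l₂‖) :=
      mul_le_mul_of_nonneg_right e1 (mul_nonneg (norm_nonneg _) (norm_nonneg _))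
    nlinarith [sq_nonneg ((l₁.divisors.card : ℝ) ^ 2 - (l₂.divisors.card : ℝ) ^ 2)]
  · rw [if_neg hP, if_neg hP, if_neg hP]
    simp

end Pool.Agent.HN
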