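import Pool.Agent.Work.BV.Defs

/-! # Module HalMont: large values by duality

`S = ∑_{χ ∈ X} ‖B χ‖²`, `G = ∑ ‖b‖²`. `S = ∑_l b_l ∑_χ \bar{B χ} χ(l)`, Cauchy: `S² ≤ G ∑_l |∑_χ \bar{B χ} χ(l)|² ≤ G ∑_{χ,χ'} ‖B χ‖ ‖B χ'‖ |∑_{l ≤ N} χ \bar χ'(l)| ≤
G (N S + P (∑ ‖B χ‖)²)`, `∑ ‖B χ‖ ≤ S/W`, `2 G P ≤ W²`: `S² ≤ G N S + S²/2`. -/

namespace Pool.Agent.HN

open Finset Pool.Agent.BV

theorem hal_mont (k : ℕ) [NeZero k] (P : ℝ) (hP : ∀ χ : DirichletCharacter ℂ k, χ ≠ 1 → ∀ N : ℕ,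
    ‖∑ n ∈ Icc 1 N, χ (n : ZMod k)‖ ≤ P) (N : ℕ) (b : ℕ → ℂ) (W : ℝ) (hW : 0 < W)
    (hWP : 2 * (∑ n ∈ Icc 1 N, ‖b n‖ ^ 2) * P ≤ W ^ 2) (X : Finset (DirichletCharacter ℂ k))
    (hX : ∀ χ ∈ X, W ≤ ‖∑ n ∈ Icc 1 N, b n * χ (n : ZMod k)‖) :
    ∑ χ ∈ X, ‖∑ n ∈ Icc 1 N, b n * χ (n : ZMod k)‖ ^ 2 ≤ 2 * N * ∑ n ∈ Icc 1 N, ‖b n‖ ^ 2 := by
  classical
  set B : DirichletCharacter ℂ k → ℂ := fun χ => ∑ n ∈ Icc 1 N, b n * χ (n : ZMod k) with hB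
  set S : ℝ := ∑ χ ∈ X, ‖B χ‖ ^ 2 with hS
  set G : ℝ := ∑ n ∈ Icc 1 N, ‖b n‖ ^ 2 with hG
  have hG0 : 0 ≤ G := sum_nonneg fun n _ => by positivity
  have hS0 : 0 ≤ S := sum_nonneg fun n _ => by positivity
  change S ≤ 2 * N * G
  -- the bound for the inner sums
  set P' : ℝ := max P 0 with hP'
  have hP'0 : 0 ≤ P' := le_max_right _ _
  have hWP' : 2 * G * P' ≤ W ^ 2 := by
    rcases le_total P 0 with h | h
    · rw [hP', max_eq_right h]; simp; positivity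
    · rw [hP', max_eq_left h]; exact hWP
  set K : DirichletCharacter ℂ k → DirichletCharacter ℂ k → ℂ := fun χ ψ =>
    ∑ n ∈ Icc 1 N, χ (n : ZMod k) * star (ψ (n : ZMod k)) with hK
  have hKdiag : ∀ χ, ‖K χ χ‖ ≤ N := by
    intro χ
    calc ‖K χ χ‖ ≤ ∑ n ∈ Icc 1 N, ‖χ (n : ZMod k) * star (χ (n : ZMod k))‖ := norm_sum_le _ _
      _ ≤ ∑ _n ∈ Icc 1 N, (1 : ℝ) := by
          refine sum_le_sum fun n _ => ?_
          rw [norm_mul, norm_star]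
          have h1 := χ.norm_le_one (n : ZMod k)
          have h0 := norm_nonneg (χ (n : ZMod k))
          nlinarith
      _ = N := by simp
  have hKoff : ∀ χ ψ, χ ≠ ψ → ‖K χ ψ‖ ≤ P' := by
    intro χ ψ h
    have h1 : K χ ψ = ∑ n ∈ Icc 1 N, (χ * ψ⁻¹) (n : ZMod k) := by
      refine sum_congr rfl fun n _ => ?_
      rw [MulChar.star_apply', MulChar.mul_apply]
    rw [h1]
    refine le_trans (hP _ ?_ N) (le_max_left _ _)
    intro h2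
    exact h (mul_inv_eq_one.1 h2)
  -- duality
  set T : ℕ → ℂ := fun n => ∑ χ ∈ X, star (B χ) * χ (n : ZMod k) with hT
  have hST : (S : ℂ) = ∑ n ∈ Icc 1 N, b n * T n := by
    have h1 : (S : ℂ) = ∑ χ ∈ X, star (B χ) * B χ := by
      rw [hS]; push_cast
      refine sum_congr rfl fun χ _ => ?_
      rw [Complex.star_def, mul_comm, Complex.mul_conj, Complex.normSq_eq_norm_sq]
      push_cast; rfl
    rw [h1]
    have h2 : ∀ χ, star (B χ) * B χ = ∑ n ∈ Icc 1 N, b n * (star (B χ) * χ (n : ZMod k)) := by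
      intro χ
      have h3 : B χ = ∑ n ∈ Icc 1 N, b n * χ (n : ZMod k) := rfl
      nth_rewrite 2 [h3]
      rw [mul_sum]
      exact sum_congr rfl fun n _ => by ring
    simp only [h2]
    rw [sum_comm]
    refine sum_congr rfl fun n _ => ?_
    rw [hT, mul_sum]
  have hTT : ∑ n ∈ Icc 1 N, ‖T n‖ ^ 2 ≤ N * S + P' * (∑ χ ∈ X, ‖B χ‖) ^ 2 := by
    have h1 : ((∑ n ∈ Icc 1 N, ‖T n‖ ^ 2 : ℝ) : ℂ) =
        ∑ χ ∈ X, ∑ ψ ∈ X, star (B χ) * B ψ * K χ ψ := by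
      have h2 : ∀ n, ((‖T n‖ ^ 2 : ℝ) : ℂ) = ∑ χ ∈ X, ∑ ψ ∈ X,
          star (B χ) * B ψ * (χ (n : ZMod k) * star (ψ (n : ZMod k))) := by
        intro n
        have h3 : ((‖T n‖ ^ 2 : ℝ) : ℂ) = T n * star (T n) := by
          rw [Complex.star_def, Complex.mul_conj, Complex.normSq_eq_norm_sq]
        rw [h3]
        have h4 : star (T n) = ∑ ψ ∈ X, B ψ * star (ψ (n : ZMod k)) := by
          simp only [hT]
          rw [star_sum]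
          refine sum_congr rfl fun ψ _ => ?_
          rw [star_mul', star_star]
        rw [h4]
        simp only [hT]
        rw [sum_mul_sum]
        refine sum_congr rfl fun χ _ => sum_congr rfl fun ψ _ => by ring
      push_cast
      have h5 : ∀ n, ((‖T n‖ : ℂ)) ^ 2 = ∑ χ ∈ X, ∑ ψ ∈ X,
          star (B χ) * B ψ * (χ (n : ZMod k) * star (ψ (n : ZMod k))) := by
        intro n; rw [← h2 n]; push_cast; rfl
      simp only [h5]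
      rw [sum_comm]
      refine sum_congr rfl fun χ _ => ?_
      rw [sum_comm]
      refine sum_congr rfl fun ψ _ => ?_
      exact (mul_sum _ _ _).symm
    have h2 : ∑ n ∈ Icc 1 N, ‖T n‖ ^ 2 ≤ ∑ χ ∈ X, ∑ ψ ∈ X, ‖B χ‖ * ‖B ψ‖ * ‖K χ ψ‖ := by
      have h3 : ∑ n ∈ Icc 1 N, ‖T n‖ ^ 2 = ‖((∑ n ∈ Icc 1 N, ‖T n‖ ^ 2 : ℝ) : ℂ)‖ := by
        rw [Complex.norm_real, Real.norm_of_nonneg (sum_nonneg fun n _ => by positivity)]
      rw [h3, h1]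
      refine le_trans (norm_sum_le _ _) (sum_le_sum fun χ _ => ?_)
      refine le_trans (norm_sum_le _ _) (sum_le_sum fun ψ _ => ?_)
      rw [norm_mul, norm_mul, norm_star]
    refine le_trans h2 ?_
    have h3 : ∀ χ ∈ X, ∀ ψ ∈ X, ‖B χ‖ * ‖B ψ‖ * ‖K χ ψ‖ ≤
        (if χ = ψ then (N : ℝ) * ‖B χ‖ ^ 2 else 0) + P' * (‖B χ‖ * ‖B ψ‖) := by
      intro χ _ ψ _
      have hb : 0 ≤ ‖B χ‖ * ‖B ψ‖ := by positivity
      by_cases h : χ = ψ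
      · subst h
        rw [if_pos rfl]
        have h4 := mul_le_mul_of_nonneg_left (hKdiag χ) hb
        have h5 : 0 ≤ P' * (‖B χ‖ * ‖B χ‖) := mul_nonneg hP'0 hb
        nlinarith
      · rw [if_neg h, zero_add, mul_comm P']
        exact mul_le_mul_of_nonneg_left (hKoff χ ψ h) hb
    refine le_trans (sum_le_sum fun χ hχ => sum_le_sum fun ψ hψ => h3 χ hχ ψ hψ) ?_
    simp only [sum_add_distrib]
    refine le_of_eq ?_
    congr 1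
    · rw [hS, mul_sum]
      refine sum_congr rfl fun χ hχ => ?_
      rw [sum_ite_eq, if_pos hχ]
    · rw [pow_two, sum_mul_sum, mul_sum]
      refine sum_congr rfl fun χ _ => ?_
      rw [mul_sum]
  -- Cauchy
  have hCS : S ^ 2 ≤ G * ∑ n ∈ Icc 1 N, ‖T n‖ ^ 2 := by
    have h1 : S ≤ ∑ n ∈ Icc 1 N, ‖b n‖ * ‖T n‖ := by
      have h2 : S = ‖(S : ℂ)‖ := by rw [Complex.norm_real, Real.norm_of_nonneg hS0]
      rw [h2, hST]
      refine le_trans (norm_sum_le _ _) (sum_le_sum fun n _ => ?_)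
      rw [norm_mul]
    have h3 := sum_mul_sq_le_sq_mul_sq (Icc 1 N) (fun n => ‖b n‖) (fun n => ‖T n‖)
    exact le_trans (pow_le_pow_left₀ hS0 h1 2) h3
  -- the sum of the norms
  have hN1 : W * ∑ χ ∈ X, ‖B χ‖ ≤ S := by
    rw [mul_sum, hS]
    refine sum_le_sum fun χ hχ => ?_
    have h1 := hX χ hχ
    have h2 : W ≤ ‖B χ‖ := h1
    have h0 := norm_nonneg (B χ)
    nlinarith
  have hsum0 : 0 ≤ ∑ χ ∈ X, ‖B χ‖ := sum_nonneg fun χ _ => norm_nonneg _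
  have h1 : 2 * (G * (P' * (∑ χ ∈ X, ‖B χ‖) ^ 2)) ≤ S ^ 2 := by
    have h2 : (W * ∑ χ ∈ X, ‖B χ‖) ^ 2 ≤ S ^ 2 :=
      pow_le_pow_left₀ (mul_nonneg hW.le hsum0) hN1 2
    have h3 : 2 * G * P' * (∑ χ ∈ X, ‖B χ‖) ^ 2 ≤ W ^ 2 * (∑ χ ∈ X, ‖B χ‖) ^ 2 :=
      mul_le_mul_of_nonneg_right hWP' (by positivity)
    nlinarith
  have h2 : S ^ 2 ≤ G * (N * S) + S ^ 2 / 2 := by
    have h3 := mul_le_mul_of_nonneg_left hTT hG0
    nlinarith
  rcases hS0.eq_or_lt with h3 | h3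
  · rw [← h3]; positivity
  · have h4 : S * S ≤ (2 * N * G) * S := by nlinarith
    exact le_of_mul_le_mul_right h4 h3

end Pool.Agent.HN
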