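import Pool.Agent.Work.MP_92f640_nt.HN.PV
import Pool.Agent.Work.MP_92f640_nt.HN.HalMont
import Pool.Agent.Work.MP_92f640_nt.HT.Coef
import Pool.Agent.Work.MP_92f640_nt.HS.CtlVar
import Pool.Agent.Work.BV.Vaughan

/-! # Module LargeV: large values of a product of two character sums

`Ac = ∑_{v < c ≤ u} a_c χ(c)`, `Bc = ∑_{l ≤ K} b_l χ(l)`, `G = ∑ ‖b‖² ≤ C K L^16`, `P = C √k (1 + log k)`, `W² = 2 G P` (if `G = 0` all is `0`). Three parts of `X`:
`‖Bc‖ ≥ W`: `hal_mont`, `(2ρu)² 2 K G`. `‖Ac‖ ≤ u/U`: `CtlVar.mv1`: `(u/U)² (K + k) G ≤ C L^16 (x² + k u x)/U²`. The rest: `≤ W² ∑ ‖Ac‖^10 (U/u)^8`,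
`Ac^5` has length `u^5` and coefficients `≤ τ(n)^4` (as in HT/FourthPrim `sq_char`, `sqc`, or BadF): `≤ C (u^5 + k) u^5 L^c`. Total `2 G P (U/u)^8 (u^5 + k) u^5 L^c ≤ C L^c (u K) u √k U^8 (1 + k/u^5)`. -/

namespace Pool.Agent.HN

open Finset Pool.Agent.BV Pool.Agent.HL

namespace LargeVaux

noncomputable section

/-- coefficients of the `J`-th power of the sum of `f(n)` over `n ≤ v` -/
def pcc (f : ℕ → ℂ) (v : ℕ) : ℕ → ℕ → ℂ
  | 0 => fun n => if n = 1 then 1 else 0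
  | J + 1 => fun n => ∑ p ∈ n.divisorsAntidiagonal, (if p.1 ≤ v then f p.1 else 0) * pcc f v J p.2

lemma pcc_succ (f : ℕ → ℂ) (v J n : ℕ) : pcc f v (J + 1) n =
    ∑ p ∈ n.divisorsAntidiagonal, (if p.1 ≤ v then f p.1 else 0) * pcc f v J p.2 := rfl

lemma pcc_norm {f : ℕ → ℂ} (hf : ∀ n, ‖f n‖ ≤ 1) (v J n : ℕ) (hn : 1 ≤ n) :
    ‖pcc f v (J + 1) n‖ ≤ (n.divisors.card : ℝ) ^ J := by
  induction J generalizing n with
  | zero =>
    rw [pcc_succ, pow_zero]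
    have h1 : ∀ p ∈ n.divisorsAntidiagonal, p ≠ (n, 1) →
        (if p.1 ≤ v then f p.1 else 0) * pcc f v 0 p.2 = 0 := by
      intro p hp hne
      rw [Nat.mem_divisorsAntidiagonal] at hp
      have h2 : p.2 ≠ 1 := by
        intro h
        apply hne
        rw [h, mul_one] at hp
        exact Prod.ext hp.1 h
      show _ * (if p.2 = 1 then (1 : ℂ) else 0) = 0
      rw [if_neg h2, mul_zero]
    rw [sum_eq_single (n, 1) h1 (fun h => absurd
      (Nat.mem_divisorsAntidiagonal.mpr ⟨mul_one n, by omega⟩) h)]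
    show ‖(if n ≤ v then f n else 0) * (if 1 = 1 then (1 : ℂ) else 0)‖ ≤ 1
    rw [if_pos rfl, mul_one]
    split_ifs
    · exact hf n
    · simp
  | succ J ih =>
    rw [pcc_succ]
    calc ‖∑ p ∈ n.divisorsAntidiagonal, (if p.1 ≤ v then f p.1 else 0) * pcc f v (J + 1) p.2‖
        ≤ ∑ p ∈ n.divisorsAntidiagonal, ‖(if p.1 ≤ v then f p.1 else 0) * pcc f v (J + 1) p.2‖ :=
          norm_sum_le _ _
      _ ≤ ∑ p ∈ n.divisorsAntidiagonal, (n.divisors.card : ℝ) ^ J := by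
          refine sum_le_sum fun p hp => ?_
          rw [Nat.mem_divisorsAntidiagonal] at hp
          have hp2 : 1 ≤ p.2 := Nat.pos_of_ne_zero (by
            rintro h; rw [h, mul_zero] at hp; omega)
          have h1 : ‖pcc f v (J + 1) p.2‖ ≤ (n.divisors.card : ℝ) ^ J := by
            refine (ih _ hp2).trans (pow_le_pow_left₀ (by positivity) ?_ _)
            have : p.2.divisors ⊆ n.divisors :=
              Nat.divisors_subset_of_dvd hp.2 (Dvd.intro_left _ hp.1)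
            exact_mod_cast card_le_card this
          have h2 : ‖(if p.1 ≤ v then f p.1 else 0 : ℂ)‖ ≤ 1 := by
            split_ifs
            · exact hf _
            · simp
          rw [norm_mul]
          calc ‖(if p.1 ≤ v then f p.1 else 0 : ℂ)‖ * ‖pcc f v (J + 1) p.2‖
              ≤ 1 * (n.divisors.card : ℝ) ^ J :=
                mul_le_mul h2 h1 (norm_nonneg _) zero_le_one
            _ = _ := one_mul _
      _ = (n.divisors.card : ℝ) ^ (J + 1) := by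
          rw [sum_const, nsmul_eq_mul, pow_succ, mul_comm]
          congr 2
          rw [← Nat.map_div_right_divisors, card_map]

lemma pcc_zero_of_lt (f : ℕ → ℂ) {v : ℕ} (J n : ℕ) (hn : v ^ J < n) : pcc f v J n = 0 := by
  induction J generalizing n with
  | zero => unfold pcc; rw [if_neg]; simpa using (by simpa using hn : 1 < n).ne'
  | succ J ih =>
    rw [pcc_succ]
    refine sum_eq_zero fun p hp => ?_
    rw [Nat.mem_divisorsAntidiagonal] at hp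
    by_cases h : p.1 ≤ v
    · rw [ih, mul_zero]
      by_contra h2
      push Not at h2
      have : p.1 * p.2 ≤ v ^ (J + 1) := by
        rw [pow_succ, mul_comm (v ^ J)]
        exact Nat.mul_le_mul h h2
      omega
    · rw [if_neg h, zero_mul]

/-- product formula for a completely multiplicative weight -/
lemma pcc_sum (f : ℕ → ℂ) {v : ℕ} (w : ℕ → ℂ) (h1 : w 1 = 1)
    (hw : ∀ a b, w (a * b) = w a * w b) (J : ℕ) :
    ∑ n ∈ Icc 1 (v ^ J), pcc f v J n * w n = (∑ n ∈ Icc 1 v, f n * w n) ^ J := by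
  induction J with
  | zero => simp [pcc, h1]
  | succ J ih =>
    have e1 : ∑ n ∈ Icc 1 (v ^ (J + 1)), pcc f v (J + 1) n * w n =
        ∑ n ∈ Icc 1 (v ^ (J + 1)), ∑ p ∈ n.divisorsAntidiagonal,
          ((if p.1 ≤ v then f p.1 else 0) * w p.1) * (pcc f v J p.2 * w p.2) := by
      refine sum_congr rfl fun n _ => ?_
      rw [pcc_succ, sum_mul]
      refine sum_congr rfl fun p hp => ?_
      rw [Nat.mem_divisorsAntidiagonal] at hp
      rw [← hp.1, hw]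
      ring
    rw [e1, vaughan_sum_conv (fun a => (if a ≤ v then f a else 0) * w a)
      (fun b => pcc f v J b * w b)]
    have e2 : ∀ a ∈ Icc 1 (v ^ (J + 1)), ∑ b ∈ Icc 1 (v ^ (J + 1) / a),
        ((if a ≤ v then f a else 0) * w a) * (pcc f v J b * w b) =
        (if a ≤ v then f a * w a else 0) *
          ∑ b ∈ Icc 1 (v ^ J), pcc f v J b * w b := by
      intro a ha
      rw [mem_Icc] at ha
      by_cases h : a ≤ v
      · rw [← mul_sum]
        simp only [h, if_true]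
        congr 1
        symm
        refine sum_subset ?_ ?_
        · intro b hb
          rw [mem_Icc] at hb ⊢
          refine ⟨hb.1, hb.2.trans ?_⟩
          rw [Nat.le_div_iff_mul_le ha.1, pow_succ]
          exact Nat.mul_le_mul_left _ h
        · intro b _ hb
          rw [mem_Icc] at hb
          by_cases hb0 : b = 0
          · subst hb0
            have : pcc f v J 0 = 0 := by
              cases J with
              | zero => simp [pcc]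
              | succ J => simp [pcc]
            simp [this]
          · rw [pcc_zero_of_lt f J b (by omega)]
            simp
      · simp [h]
    rw [sum_congr rfl e2, ← sum_mul, ih, pow_succ, mul_comm, ← sum_filter]
    congr 1
    refine sum_congr ?_ fun _ _ => rfl
    ext n
    simp only [mem_filter, mem_Icc]
    constructor
    · rintro ⟨⟨h1, -⟩, h2⟩; exact ⟨h1, h2⟩
    · rintro ⟨h1, h2⟩
      exact ⟨⟨h1, h2.trans (Nat.le_self_pow (Nat.succ_ne_zero J) v)⟩, h2⟩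

/-- the tenth moment of a character sum -/
lemma tenth {C₃ : ℝ} (hτ : ∀ x N : ℕ, 3 ≤ x → N ≤ x →
      ∑ n ∈ Icc 1 N, (n.divisors.card : ℝ) ^ 8 ≤ C₃ * N * (Real.log x) ^ (2 ^ 8))
    (k : ℕ) [NeZero k] (x v u : ℕ) (a : ℕ → ℂ) (hx : 3 ≤ x) (hux : u ≤ x)
    (ha : ∀ c, ‖a c‖ ≤ 1) (X : Finset (DirichletCharacter ℂ k)) :
    ∑ χ ∈ X, ‖∑ c ∈ Ioc v u, a c * χ (c : ZMod k)‖ ^ 10 ≤
      ((u : ℝ) ^ 5 + k) * (C₃ * (u : ℝ) ^ 5 * (5 * Real.log x) ^ 256) := by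
  set f : ℕ → ℂ := fun c => if v < c then a c else 0 with hf
  have hf1 : ∀ c, ‖f c‖ ≤ 1 := by
    intro c
    rw [hf]
    simp only
    split_ifs
    · exact ha c
    · simp
  have e1 : ∀ χ ∈ X, ‖∑ c ∈ Ioc v u, a c * χ (c : ZMod k)‖ ^ 10 =
      ‖∑ n ∈ Icc 1 (u ^ 5), pcc f u 5 n * χ (n : ZMod k)‖ ^ 2 := by
    intro χ _
    rw [pcc_sum f (fun n => χ (n : ZMod k)) (by simp) (fun a b => by push_cast; rw [map_mul]) 5,
      norm_pow, ← pow_mul]
    congr 2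
    rw [hf]
    simp only [ite_mul, zero_mul]
    rw [← sum_filter]
    refine sum_congr ?_ fun _ _ => rfl
    ext n
    simp only [mem_filter, mem_Icc, mem_Ioc]
    omega
  rw [sum_congr rfl e1]
  refine (HS.CtlVar.mv1 k (u ^ 5) (pcc f u 5) X).trans ?_
  push_cast
  refine mul_le_mul_of_nonneg_left ?_ (by positivity)
  have h1 : ∀ n ∈ Icc 1 (u ^ 5), ‖pcc f u 5 n‖ ^ 2 ≤ (n.divisors.card : ℝ) ^ 8 := by
    intro n hn
    rw [mem_Icc] at hn
    have h2 := pow_le_pow_left₀ (norm_nonneg _) (pcc_norm hf1 u 4 n hn.1) 2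
    rw [← pow_mul] at h2
    exact h2
  refine (sum_le_sum h1).trans ?_
  have h4 := hτ (x ^ 5) (u ^ 5) (le_trans hx (Nat.le_self_pow (by omega) x))
    (Nat.pow_le_pow_left hux 5)
  push_cast at h4
  rw [Real.log_pow] at h4
  norm_num at h4
  exact h4

end

end LargeVaux

open LargeVaux in
theorem large_v : ∃ (C : ℝ) (c : ℕ), 0 < C ∧ ∀ (x k v u K : ℕ) [NeZero k] (a b : ℕ → ℂ) (U ρ : ℝ),
    3 ≤ x → k ≤ x → 1 ≤ u → u ≤ x → u * K ≤ x → (∀ c, ‖a c‖ ≤ 1) →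
    (∀ l, ‖b l‖ ≤ (l.divisors.card : ℝ) ^ 2) → 1 ≤ U → 0 ≤ ρ →
    ∀ X : Finset (DirichletCharacter ℂ k),
    (∀ χ ∈ X, ‖∑ c ∈ Ioc v u, a c * χ (c : ZMod k)‖ ≤ 2 * ρ * u) →
    ∑ χ ∈ X, ‖∑ c ∈ Ioc v u, a c * χ (c : ZMod k)‖ ^ 2 * ‖∑ l ∈ Icc 1 K, b l * χ (l : ZMod k)‖ ^ 2 ≤
      C * (Real.log x) ^ c * (ρ ^ 2 * (x : ℝ) ^ 2 + (x : ℝ) * (x + k * u) / U ^ 2 +
        (x : ℝ) * u * Real.sqrt k * U ^ 8 * (1 + (k : ℝ) / (u : ℝ) ^ 5)) := by
  classical
  obtain ⟨C₁, hC₁, hpv⟩ := pv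
  obtain ⟨C₂, hC₂, hτ4⟩ := HT.tau_sum 4
  obtain ⟨C₃, hC₃, hτ8⟩ := HT.tau_sum 8
  obtain ⟨c5, hc5⟩ : ∃ c5 : ℝ, c5 = 5 ^ 256 := ⟨_, rfl⟩
  have hc5' : 0 < c5 := by rw [hc5]; positivity
  refine ⟨8 * C₂ + C₂ + 4 * C₁ * C₂ * C₃ * c5, 273, by positivity, ?_⟩
  intro x k v u K _ a b U ρ hx hkx hu hux huK ha hb hU hρ X hX
  have hL : 1 ≤ Real.log x := DivSum_log x hx
  set L := Real.log x with hLdef
  have hL0 : 0 < L := by linarith
  have hx0 : (0 : ℝ) < x := by exact_mod_cast (by omega : 0 < x)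
  have hk0 : (0 : ℝ) < k := by exact_mod_cast Nat.pos_of_ne_zero (NeZero.ne k)
  have hu0 : (0 : ℝ) < u := by exact_mod_cast hu
  have hU0 : 0 < U := by linarith
  have huK' : (u : ℝ) * K ≤ x := by exact_mod_cast huK
  rcases Nat.eq_zero_or_pos K with rfl | hK
  · have : ∑ χ ∈ X, ‖∑ c ∈ Ioc v u, a c * χ (c : ZMod k)‖ ^ 2 *
        ‖∑ l ∈ Icc 1 0, b l * χ (l : ZMod k)‖ ^ 2 = 0 := by
      refine sum_eq_zero fun χ _ => ?_
      simp
    rw [this]
    positivity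
  have hK0 : (0 : ℝ) < K := by exact_mod_cast hK
  set A : DirichletCharacter ℂ k → ℝ := fun χ => ‖∑ c ∈ Ioc v u, a c * χ (c : ZMod k)‖ with hA
  set B : DirichletCharacter ℂ k → ℝ := fun χ => ‖∑ l ∈ Icc 1 K, b l * χ (l : ZMod k)‖ with hB
  have hA0 : ∀ χ, 0 ≤ A χ := fun χ => norm_nonneg _
  have hB0 : ∀ χ, 0 ≤ B χ := fun χ => norm_nonneg _
  have hKx : K ≤ x := (Nat.le_mul_of_pos_left K hu).trans huK
  set G : ℝ := C₂ * K * L ^ 16 with hG
  have hG0 : 0 < G := by positivity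
  have hbG : ∑ l ∈ Icc 1 K, ‖b l‖ ^ 2 ≤ G := by
    refine le_trans ?_ (hτ4 x K hx hKx)
    refine sum_le_sum fun l _ => ?_
    calc ‖b l‖ ^ 2 ≤ ((l.divisors.card : ℝ) ^ 2) ^ 2 :=
          pow_le_pow_left₀ (norm_nonneg _) (hb l) 2
      _ = _ := by ring
  set P : ℝ := 2 * C₁ * Real.sqrt k * L with hP
  have hsk : 0 < Real.sqrt k := Real.sqrt_pos.2 hk0
  have hP0 : 0 < P := by positivity
  have hPb : ∀ χ : DirichletCharacter ℂ k, χ ≠ 1 → ∀ N : ℕ,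
      ‖∑ n ∈ Icc 1 N, χ (n : ZMod k)‖ ≤ P := by
    intro χ hχ N
    refine (hpv k χ hχ N).trans ?_
    have h1 : Real.log k ≤ L := Real.log_le_log hk0 (by exact_mod_cast hkx)
    have h2 : 1 + Real.log k ≤ 2 * L := by linarith
    calc C₁ * Real.sqrt k * (1 + Real.log k) ≤ C₁ * Real.sqrt k * (2 * L) :=
          mul_le_mul_of_nonneg_left h2 (by positivity)
      _ = _ := by rw [hP]; ring
  set W : ℝ := Real.sqrt (2 * G * P) with hW
  have hW0 : 0 < W := Real.sqrt_pos.2 (by positivity)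
  have hW2 : W ^ 2 = 2 * G * P := Real.sq_sqrt (by positivity)
  have hWP : 2 * (∑ n ∈ Icc 1 K, ‖b n‖ ^ 2) * P ≤ W ^ 2 := by
    rw [hW2]
    have := mul_le_mul_of_nonneg_right hbG hP0.le
    linarith
  -- the three parts
  have hpt : ∀ χ ∈ X, A χ ^ 2 * B χ ^ 2 ≤ (if W ≤ B χ then (2 * ρ * u) ^ 2 * B χ ^ 2 else 0) +
      (u / U) ^ 2 * B χ ^ 2 + W ^ 2 * (U / u) ^ 8 * A χ ^ 10 := by
    intro χ hχ
    have h1 : 0 ≤ (u / U) ^ 2 * B χ ^ 2 := by positivity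
    have h2 : 0 ≤ W ^ 2 * (U / u) ^ 8 * A χ ^ 10 := by
      have := hA0 χ
      positivity
    by_cases hc1 : W ≤ B χ
    · rw [if_pos hc1]
      have h3 : A χ ^ 2 ≤ (2 * ρ * u) ^ 2 := pow_le_pow_left₀ (hA0 χ) (hX χ hχ) 2
      have h4 := mul_le_mul_of_nonneg_right h3 (sq_nonneg (B χ))
      linarith
    · rw [if_neg hc1, zero_add]
      push Not at hc1
      by_cases hc2 : A χ ≤ u / U
      · have h3 : A χ ^ 2 ≤ (u / U) ^ 2 := pow_le_pow_left₀ (hA0 χ) hc2 2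
        have h4 := mul_le_mul_of_nonneg_right h3 (sq_nonneg (B χ))
        linarith
      · push Not at hc2
        have h3 : B χ ^ 2 ≤ W ^ 2 := pow_le_pow_left₀ (hB0 χ) hc1.le 2
        have h5 : 1 ≤ A χ * (U / u) := by
          have h6 : u / U * (U / u) ≤ A χ * (U / u) :=
            mul_le_mul_of_nonneg_right hc2.le (by positivity)
          have h7 : (u : ℝ) / U * (U / u) = 1 := by field_simp
          linarith
        have h8 : 1 ≤ (A χ * (U / u)) ^ 8 := one_le_pow₀ h5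
        have h9 : A χ ^ 2 * B χ ^ 2 ≤ A χ ^ 2 * W ^ 2 :=
          mul_le_mul_of_nonneg_left h3 (sq_nonneg _)
        have h10 : A χ ^ 2 * W ^ 2 ≤ A χ ^ 2 * W ^ 2 * (A χ * (U / u)) ^ 8 :=
          le_mul_of_one_le_right (by positivity) h8
        have h11 : A χ ^ 2 * W ^ 2 * (A χ * (U / u)) ^ 8 = W ^ 2 * (U / u) ^ 8 * A χ ^ 10 := by
          ring
        linarith
  refine (sum_le_sum hpt).trans ?_
  rw [sum_add_distrib, sum_add_distrib, ← sum_filter, ← mul_sum, ← mul_sum, ← mul_sum]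
  have s1 : ∑ χ ∈ X.filter (fun χ => W ≤ B χ), B χ ^ 2 ≤ 2 * K * G := by
    refine (hal_mont k P hPb K b W hW0 hWP (X.filter (fun χ => W ≤ B χ))
      (fun χ hχ => (mem_filter.1 hχ).2)).trans ?_
    exact mul_le_mul_of_nonneg_left hbG (by positivity)
  have s2 : ∑ χ ∈ X, B χ ^ 2 ≤ (K + k) * G := by
    refine (HS.CtlVar.mv1 k K b X).trans ?_
    exact mul_le_mul_of_nonneg_left hbG (by positivity)
  have s3 := tenth hτ8 k x v u a hx hux ha X
  rw [mul_pow, ← hc5] at s3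
  -- sizes
  have huK0 : (0 : ℝ) ≤ u * K := by positivity
  have t1 : (2 * ρ * u) ^ 2 * (2 * K * G) ≤ 8 * C₂ * L ^ 273 * (ρ ^ 2 * (x : ℝ) ^ 2) := by
    have h1 : ((u : ℝ) * K) ^ 2 ≤ (x : ℝ) ^ 2 := pow_le_pow_left₀ huK0 huK' 2
    have h2 : L ^ 16 ≤ L ^ 273 := pow_le_pow_right₀ hL (by norm_num)
    calc (2 * ρ * u) ^ 2 * (2 * K * G) = 8 * C₂ * L ^ 16 * (ρ ^ 2 * ((u : ℝ) * K) ^ 2) := by
          rw [hG]; ring
      _ ≤ 8 * C₂ * L ^ 273 * (ρ ^ 2 * (x : ℝ) ^ 2) := by gcongr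
  have t2 : (u / U) ^ 2 * ((K + k) * G) ≤ C₂ * L ^ 273 * ((x : ℝ) * (x + k * u) / U ^ 2) := by
    have h1 : ((u : ℝ) * K) * (u * K + k * u) ≤ (x : ℝ) * (x + k * u) :=
      mul_le_mul huK' (by linarith) (by positivity) hx0.le
    have h2 : L ^ 16 ≤ L ^ 273 := pow_le_pow_right₀ hL (by norm_num)
    calc (u / U) ^ 2 * ((K + k) * G) = C₂ * L ^ 16 * (((u : ℝ) * K) * (u * K + k * u) / U ^ 2) := by
          rw [hG]; field_simp
      _ ≤ C₂ * L ^ 273 * ((x : ℝ) * (x + k * u) / U ^ 2) := by gcongr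
  have t3 : W ^ 2 * (U / u) ^ 8 * (((u : ℝ) ^ 5 + k) * (C₃ * (u : ℝ) ^ 5 * (c5 * L ^ 256))) ≤
      4 * C₁ * C₂ * C₃ * c5 * L ^ 273 *
        ((x : ℝ) * u * Real.sqrt k * U ^ 8 * (1 + (k : ℝ) / (u : ℝ) ^ 5)) := by
    calc W ^ 2 * (U / u) ^ 8 * (((u : ℝ) ^ 5 + k) * (C₃ * (u : ℝ) ^ 5 * (c5 * L ^ 256)))
        = 4 * C₁ * C₂ * C₃ * c5 * L ^ 273 *
          (((u : ℝ) * K) * u * Real.sqrt k * U ^ 8 * (1 + (k : ℝ) / (u : ℝ) ^ 5)) := by
          rw [hW2, hG, hP]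
          field_simp
          ring
      _ ≤ _ := by gcongr
  have r1 := mul_le_mul_of_nonneg_left s1 (sq_nonneg (2 * ρ * u))
  have r2 := mul_le_mul_of_nonneg_left s2 (sq_nonneg ((u : ℝ) / U))
  have r3 := mul_le_mul_of_nonneg_left s3 (by positivity : 0 ≤ W ^ 2 * (U / u) ^ 8)
  set T1 := ρ ^ 2 * (x : ℝ) ^ 2 with hT1
  set T2 := (x : ℝ) * (x + k * u) / U ^ 2 with hT2
  set T3 := (x : ℝ) * u * Real.sqrt k * U ^ 8 * (1 + (k : ℝ) / (u : ℝ) ^ 5) with hT3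
  have hT10 : 0 ≤ T1 := by positivity
  have hT20 : 0 ≤ T2 := by positivity
  have hT30 : 0 ≤ T3 := by positivity
  have hκ0 : 0 ≤ 4 * C₁ * C₂ * C₃ * c5 := by positivity
  have hZ0 : 0 ≤ L ^ 273 := pow_nonneg hL0.le _
  generalize L ^ 273 = Z at *
  generalize 4 * C₁ * C₂ * C₃ * c5 = κ at *
  have p1 : 0 ≤ C₂ * (Z * T1) := by positivity
  have p2 : 0 ≤ C₂ * (Z * T2) := by positivity
  have p3 : 0 ≤ C₂ * (Z * T3) := by positivity
  have p4 : 0 ≤ κ * (Z * T1) := by positivity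
  have p5 : 0 ≤ κ * (Z * T2) := by positivity
  calc _ ≤ 8 * C₂ * Z * T1 + C₂ * Z * T2 + κ * Z * T3 :=
        add_le_add (add_le_add (r1.trans t1) (r2.trans t2)) (r3.trans t3)
    _ ≤ 8 * C₂ * Z * T1 + C₂ * Z * T2 + κ * Z * T3 + (C₂ * (Z * T1) + 8 * (C₂ * (Z * T2)) +
        9 * (C₂ * (Z * T3)) + κ * (Z * T1) + κ * (Z * T2)) := by linarith
    _ = _ := by ring

end Pool.Agent.HN
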