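import Pool.Agent.Work.MP_92f640_nt.HN.Defs
import Pool.Agent.Work.MP_92f640_nt.HS.CtlVar

/-! # Helpers for module MinorII (helper37) -/

namespace Pool.Agent.HN.MinII

open Finset Pool.Agent.BV Pool.Agent.HL Pool.Agent.HS
open Pool.Agent.HS.CtlVar

/-- `CtlVar.decomp` for an arbitrary function `ψ` -/
theorem decompG (ψ : ℕ → ℂ) (a b : ℕ → ℂ) (g : ℕ → ℕ) (hg : Monotone g)
    (y I M : ℕ) (hM : ∀ i < I, ∀ c ∈ Ioc (g i) (g (i + 1)), ∀ l, y / g (i + 1) < l → M < c * l)
    (ha : ∀ c, a c ≠ 0 → g 0 < c ∧ c ≤ g I) :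
    ∑ n ∈ Icc 1 y, (∑ p ∈ n.divisorsAntidiagonal, a p.1 * b p.2) * ψ n =
      ∑ i ∈ range I, ∑ c ∈ Ioc (g i) (g (i + 1)), ∑ l ∈ Icc 1 (y / g (i + 1)),
        a c * b l * ψ (c * l) +
      ∑ n ∈ Ioc M y, ecf a b g y I n * ψ n := by
  set t : ℕ → ℕ → ℂ := fun c l => a c * b l * ψ (c * l) with ht
  set f : ℕ → ℂ := fun c => ∑ l ∈ Icc 1 y, if c * l ≤ y then t c l else 0 with hf
  have h1 : ∑ n ∈ Icc 1 y, (∑ p ∈ n.divisorsAntidiagonal, a p.1 * b p.2) * ψ n =
      ∑ c ∈ Ioc (g 0) (g I), f c := by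
    rw [expand y a b ψ]
    have hz1 : ∀ c, y < c → f c = 0 := by
      intro c hc
      refine Finset.sum_eq_zero fun l hl => ?_
      rw [mem_Icc] at hl
      have : y < c * l := lt_of_lt_of_le hc (Nat.le_mul_of_pos_right c (by omega))
      rw [if_neg (not_le.2 this)]
    have hz2 : ∀ c, ¬ (g 0 < c ∧ c ≤ g I) → f c = 0 := by
      intro c hc
      have h0 : a c = 0 := by
        by_contra h
        exact hc (ha c h)
      refine Finset.sum_eq_zero fun l _ => ?_
      rw [ht]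
      simp [h0]
    have e1 : ∑ c ∈ Icc 1 (max y (g I)), f c = ∑ c ∈ Icc 1 y, f c := by
      symm
      refine Finset.sum_subset (Icc_subset_Icc_right (le_max_left _ _)) ?_
      intro c hc hc'
      rw [mem_Icc] at hc hc'
      exact hz1 c (by omega)
    have e2 : ∑ c ∈ Icc 1 (max y (g I)), f c = ∑ c ∈ Ioc (g 0) (g I), f c := by
      symm
      refine Finset.sum_subset ?_ ?_
      · intro c hc
        rw [mem_Ioc] at hc
        rw [mem_Icc]
        exact ⟨by omega, hc.2.trans (le_max_right _ _)⟩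
      intro c hc hc'
      rw [mem_Ioc] at hc'
      exact hz2 c hc'
    rw [← e2, e1]
  rw [h1, ← sum_blocks0 g hg f I]
  have h2 : ∀ i ∈ range I, ∀ c ∈ Ioc (g i) (g (i + 1)), f c =
      (∑ l ∈ Icc 1 (y / g (i + 1)), t c l) +
      ∑ l ∈ Icc 1 y, if c * l ≤ y ∧ y / g (i + 1) < l then t c l else 0 := by
    intro i _ c hc
    rw [mem_Ioc] at hc
    have e1 : ∀ l ∈ Icc 1 y, (if c * l ≤ y then t c l else 0) =
        (if l ≤ y / g (i + 1) then t c l else 0) +
          (if c * l ≤ y ∧ y / g (i + 1) < l then t c l else 0) := by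
      intro l _
      by_cases hk : l ≤ y / g (i + 1)
      · have h3 : c * l ≤ y := by
          calc c * l ≤ g (i + 1) * (y / g (i + 1)) := Nat.mul_le_mul hc.2 hk
            _ ≤ y := Nat.mul_div_le y _
        rw [if_pos h3, if_pos hk, if_neg (fun h => absurd h.2 (not_lt.2 hk)), add_zero]
      · rw [if_neg hk, zero_add]
        simp only [not_le.1 hk, and_true]
    rw [hf]
    simp only
    rw [Finset.sum_congr rfl e1, Finset.sum_add_distrib]
    congr 1
    rw [← Finset.sum_filter]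
    have e2 : (Icc 1 y).filter (fun l => l ≤ y / g (i + 1)) = Icc 1 (y / g (i + 1)) := by
      ext l
      simp only [mem_filter, mem_Icc]
      have := Nat.div_le_self y (g (i + 1))
      omega
    rw [e2]
  have h3 : ∑ i ∈ range I, ∑ c ∈ Ioc (g i) (g (i + 1)), f c =
      ∑ i ∈ range I, ∑ c ∈ Ioc (g i) (g (i + 1)), ∑ l ∈ Icc 1 (y / g (i + 1)), t c l +
      ∑ i ∈ range I, ∑ c ∈ Ioc (g i) (g (i + 1)),
        ∑ l ∈ Icc 1 y, if c * l ≤ y ∧ y / g (i + 1) < l then t c l else 0 := by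
    rw [← Finset.sum_add_distrib]
    refine Finset.sum_congr rfl fun i hi => ?_
    rw [Finset.sum_congr rfl (h2 i hi), Finset.sum_add_distrib]
  rw [h3]
  congr 1
  have h4 : ∀ n ∈ Ioc M y, ecf a b g y I n * ψ n =
      ∑ i ∈ range I, ∑ c ∈ Ioc (g i) (g (i + 1)), ∑ l ∈ Icc 1 y,
        if c * l = n then (if y / g (i + 1) < l then t c l else 0) else 0 := by
    intro n _
    unfold ecf
    rw [Finset.sum_mul]
    refine Finset.sum_congr rfl fun i _ => ?_
    rw [Finset.sum_mul]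
    refine Finset.sum_congr rfl fun c _ => ?_
    rw [Finset.sum_mul]
    refine Finset.sum_congr rfl fun l _ => ?_
    by_cases h5 : c * l = n
    · by_cases h6 : y / g (i + 1) < l
      · rw [if_pos ⟨h5, h6⟩, if_pos h5, if_pos h6, ht, ← h5]
      · rw [if_neg (fun h => h6 h.2), if_pos h5, if_neg h6, zero_mul]
    · rw [if_neg (fun h => h5 h.1), if_neg h5, zero_mul]
  rw [Finset.sum_congr rfl h4]
  refine Eq.trans ?_ Finset.sum_comm
  refine Finset.sum_congr rfl fun i hi => ?_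
  refine Eq.trans ?_ Finset.sum_comm
  refine Finset.sum_congr rfl fun c hc => ?_
  refine Eq.trans ?_ Finset.sum_comm
  refine Finset.sum_congr rfl fun l _ => ?_
  rw [Finset.sum_ite_eq]
  by_cases h6 : y / g (i + 1) < l
  · have h7 := hM i (mem_range.1 hi) c hc l h6
    simp only [h6, and_true, if_true, mem_Ioc, h7, true_and]
  · simp only [h6, and_false, if_false, ite_self]

/-- the number of integers of a residue class in an interval -/
lemma card_class {q : ℕ} (hq : 1 ≤ q) {M y : ℕ} (hMy : M ≤ y) (a : ℕ) :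
    (((Ioc M y).filter (fun n => n % q = a)).card : ℝ) ≤ ((y : ℝ) - M) / q + 1 := by
  have hq0 : (0 : ℝ) < q := by exact_mod_cast hq
  have h0 : (0 : ℝ) ≤ ((y : ℝ) - M) / q := by
    have : (M : ℝ) ≤ y := by exact_mod_cast hMy
    exact div_nonneg (by linarith) hq0.le
  by_cases ha : a < q
  · have h1 : (Ioc M y).filter (fun n => n % q = a) = (Ioc M y).filter (fun n => n ≡ a [MOD q]) := by
      refine filter_congr fun n _ => ?_
      unfold Nat.ModEq
      rw [Nat.mod_eq_of_lt ha]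
    have h2 := Nat.Ioc_filter_modEq_card (a := M) (b := y) (r := q) (by omega) a
    rw [h1]
    have h3 : (((Ioc M y).filter (fun n => n ≡ a [MOD q])).card : ℝ) =
        ((((Ioc M y).filter (fun n => n ≡ a [MOD q])).card : ℤ) : ℝ) := by push_cast; rfl
    rw [h3, h2]
    push_cast
    refine max_le ?_ (by linarith)
    have h4 := Int.floor_le (((y : ℚ) - a) / q)
    have h5 := Int.lt_floor_add_one (((M : ℚ) - a) / q)
    have h6 : ((⌊((y : ℚ) - a) / q⌋ : ℚ) - ⌊((M : ℚ) - a) / q⌋) ≤ ((y : ℚ) - M) / q + 1 := by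
      have : ((y : ℚ) - a) / q - ((M : ℚ) - a) / q = ((y : ℚ) - M) / q := by ring
      linarith
    have h7 : (((⌊((y : ℚ) - a) / q⌋ : ℚ) - ⌊((M : ℚ) - a) / q⌋ : ℚ) : ℝ) ≤
        ((((y : ℚ) - M) / q + 1 : ℚ) : ℝ) := by exact_mod_cast h6
    push_cast at h7
    exact h7
  · have h1 : (Ioc M y).filter (fun n => n % q = a) = ∅ := by
      refine filter_eq_empty_iff.2 fun n _ h => ha ?_
      rw [← h]
      exact Nat.mod_lt _ (by omega)
    rw [h1, card_empty, Nat.cast_zero]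
    linarith

/-- mean square over the classes -/
lemma classes_sq {q : ℕ} (hq : 1 ≤ q) {M y : ℕ} (hMy : M ≤ y) (u : ℕ → ℂ) :
    ∑ a ∈ range q, ‖∑ n ∈ Ioc M y, (if n % q = a then u n else 0)‖ ^ 2 ≤
      (((y : ℝ) - M) / q + 1) * ∑ n ∈ Ioc M y, ‖u n‖ ^ 2 := by
  have hq0 : (0 : ℝ) < q := by exact_mod_cast hq
  have h0 : (0 : ℝ) ≤ ((y : ℝ) - M) / q + 1 := by
    have : (M : ℝ) ≤ y := by exact_mod_cast hMy
    have : 0 ≤ ((y : ℝ) - M) / q := div_nonneg (by linarith) hq0.le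
    linarith
  have h1 : ∀ a ∈ range q, ‖∑ n ∈ Ioc M y, (if n % q = a then u n else 0)‖ ^ 2 ≤
      (((y : ℝ) - M) / q + 1) * ∑ n ∈ (Ioc M y).filter (fun n => n % q = a), ‖u n‖ ^ 2 := by
    intro a _
    rw [← sum_filter]
    refine (sq_sum_le _ _).trans ?_
    exact mul_le_mul_of_nonneg_right (card_class hq hMy a) (sum_nonneg fun _ _ => sq_nonneg _)
  refine (sum_le_sum h1).trans ?_
  rw [← mul_sum]
  refine mul_le_mul_of_nonneg_left (le_of_eq ?_) h0
  exact sum_fiberwise_of_maps_to (fun n _ => mem_range.2 (Nat.mod_lt _ (by omega))) _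

/-- coefficients restricted to the integers coprime to `q` -/
noncomputable def cu (q : ℕ) (A : ℕ → ℝ) (c : ℕ) : ℂ := if c.Coprime q then ((A c : ℝ) : ℂ) else 0

lemma FA_conv (q : ℕ) (A B : ℕ → ℝ) (n : ℕ) :
    FA q (fun n => ∑ p ∈ n.divisorsAntidiagonal, A p.1 * B p.2) n =
      ∑ p ∈ n.divisorsAntidiagonal, cu q A p.1 * cu q B p.2 := by
  unfold FA cu
  by_cases hn : n.Coprime q
  · rw [if_pos hn]
    push_cast
    refine sum_congr rfl fun p hp => ?_
    have h1 := (Nat.mem_divisorsAntidiagonal.1 hp).1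
    have h2 : p.1.Coprime q := Nat.Coprime.coprime_dvd_left ⟨p.2, h1.symm⟩ hn
    have h3 : p.2.Coprime q := Nat.Coprime.coprime_dvd_left ⟨p.1, by rw [← h1]; ring⟩ hn
    rw [if_pos h2, if_pos h3]
  · rw [if_neg hn]
    symm
    refine sum_eq_zero fun p hp => ?_
    have h1 := (Nat.mem_divisorsAntidiagonal.1 hp).1
    by_cases h2 : p.1.Coprime q
    · by_cases h3 : p.2.Coprime q
      · exfalso
        apply hn
        rw [← h1]
        exact Nat.Coprime.mul_left h2 h3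
      · rw [if_neg h3, mul_zero]
    · rw [if_neg h2, zero_mul]

/-- the cut coefficients -/
noncomputable def cut (a : ℕ → ℂ) (m c : ℕ) : ℂ := if m < c then a c else 0

/-- the box term as a sum over `[1, X₁] × [1, X₂]` -/
lemma box_eq (q : ℕ) (a b : ℕ → ℂ) (α : ℝ) (r m X₁ X₂ : ℕ) :
    ∑ c ∈ Ioc m X₁, ∑ l ∈ Icc 1 X₂, a c * b l *
        (if (c * l) % q = r then e ((c * l : ℕ) * α) else 0) =
      ∑ c ∈ Icc 1 X₁, ∑ l ∈ Icc 1 X₂, if (c * l) % q = r then
        cut a m c * b l * e ((c * l : ℕ) * α) else 0 := by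
  have h1 : Ioc m X₁ = (Icc 1 X₁).filter (fun c => m < c) := by
    ext c
    simp only [mem_Ioc, mem_filter, mem_Icc]
    omega
  rw [h1, sum_filter]
  refine sum_congr rfl fun c _ => ?_
  by_cases hc : m < c
  · rw [if_pos hc]
    refine sum_congr rfl fun l _ => ?_
    unfold cut
    rw [if_pos hc]
    split_ifs
    · rfl
    · rw [mul_zero]
  · rw [if_neg hc]
    symm
    refine sum_eq_zero fun l _ => ?_
    unfold cut
    rw [if_neg hc]
    split_ifs
    · rw [zero_mul, zero_mul]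
    · rfl

/-- the variance is bounded by the boxes and the boundary -/
theorem VV_le {q : ℕ} (a b : ℕ → ℂ) (α : ℝ) (g : ℕ → ℕ) (hg : Monotone g)
    (y I M : ℕ) (hM : ∀ i < I, ∀ c ∈ Ioc (g i) (g (i + 1)), ∀ l, y / g (i + 1) < l → M < c * l)
    (ha : ∀ c, a c ≠ 0 → g 0 < c ∧ c ≤ g I) :
    VV q y (fun n => ∑ p ∈ n.divisorsAntidiagonal, a p.1 * b p.2) α ≤
      2 * (I * ∑ i ∈ range I, VB q (Icc 1 (g (i + 1))) (Icc 1 (y / g (i + 1)))
        (cut a (g i)) b α) +
      2 * ∑ r ∈ range q, ‖∑ n ∈ Ioc M y, (if n % q = r then ecf a b g y I n * e (n * α)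
        else 0)‖ ^ 2 := by
  unfold VV VB
  rw [sum_comm (s := range I), mul_sum, mul_sum, mul_sum, ← sum_add_distrib]
  refine sum_le_sum fun r _ => ?_
  have h1 : ∑ n ∈ (Icc 1 y).filter (fun n => n % q = r),
      (∑ p ∈ n.divisorsAntidiagonal, a p.1 * b p.2) * e (n * α) =
      ∑ n ∈ Icc 1 y, (∑ p ∈ n.divisorsAntidiagonal, a p.1 * b p.2) *
        (fun n : ℕ => if n % q = r then e (n * α) else 0) n := by
    rw [sum_filter]
    refine sum_congr rfl fun n _ => ?_
    simp only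
    split_ifs
    · rfl
    · rw [mul_zero]
  rw [h1, decompG _ a b g hg y I M hM ha]
  set u := ∑ i ∈ range I, ∑ c ∈ Ioc (g i) (g (i + 1)), ∑ l ∈ Icc 1 (y / g (i + 1)),
    a c * b l * (fun n : ℕ => if n % q = r then e (n * α) else 0) (c * l) with hu
  set v := ∑ n ∈ Ioc M y, ecf a b g y I n *
    (fun n : ℕ => if n % q = r then e (n * α) else 0) n with hv
  have hv' : v = ∑ n ∈ Ioc M y, (if n % q = r then ecf a b g y I n * e (n * α) else 0) := by
    refine sum_congr rfl fun n _ => ?_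
    simp only
    split_ifs
    · rfl
    · rw [mul_zero]
  have hu' : u = ∑ i ∈ range I, ∑ c ∈ Icc 1 (g (i + 1)), ∑ l ∈ Icc 1 (y / g (i + 1)),
      if (c * l) % q = r then cut a (g i) c * b l * e ((c * l : ℕ) * α) else 0 := by
    refine sum_congr rfl fun i _ => ?_
    exact box_eq q a b α r (g i) (g (i + 1)) (y / g (i + 1))
  rw [← hv']
  have h2 : ‖u + v‖ ^ 2 ≤ 2 * ‖u‖ ^ 2 + 2 * ‖v‖ ^ 2 := by
    have h4 := pow_le_pow_left₀ (norm_nonneg _) (norm_add_le u v) 2
    nlinarith [sq_nonneg (‖u‖ - ‖v‖)]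
  refine h2.trans (add_le_add_left (mul_le_mul_of_nonneg_left ?_ (by norm_num)) _)
  rw [hu']
  refine (sq_sum_le _ _).trans ?_
  rw [card_range]

end Pool.Agent.HN.MinII
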