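import Pool.Agent.Work.MP_92f640_nt.HN.BoxMinor
import Pool.Agent.Work.MP_92f640_nt.HS.CtlVar
import Pool.Agent.Work.MP_92f640_nt.HN.MinorIIA

/-! # Module MinorII: type II sums on the minor arcs

Cells for `c` as in HS/CtlVar (`gg`, at most `5 L/η` of them): `c` in a cell `(g i, g (i+1)]`, `l ≤ y/g(i+1)`: `box_minor` with `X₁ = g(i+1) ≤ w₂`, `X₂ = y/g(i+1) ≤ x/w₁`
(`A` cut to the cell, both cut to the integers coprime to `q`); Cauchy over the cells. Boundary: `n ∈ (M, y]`, `y - M ≤ 2 η x`, coefficients `≤ τ(n)³` (`ecf`, `norm_ecf_le`): `∑_a |∑_{n ≡ a}|² ≤ (2 η x/q + 1) ∑ τ(n)⁶`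
(`tau_short 6`; `q ≤ η x`). `expand`, `decomp` of HS/CtlVar are for characters; here the same with `ψ n = 1_{n % q = a} e(nα)` is not multiplicative: only the splitting of the sum over `(c, l)` is needed. -/

namespace Pool.Agent.HN

open Finset Pool.Agent.BV Pool.Agent.HL Pool.Agent.HS

theorem minor_II (η₁ : ℝ) (hη₁ : 0 < η₁) : ∃ (C : ℝ) (c : ℕ), 0 < C ∧ ∀ (x y q s w₁ w₂ : ℕ)
    (A B : ℕ → ℝ) (α η : ℝ) (b : ℤ), 3 ≤ x → y ≤ x → 1 ≤ q → (q : ℝ) ≤ (x : ℝ) ^ (1 - η₁) →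
    1 ≤ w₁ → w₁ ≤ w₂ → w₂ ≤ x → (∀ c, |A c| ≤ 1) → (∀ c, A c ≠ 0 → w₁ ≤ c ∧ c ≤ w₂) →
    (∀ l, |B l| ≤ (l.divisors.card : ℝ) ^ 2) → 1 ≤ s → s ≤ x → IsCoprime b (s : ℤ) →
    |q * α - b / s| ≤ (q : ℝ) / x → 0 < η → η ≤ 1 → 2 ≤ η * w₁ → (q : ℝ) ≤ η * x →
    VV q y (FA q (fun n => ∑ p ∈ n.divisorsAntidiagonal, A p.1 * B p.2)) α ≤ C * (Real.log x) ^ c *
      (1 / η ^ 2 * ((s : ℝ) * x + (x : ℝ) ^ 2 / (q * w₁) + (x : ℝ) * w₂ / q +
        (x : ℝ) ^ 2 / (q * (s : ℝ) ^ (1 / 4 : ℝ))) + (x : ℝ) ^ 2 / q * Real.sqrt η) := by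
  obtain ⟨K, c, hK, hbox⟩ := box_minor η₁ hη₁
  obtain ⟨C₁, hC₁, hτs⟩ := Pool.Agent.HT.tau_short 6
  refine ⟨50 * K + 9 * C₁, c + 2 + 4096, by positivity, ?_⟩
  intro x y q s w₁ w₂ A B α η b hx hyx hq hqx h1 h12 h2 hA hAs hB hs hsx hbs hα hη hη1 hηw hqη
  have hL : 1 ≤ Real.log x := DivSum_log x hx
  have hx0 : (0 : ℝ) < x := by exact_mod_cast (by omega : 0 < x)
  have hq0 : (0 : ℝ) < q := by exact_mod_cast hq
  have hw0 : (0 : ℝ) < w₁ := by exact_mod_cast h1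
  have hs0 : (0 : ℝ) < s := by exact_mod_cast hs
  have hyx' : (y : ℝ) ≤ x := by exact_mod_cast hyx
  -- coefficients
  set a := MinII.cu q A with ha
  set bb := MinII.cu q B with hbb
  have ha1 : ∀ c, ‖a c‖ ≤ 1 := by
    intro c
    rw [ha]
    unfold MinII.cu
    split_ifs
    · rw [Complex.norm_real, Real.norm_eq_abs]
      exact hA c
    · rw [norm_zero]
      exact zero_le_one
  have has : ∀ c, a c ≠ 0 → w₁ ≤ c ∧ c ≤ w₂ := by
    intro c hc
    apply hAs c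
    intro h0
    apply hc
    rw [ha]
    unfold MinII.cu
    rw [h0]
    simp
  have hac : ∀ c, ¬ c.Coprime q → a c = 0 := by
    intro c hc
    rw [ha]
    unfold MinII.cu
    rw [if_neg hc]
  have hb1 : ∀ l, ‖bb l‖ ≤ (l.divisors.card : ℝ) ^ 2 := by
    intro l
    rw [hbb]
    unfold MinII.cu
    split_ifs
    · rw [Complex.norm_real, Real.norm_eq_abs]
      exact hB l
    · rw [norm_zero]
      positivity
  have hbc : ∀ l, ¬ l.Coprime q → bb l = 0 := by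
    intro l hl
    rw [hbb]
    unfold MinII.cu
    rw [if_neg hl]
  have hFA : FA q (fun n => ∑ p ∈ n.divisorsAntidiagonal, A p.1 * B p.2) =
      fun n => ∑ p ∈ n.divisorsAntidiagonal, a p.1 * bb p.2 := by
    funext n
    exact MinII.FA_conv q A B n
  rw [hFA]
  -- cells
  set I : ℕ := ⌊4 * Real.log x / η⌋₊ + 1 with hI
  have hI1 : 4 * Real.log x / η < I := by
    rw [hI]
    push_cast
    exact Nat.lt_floor_add_one _
  have hI2 : (I : ℝ) ≤ 5 * Real.log x / η := by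
    rw [hI]
    push_cast
    have h3 : (⌊4 * Real.log x / η⌋₊ : ℝ) ≤ 4 * Real.log x / η := Nat.floor_le (by positivity)
    have h4 : 1 ≤ Real.log x / η := by
      rw [le_div_iff₀ hη]
      linarith
    calc (⌊4 * Real.log x / η⌋₊ : ℝ) + 1 ≤ 4 * Real.log x / η + Real.log x / η := by linarith
      _ = _ := by ring
  set g := CtlVar.gg η w₁ w₂ with hg
  have hgm : Monotone g := CtlVar.gg_mono hη.le w₁ w₂
  have hg0 : g 0 = w₁ - 1 := CtlVar.gg_zero h12
  have hgI : g I = w₂ := CtlVar.gg_end hη hη1 hx h1 h2 hI1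
  obtain ⟨M, hMle, hMlt⟩ : ∃ M : ℕ, (M : ℝ) ≤ (y : ℝ) * (1 - η) ∧
      (y : ℝ) * (1 - η) < M + 1 :=
    ⟨⌊(y : ℝ) * (1 - η)⌋₊, Nat.floor_le (mul_nonneg (Nat.cast_nonneg _) (by linarith)),
      Nat.lt_floor_add_one _⟩
  have hηx : 1 ≤ η * x := by
    have h3 : (w₁ : ℝ) ≤ x := by exact_mod_cast h12.trans h2
    have h4 : η * w₁ ≤ η * x := mul_le_mul_of_nonneg_left h3 hη.le
    linarith
  have hηy : 0 ≤ η * y := mul_nonneg hη.le (Nat.cast_nonneg _)
  have hηyx : η * y ≤ η * x := mul_le_mul_of_nonneg_left hyx' hη.le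
  have hMy : M ≤ y := by
    have : (M : ℝ) ≤ y := by linarith
    exact_mod_cast this
  have hMd : (y : ℝ) - M ≤ 2 * (η * x) := by linarith
  have hM : ∀ i < I, ∀ c ∈ Ioc (g i) (g (i + 1)), ∀ l, y / g (i + 1) < l → M < c * l := by
    intro i _ c hc l hl
    rw [mem_Ioc] at hc
    have hgp : 0 < g (i + 1) := by omega
    rw [Nat.div_lt_iff_lt_mul hgp] at hl
    have h4 : (y : ℝ) < l * g (i + 1) := by exact_mod_cast hl
    have h5 : (g (i + 1) : ℝ) ≤ (1 + η) * c :=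
      CtlVar.gg_ratio hη hc.1 (hc.2.trans (CtlVar.gg_le η w₁ w₂ (i + 1)))
    have hl0 : 0 < l := Nat.pos_of_ne_zero (by rintro rfl; simp at hl)
    have hc0 : 0 < c := by omega
    have hcl : (0 : ℝ) < c * l := by exact_mod_cast Nat.mul_pos hc0 hl0
    have h6 : (y : ℝ) ≤ (1 + η) * (c * l) := by
      calc (y : ℝ) ≤ l * g (i + 1) := h4.le
        _ ≤ l * ((1 + η) * c) := mul_le_mul_of_nonneg_left h5 (Nat.cast_nonneg _)
        _ = _ := by ring
    have h7 : (M : ℝ) < c * l := by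
      calc (M : ℝ) ≤ (y : ℝ) * (1 - η) := hMle
        _ ≤ ((1 + η) * (c * l)) * (1 - η) := mul_le_mul_of_nonneg_right h6 (by linarith)
        _ = (c * l) - η * η * (c * l) := by ring
        _ < c * l := by
            have : 0 < η * η * ((c : ℝ) * l) := by positivity
            linarith
    exact_mod_cast h7
  have hsup : ∀ c, a c ≠ 0 → g 0 < c ∧ c ≤ g I := by
    intro c hc
    have := has c hc
    rw [hg0, hgI]
    omega
  refine (MinII.VV_le a bb α g hgm y I M hM hsup).trans ?_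
  -- the boxes
  set S4 : ℝ := (s : ℝ) ^ (1 / 4 : ℝ) with hS4
  have hS40 : 0 < S4 := Real.rpow_pos_of_pos hs0 _
  set P : ℝ := (s : ℝ) * x + (x : ℝ) ^ 2 / (q * w₁) + (x : ℝ) * w₂ / q +
    (x : ℝ) ^ 2 / (q * S4) with hP
  have hP0 : 0 ≤ P := by positivity
  have hboxes : ∀ i ∈ range I, VB q (Icc 1 (g (i + 1))) (Icc 1 (y / g (i + 1)))
      (MinII.cut a (g i)) bb α ≤ K * (Real.log x) ^ c * P := by
    intro i _
    have hgi : w₁ ≤ g (i + 1) := CtlVar.le_gg hη h1 h12 (Nat.succ_ne_zero i)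
    have hgi2 : g (i + 1) ≤ w₂ := CtlVar.gg_le η w₁ w₂ (i + 1)
    have e1 : g (i + 1) * (y / g (i + 1)) ≤ x := (Nat.mul_div_le _ _).trans hyx
    have e2 : ∀ c, ‖MinII.cut a (g i) c‖ ≤ 1 := by
      intro c
      unfold MinII.cut
      split_ifs
      · exact ha1 c
      · rw [norm_zero]
        exact zero_le_one
    have e3 : ∀ c, ¬ c.Coprime q → MinII.cut a (g i) c = 0 := by
      intro c hc
      unfold MinII.cut
      split_ifs
      · exact hac c hc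
      · rfl
    refine (hbox x q s (g (i + 1)) (y / g (i + 1)) (MinII.cut a (g i)) bb α b hx hq hqx hs hsx e1
      e2 hb1 e3 hbc hbs hα).trans ?_
    refine mul_le_mul_of_nonneg_left ?_ (by positivity)
    have e4 : ((y / g (i + 1) : ℕ) : ℝ) ≤ x / w₁ := by
      rw [le_div_iff₀ hw0]
      have : (y / g (i + 1)) * w₁ ≤ x :=
        (Nat.mul_le_mul_left _ hgi).trans (by rw [mul_comm]; exact e1)
      exact_mod_cast this
    have e5 : ((g (i + 1) : ℕ) : ℝ) ≤ w₂ := by exact_mod_cast hgi2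
    have e6 : (x : ℝ) * ((g (i + 1) : ℕ) + ((y / g (i + 1) : ℕ) : ℝ)) / q ≤
        (x : ℝ) ^ 2 / (q * w₁) + (x : ℝ) * w₂ / q := by
      calc (x : ℝ) * ((g (i + 1) : ℕ) + ((y / g (i + 1) : ℕ) : ℝ)) / q
          ≤ (x : ℝ) * (w₂ + x / w₁) / q := by gcongr
        _ = _ := by
          field_simp
          ring
    rw [hP]
    linarith
  have hmain : 2 * ((I : ℝ) * ∑ i ∈ range I, VB q (Icc 1 (g (i + 1))) (Icc 1 (y / g (i + 1)))
      (MinII.cut a (g i)) bb α) ≤ 50 * K * (Real.log x) ^ (c + 2) * (1 / η ^ 2 * P) := by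
    have e1 : ∑ i ∈ range I, VB q (Icc 1 (g (i + 1))) (Icc 1 (y / g (i + 1)))
        (MinII.cut a (g i)) bb α ≤ I * (K * (Real.log x) ^ c * P) := by
      refine (sum_le_sum hboxes).trans (le_of_eq ?_)
      rw [sum_const, card_range, nsmul_eq_mul]
    have e2 : (I : ℝ) ^ 2 ≤ (5 * Real.log x / η) ^ 2 := pow_le_pow_left₀ (Nat.cast_nonneg _) hI2 2
    calc 2 * ((I : ℝ) * ∑ i ∈ range I, VB q (Icc 1 (g (i + 1))) (Icc 1 (y / g (i + 1)))
          (MinII.cut a (g i)) bb α)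
        ≤ 2 * ((I : ℝ) * (I * (K * (Real.log x) ^ c * P))) := by gcongr
      _ = (I : ℝ) ^ 2 * (2 * (K * (Real.log x) ^ c * P)) := by ring
      _ ≤ (5 * Real.log x / η) ^ 2 * (2 * (K * (Real.log x) ^ c * P)) :=
          mul_le_mul_of_nonneg_right e2 (by positivity)
      _ = _ := by
          field_simp
          ring
  -- the boundary
  have hbd : 2 * ∑ r ∈ range q, ‖∑ n ∈ Ioc M y, (if n % q = r then
      CtlVar.ecf a bb g y I n * e (n * α) else 0)‖ ^ 2 ≤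
      9 * C₁ * (Real.log x) ^ 4096 * ((x : ℝ) ^ 2 / q * Real.sqrt η) := by
    have e1 := MinII.classes_sq hq hMy (fun n => CtlVar.ecf a bb g y I n * e (n * α))
    have e2 : ∑ n ∈ Ioc M y, ‖CtlVar.ecf a bb g y I n * e (n * α)‖ ^ 2 ≤
        C₁ * Real.sqrt ((y : ℝ) - M) * Real.sqrt x * (Real.log x) ^ 4096 := by
      refine le_trans ?_ (hτs x M y hx hMy hyx)
      refine Finset.sum_le_sum fun n hn => ?_
      rw [mem_Ioc] at hn
      rw [norm_mul, add_norm_e, mul_one]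
      calc ‖CtlVar.ecf a bb g y I n‖ ^ 2 ≤ ((n.divisors.card : ℝ) ^ 3) ^ 2 :=
            pow_le_pow_left₀ (norm_nonneg _)
              (CtlVar.norm_ecf_le a bb g hgm y I n (by omega) ha1 hb1) 2
        _ = _ := by ring
    have e3 : Real.sqrt ((y : ℝ) - M) * Real.sqrt x ≤ 3 / 2 * (Real.sqrt η * x) := by
      calc Real.sqrt ((y : ℝ) - M) * Real.sqrt x ≤ Real.sqrt (2 * (η * x)) * Real.sqrt x :=
            mul_le_mul_of_nonneg_right (Real.sqrt_le_sqrt hMd) (Real.sqrt_nonneg _)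
        _ = Real.sqrt 2 * (Real.sqrt η * (Real.sqrt x * Real.sqrt x)) := by
            rw [Real.sqrt_mul (by norm_num), Real.sqrt_mul hη.le]
            ring
        _ = Real.sqrt 2 * (Real.sqrt η * x) := by rw [Real.mul_self_sqrt hx0.le]
        _ ≤ 3 / 2 * (Real.sqrt η * x) := by
            refine mul_le_mul_of_nonneg_right ?_ (by positivity)
            rw [Real.sqrt_le_left (by norm_num)]
            norm_num
    have e4 : ((y : ℝ) - M) / q + 1 ≤ 3 * (η * x) / q := by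
      have e5 : 1 ≤ η * x / q := by
        rw [le_div_iff₀ hq0, one_mul]
        exact hqη
      have e6 : ((y : ℝ) - M) / q ≤ 2 * (η * x) / q := by gcongr
      calc ((y : ℝ) - M) / q + 1 ≤ 2 * (η * x) / q + η * x / q := add_le_add e6 e5
        _ = _ := by ring
    calc 2 * ∑ r ∈ range q, ‖∑ n ∈ Ioc M y, (if n % q = r then
          CtlVar.ecf a bb g y I n * e (n * α) else 0)‖ ^ 2
        ≤ 2 * ((((y : ℝ) - M) / q + 1) *
            ∑ n ∈ Ioc M y, ‖CtlVar.ecf a bb g y I n * e (n * α)‖ ^ 2) :=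
          mul_le_mul_of_nonneg_left e1 (by norm_num)
      _ ≤ 2 * ((3 * (η * x) / q) *
            (C₁ * Real.sqrt ((y : ℝ) - M) * Real.sqrt x * (Real.log x) ^ 4096)) := by
          refine mul_le_mul_of_nonneg_left ?_ (by norm_num)
          exact mul_le_mul e4 e2 (sum_nonneg fun _ _ => sq_nonneg _) (by positivity)
      _ = 6 * (η * x) / q * C₁ * (Real.log x) ^ 4096 *
            (Real.sqrt ((y : ℝ) - M) * Real.sqrt x) := by ring
      _ ≤ 6 * (η * x) / q * C₁ * (Real.log x) ^ 4096 * (3 / 2 * (Real.sqrt η * x)) :=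
          mul_le_mul_of_nonneg_left e3 (by positivity)
      _ = η * (9 * C₁ * (Real.log x) ^ 4096 * ((x : ℝ) ^ 2 / q * Real.sqrt η)) := by
          field_simp
          ring
      _ ≤ 1 * (9 * C₁ * (Real.log x) ^ 4096 * ((x : ℝ) ^ 2 / q * Real.sqrt η)) :=
          mul_le_mul_of_nonneg_right hη1 (by positivity)
      _ = _ := one_mul _
  -- conclusion
  set R : ℝ := (x : ℝ) ^ 2 / q * Real.sqrt η with hR
  have hR0 : 0 ≤ R := by positivity
  set T : ℝ := 1 / η ^ 2 * P with hT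
  have hT0 : 0 ≤ T := by positivity
  have l1 : (Real.log x) ^ (c + 2) ≤ (Real.log x) ^ (c + 2 + 4096) :=
    pow_le_pow_right₀ hL (by omega)
  have l2 : (Real.log x) ^ 4096 ≤ (Real.log x) ^ (c + 2 + 4096) :=
    pow_le_pow_right₀ hL (by omega)
  set Z : ℝ := (Real.log x) ^ (c + 2 + 4096) with hZ
  have hZ0 : 0 ≤ Z := by positivity
  calc _ ≤ 50 * K * (Real.log x) ^ (c + 2) * T + 9 * C₁ * (Real.log x) ^ 4096 * R :=
        add_le_add hmain hbd
    _ ≤ 50 * K * Z * T + 9 * C₁ * Z * R := by gcongr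
    _ ≤ 50 * K * Z * T + 9 * C₁ * Z * R + (50 * K * Z * R + 9 * C₁ * Z * T) := by
        have : 0 ≤ 50 * K * Z * R + 9 * C₁ * Z * T := by positivity
        linarith
    _ = (50 * K + 9 * C₁) * Z * (T + R) := by ring

end Pool.Agent.HN
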