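import Pool.Agent.Work.MP_92f640_nt.HT.Fourth

/-! # Module PV: Polya-Vinogradov for all non-principal characters

Primitive `χ` mod `r > 1`: `χ(n) = τ(χ̄)⁻¹ ∑_b χ̄(b) e(bn/r)` (`prim_dual` in HT/FourthPrim: copy it, that file cannot be imported together with HT/Fourth; `norm_gaussSum_sq` in BV/GaussLS), `|∑_{n ≤ N} e(bn/r)| ≤ 1/(2‖b/r‖)`: `√r (1 + log r)`. `χ` mod `k` induced by `χ*` mod `r`:
`imprim_sum` (HT/Fourth) : `∑_{d ∣ k, (d,r) = 1} μ(d) χ*(d) ∑_{n ≤ N/d} χ*(n)`, number of squarefree `d ∣ k` coprime to `r` is `≤ 2^ω(k/r) ≤ 2 √(k/r)`. -/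

namespace Pool.Agent.HN

open Finset Pool.Agent.BV Pool.Agent.HL
open scoped ArithmeticFunction.Moebius

namespace PVaux

/-- the sum over residue classes, split into small positive and negative representatives -/
lemma sum_split (r : ℕ) [NeZero r] (F : ZMod r → ℂ) (h0 : F 0 = 0) :
    ∑ b, F b = ∑ h ∈ Icc 1 r, (if h ≤ r / 2 then F (h : ZMod r) else 0) +
      ∑ h ∈ Icc 1 r, (if h ≤ (r - 1) / 2 then F (-(h : ZMod r)) else 0) := by
  have hr : 0 < r := Nat.pos_of_ne_zero (NeZero.ne r)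
  have e0 : ∑ b, F b = ∑ j ∈ range r, F (j : ZMod r) := by
    symm
    refine Finset.sum_nbij' (fun j => (j : ZMod r)) (fun n => n.val) ?_ ?_ ?_ ?_ ?_
    · intro j _; simp
    · intro n _; simpa using ZMod.val_lt n
    · intro j hj; simpa using ZMod.val_cast_of_lt (mem_range.1 hj)
    · intro n _; simp
    · intro j _; rfl
  have e1 : range r = insert 0 (Icc 1 (r / 2) ∪ Icc (r / 2 + 1) (r - 1)) := by
    ext n
    simp only [mem_range, mem_insert, mem_union, mem_Icc]
    omega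
  have e2 : (0 : ℕ) ∉ Icc 1 (r / 2) ∪ Icc (r / 2 + 1) (r - 1) := by
    simp only [mem_union, mem_Icc]
    omega
  have e3 : Disjoint (Icc 1 (r / 2)) (Icc (r / 2 + 1) (r - 1)) := by
    rw [disjoint_left]
    intro n hn hn'
    rw [mem_Icc] at hn hn'
    omega
  rw [e0, e1, sum_insert e2, sum_union e3, Nat.cast_zero, h0, zero_add]
  congr 1
  · rw [← sum_filter]
    refine sum_congr ?_ fun _ _ => rfl
    ext n
    simp only [mem_Icc, mem_filter]
    omega
  · rw [← sum_filter]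
    refine sum_nbij' (fun n => r - n) (fun n => r - n) ?_ ?_ ?_ ?_ ?_
    · intro n hn
      simp only [mem_Icc, mem_filter] at hn ⊢
      omega
    · intro n hn
      simp only [mem_Icc, mem_filter] at hn ⊢
      omega
    · intro n hn
      simp only [mem_Icc] at hn
      omega
    · intro n hn
      simp only [mem_Icc, mem_filter] at hn
      omega
    · intro n hn
      rw [mem_Icc] at hn
      congr 1
      rw [Nat.cast_sub (by omega), ZMod.natCast_self, zero_sub, neg_neg]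

lemma dsum_le (r N h : ℕ) [NeZero r] (h1 : 1 ≤ h) (h2 : h ≤ r / 2) :
    ‖∑ n ∈ Icc 1 N, ZMod.stdAddChar ((n : ZMod r) * (h : ZMod r))‖ ≤ r / h := by
  have hr : 0 < r := Nat.pos_of_ne_zero (NeZero.ne r)
  have hrR : (0 : ℝ) < r := by exact_mod_cast hr
  have hhR : (0 : ℝ) < h := by exact_mod_cast h1
  have e1 : ∑ n ∈ Icc 1 N, ZMod.stdAddChar ((n : ZMod r) * (h : ZMod r)) =
      e ((h : ℝ) / r) * ∑ k ∈ range N, e (k * ((h : ℝ) / r)) := by
    have h3 : ∑ n ∈ Icc 1 N, ZMod.stdAddChar ((n : ZMod r) * (h : ZMod r)) =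
        ∑ k ∈ range N, ZMod.stdAddChar (((k + 1 : ℕ) : ZMod r) * (h : ZMod r)) := by
      symm
      refine sum_nbij' (fun k => k + 1) (fun n => n - 1) ?_ ?_ ?_ ?_ ?_
      · intro k hk
        rw [mem_range] at hk
        rw [mem_Icc]
        omega
      · intro k hk
        rw [mem_Icc] at hk
        rw [mem_range]
        omega
      · intro k _
        simp
      · intro k hk
        rw [mem_Icc] at hk
        omega
      · intro k _
        rfl
    rw [h3, mul_sum]
    refine sum_congr rfl fun k _ => ?_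
    rw [← gaussLS_e, ← add_e_add]
    congr 1
    push_cast
    ring
  have e2 : ‖∑ n ∈ Icc 1 N, ZMod.stdAddChar ((n : ZMod r) * (h : ZMod r))‖ ≤
      gm N ((h : ℝ) / r) := by
    rw [e1, norm_mul, add_norm_e, one_mul]
    exact geom_le N _
  refine e2.trans ?_
  have hβ : (h : ℝ) / r ≤ 1 / 2 := by
    rw [div_le_div_iff₀ hrR (by norm_num)]
    have : h * 2 ≤ 1 * r := by omega
    exact_mod_cast this
  have hβ0 : 0 < (h : ℝ) / r := by positivity
  have h3 : (h : ℝ) / r ≤ |(h : ℝ) / r - round ((h : ℝ) / r)| := by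
    rcases lt_or_ge ((round ((h : ℝ) / r) : ℤ)) 1 with h4 | h4
    · have h5 : ((round ((h : ℝ) / r) : ℤ) : ℝ) ≤ 0 := by
        exact_mod_cast (by omega : (round ((h : ℝ) / r) : ℤ) ≤ 0)
      rw [le_abs]
      left
      linarith
    · have h5 : (1 : ℝ) ≤ ((round ((h : ℝ) / r) : ℤ) : ℝ) := by exact_mod_cast h4
      rw [le_abs]
      right
      linarith
  refine (gm_le_of_dist (by positivity) hβ0 h3).trans ?_
  rw [div_le_div_iff₀ (by positivity) hhR]
  rw [one_mul]
  have : (r : ℝ) * (2 * (h / r)) = 2 * h := by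
    field_simp
  rw [this]
  linarith

lemma harm (r : ℕ) : ∑ h ∈ Icc 1 r, (r : ℝ) / h ≤ r * (1 + Real.log r) := by
  have : ∑ h ∈ Icc 1 r, (r : ℝ) / h = r * ∑ h ∈ Icc 1 r, ((h : ℝ))⁻¹ := by
    rw [mul_sum]
    exact sum_congr rfl fun h _ => div_eq_mul_inv _ _
  rw [this]
  exact mul_le_mul_of_nonneg_left (DivSum_H r) (Nat.cast_nonneg r)

/-- primitive characters -/
lemma prim_pv (r : ℕ) [NeZero r] (hr2 : 2 ≤ r) (χ : DirichletCharacter ℂ r)
    (hp : χ.IsPrimitive) (N : ℕ) :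
    ‖∑ n ∈ Icc 1 N, χ (n : ZMod r)‖ ≤ 2 * Real.sqrt r * (1 + Real.log r) := by
  have hr : 0 < r := Nat.pos_of_ne_zero (NeZero.ne r)
  have hrR : (0 : ℝ) < r := by exact_mod_cast hr
  have hlog : 0 ≤ Real.log r := Real.log_natCast_nonneg r
  set D : ZMod r → ℂ := fun b => ∑ n ∈ Icc 1 N, ZMod.stdAddChar ((n : ZMod r) * b) with hD
  have hDneg : ∀ b : ZMod r, ‖D (-b)‖ = ‖D b‖ := by
    intro b
    have : D (-b) = (starRingEnd ℂ) (D b) := by
      rw [hD]
      simp only
      rw [map_sum]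
      refine sum_congr rfl fun n _ => ?_
      rw [gaussLS_conj]
      congr 1
      ring
    rw [this, RCLike.norm_conj]
  have hp' : (χ⁻¹).IsPrimitive := by
    rw [DirichletCharacter.isPrimitive_def, DirichletCharacter.conductor_inv]
    exact hp
  have e1 : ∀ n : ZMod r, ∑ b, χ⁻¹ b * ZMod.stdAddChar (n * b) =
      χ n * gaussSum χ⁻¹ (ZMod.stdAddChar (N := r)) := by
    intro n
    have h := gaussSum_mulShift_of_isPrimitive (ZMod.stdAddChar (N := r)) hp' n
    rw [inv_inv] at h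
    rw [← h]
    simp [gaussSum, AddChar.mulShift_apply]
  have e2 : (∑ n ∈ Icc 1 N, χ (n : ZMod r)) * gaussSum χ⁻¹ (ZMod.stdAddChar (N := r)) =
      ∑ b, χ⁻¹ b * D b := by
    have e2' : ∀ n ∈ Icc 1 N, χ (n : ZMod r) * gaussSum χ⁻¹ (ZMod.stdAddChar (N := r)) =
        ∑ b, χ⁻¹ b * ZMod.stdAddChar ((n : ZMod r) * b) := fun n _ => (e1 (n : ZMod r)).symm
    rw [sum_mul, sum_congr rfl e2', sum_comm]
    refine sum_congr rfl fun b _ => ?_
    rw [hD, mul_sum]
  have hz : χ⁻¹ (0 : ZMod r) = 0 := by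
    apply MulChar.map_nonunit
    intro hu
    have : Fact (1 < r) := ⟨by omega⟩
    exact not_isUnit_zero hu
  have hn1 : ∀ b : ZMod r, ‖χ⁻¹ b * D b‖ ≤ ‖D b‖ := by
    intro b
    rw [norm_mul]
    exact mul_le_of_le_one_left (norm_nonneg _) (DirichletCharacter.norm_le_one _ _)
  have s1 : ‖∑ h ∈ Icc 1 r, (if h ≤ r / 2 then χ⁻¹ (h : ZMod r) * D (h : ZMod r) else 0)‖ ≤
      r * (1 + Real.log r) := by
    refine le_trans ?_ (harm r)
    refine (norm_sum_le _ _).trans (sum_le_sum fun h hh => ?_)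
    rw [mem_Icc] at hh
    split_ifs with h3
    · exact (hn1 _).trans (dsum_le r N h hh.1 h3)
    · rw [norm_zero]
      positivity
  have s2 : ‖∑ h ∈ Icc 1 r, (if h ≤ (r - 1) / 2 then χ⁻¹ (-(h : ZMod r)) * D (-(h : ZMod r))
      else 0)‖ ≤ r * (1 + Real.log r) := by
    refine le_trans ?_ (harm r)
    refine (norm_sum_le _ _).trans (sum_le_sum fun h hh => ?_)
    rw [mem_Icc] at hh
    split_ifs with h3
    · refine (hn1 _).trans ?_
      rw [hDneg]
      exact dsum_le r N h hh.1 (by omega)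
    · rw [norm_zero]
      positivity
  have e3 : ‖(∑ n ∈ Icc 1 N, χ (n : ZMod r)) * gaussSum χ⁻¹ (ZMod.stdAddChar (N := r))‖ ≤
      r * (1 + Real.log r) + r * (1 + Real.log r) := by
    rw [e2, sum_split r (fun b => χ⁻¹ b * D b) (by simp only [hz, zero_mul])]
    exact (norm_add_le _ _).trans (add_le_add s1 s2)
  have hg : ‖gaussSum χ⁻¹ (ZMod.stdAddChar (N := r))‖ = Real.sqrt r := by
    rw [← norm_gaussSum_sq _ hp', Real.sqrt_sq (norm_nonneg _)]
  rw [norm_mul, hg] at e3
  have hs : 0 < Real.sqrt r := Real.sqrt_pos.2 hrR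
  have h4 : ‖∑ n ∈ Icc 1 N, χ (n : ZMod r)‖ * Real.sqrt r ≤
      (2 * Real.sqrt r * (1 + Real.log r)) * Real.sqrt r := by
    refine e3.trans (le_of_eq ?_)
    have := Real.mul_self_sqrt hrR.le
    calc (r : ℝ) * (1 + Real.log r) + r * (1 + Real.log r) = 2 * r * (1 + Real.log r) := by ring
      _ = 2 * (Real.sqrt r * Real.sqrt r) * (1 + Real.log r) := by rw [this]
      _ = _ := by ring
  exact le_of_mul_le_mul_right h4 hs

/-- the number of divisors is at most `2 √n` -/
lemma tau_le (n : ℕ) (hn : n ≠ 0) : (n.divisors.card : ℝ) ≤ 2 * Real.sqrt n := by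
  have h1 : n.divisors ⊆ Icc 1 n.sqrt ∪ (Icc 1 n.sqrt).image (fun d => n / d) := by
    intro d hd
    rw [Nat.mem_divisors] at hd
    obtain ⟨⟨e, he⟩, _⟩ := hd
    have hd0 : 0 < d := Nat.pos_of_ne_zero (by rintro rfl; simp at he; exact hn he)
    have he0 : 0 < e := Nat.pos_of_ne_zero (by rintro rfl; simp at he; exact hn he)
    rw [mem_union, mem_image, mem_Icc]
    rcases le_or_gt d n.sqrt with h | h
    · exact Or.inl ⟨hd0, h⟩
    · right
      refine ⟨e, ?_, ?_⟩
      · rw [mem_Icc]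
        refine ⟨he0, ?_⟩
        by_contra h'
        rw [not_le] at h'
        have : n < d * e := by
          calc n < (n.sqrt + 1) * (n.sqrt + 1) := Nat.lt_succ_sqrt n
            _ ≤ d * e := Nat.mul_le_mul h h'
        omega
      · show n / e = d
        rw [he]
        exact Nat.mul_div_cancel d he0
  have h2 : n.divisors.card ≤ 2 * n.sqrt := by
    refine (card_le_card h1).trans ((card_union_le _ _).trans ?_)
    have := card_image_le (s := Icc 1 n.sqrt) (f := fun d => n / d)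
    rw [Nat.card_Icc] at *
    omega
  have h3 : (n.sqrt : ℝ) ≤ Real.sqrt n := by
    apply Real.le_sqrt_of_sq_le
    exact_mod_cast Nat.sqrt_le' n
  have h4 : (n.divisors.card : ℝ) ≤ 2 * n.sqrt := by exact_mod_cast h2
  linarith

end PVaux

open PVaux in
theorem pv : ∃ C : ℝ, 0 < C ∧ ∀ (k : ℕ) [NeZero k] (χ : DirichletCharacter ℂ k), χ ≠ 1 → ∀ N : ℕ,
    ‖∑ n ∈ Icc 1 N, χ (n : ZMod k)‖ ≤ C * Real.sqrt k * (1 + Real.log k) := by
  classical
  refine ⟨4, by norm_num, ?_⟩
  intro k _ χ hχ N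
  have hk : k ≠ 0 := NeZero.ne k
  have hkR : (0 : ℝ) < k := by exact_mod_cast Nat.pos_of_ne_zero hk
  set r := χ.conductor with hr
  have hrk : r ∣ k := χ.conductor_dvd_level
  have hr0 : r ≠ 0 := fun h => hk (Nat.eq_zero_of_zero_dvd (h ▸ hrk))
  have hr1 : r ≠ 1 := fun h => hχ (DirichletCharacter.eq_one_iff_conductor_eq_one.2 h)
  haveI : NeZero r := ⟨hr0⟩
  have hr2 : 2 ≤ r := by omega
  have hrR : (0 : ℝ) < r := by exact_mod_cast Nat.pos_of_ne_zero hr0
  have hprim := DirichletCharacter.primitiveCharacter_isPrimitive χ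
  set B : ℝ := 2 * Real.sqrt r * (1 + Real.log r) with hB
  have hlogr : 0 ≤ Real.log r := Real.log_natCast_nonneg r
  have hB0 : 0 ≤ B := by positivity
  have hmu : ∀ d : ℕ, ‖((μ d : ℤ) : ℂ)‖ ≤ 1 := by
    intro b
    rw [Complex.norm_intCast]
    have := ArithmeticFunction.abs_moebius_le_one (n := b)
    exact_mod_cast this
  rw [HT.imprim_sum χ N]
  have hsub : (k / r).divisors ⊆ k.divisors := Nat.divisors_subset_of_dvd hk (Nat.div_dvd_of_dvd hrk)
  rw [← sum_subset hsub]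
  · have h1 : ‖∑ d ∈ (k / r).divisors, ((μ d : ℤ) : ℂ) * χ.primitiveCharacter (d : ZMod χ.conductor) *
        ∑ m ∈ Icc 1 (N / d), χ.primitiveCharacter (m : ZMod χ.conductor)‖ ≤
        ∑ _d ∈ (k / r).divisors, B := by
      refine (norm_sum_le _ _).trans (sum_le_sum fun d _ => ?_)
      rw [norm_mul, norm_mul]
      have h3 : ‖χ.primitiveCharacter (d : ZMod χ.conductor)‖ ≤ 1 :=
        DirichletCharacter.norm_le_one _ _
      have h4 := prim_pv r hr2 χ.primitiveCharacter hprim (N / d)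
      calc _ ≤ 1 * 1 * B := by
            refine mul_le_mul ?_ h4 (norm_nonneg _) (by norm_num)
            exact mul_le_mul (hmu d) h3 (norm_nonneg _) (by norm_num)
        _ = B := by ring
    refine h1.trans ?_
    rw [sum_const, nsmul_eq_mul]
    have hkr : k / r ≠ 0 := (Nat.div_pos (Nat.le_of_dvd (Nat.pos_of_ne_zero hk) hrk)
      (Nat.pos_of_ne_zero hr0)).ne'
    have h5 := tau_le (k / r) hkr
    have h6 : ((k / r : ℕ) : ℝ) = (k : ℝ) / r := by
      rw [Nat.cast_div hrk (by exact_mod_cast hr0)]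
    rw [h6] at h5
    have h7 : Real.sqrt ((k : ℝ) / r) * Real.sqrt r = Real.sqrt k := by
      rw [← Real.sqrt_mul (by positivity)]
      congr 1
      field_simp
    have h8 : Real.log r ≤ Real.log k :=
      Real.log_le_log hrR (by exact_mod_cast Nat.le_of_dvd (Nat.pos_of_ne_zero hk) hrk)
    calc ((k / r).divisors.card : ℝ) * B ≤ (2 * Real.sqrt ((k : ℝ) / r)) * B :=
          mul_le_mul_of_nonneg_right h5 hB0
      _ = 4 * (Real.sqrt ((k : ℝ) / r) * Real.sqrt r) * (1 + Real.log r) := by rw [hB]; ring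
      _ = 4 * Real.sqrt k * (1 + Real.log r) := by rw [h7]
      _ ≤ 4 * Real.sqrt k * (1 + Real.log k) := by
          refine mul_le_mul_of_nonneg_left (by linarith) (by positivity)
  · intro d hd hd'
    have hdk := Nat.dvd_of_mem_divisors hd
    have : χ.primitiveCharacter (d : ZMod χ.conductor) = 0 := by
      apply MulChar.map_nonunit
      rw [ZMod.isUnit_iff_coprime]
      intro hc
      apply hd'
      rw [Nat.mem_divisors]
      refine ⟨?_, (Nat.div_pos (Nat.le_of_dvd (Nat.pos_of_ne_zero hk) hrk)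
        (Nat.pos_of_ne_zero hr0)).ne'⟩
      exact (Nat.dvd_div_iff_mul_dvd hrk).2 (Nat.Coprime.mul_dvd_of_dvd_of_dvd hc.symm hrk hdk)
    rw [this, mul_zero, zero_mul]

end Pool.Agent.HN
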