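import Pool.Agent.Work.MP_92f640_nt.HN.Defs

/-! # Module Split

`s = s₁ s'`, `s₁` coprime to `q`, the primes of `s'` divide `q`; `s' = g² r`, `r` squarefree (`Nat.sq_mul_squarefree`), `s₂ = g r`; `r ∣ q`. -/

namespace Pool.Agent.HN

theorem split_cop (q : ℕ) : ∀ s : ℕ, 1 ≤ s → ∃ s₁ s' : ℕ, s = s₁ * s' ∧ s₁.Coprime q ∧
    (∀ p : ℕ, p.Prime → p ∣ s' → p ∣ q) := by
  intro s
  induction s using Nat.strong_induction_on with
  | _ s ih =>
    intro hs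
    by_cases hc : s.Coprime q
    · exact ⟨s, 1, (mul_one s).symm, hc, fun p hp h => absurd (Nat.dvd_one.mp h) hp.one_lt.ne'⟩
    · obtain ⟨p, hp, hps, hpq⟩ := Nat.Prime.not_coprime_iff_dvd.mp hc
      obtain ⟨t, rfl⟩ := hps
      have ht : 1 ≤ t := by
        rcases Nat.eq_zero_or_pos t with h | h
        · subst h; simp at hs
        · exact h
      have hlt : t < p * t := by nlinarith [hp.two_le]
      obtain ⟨s₁, s', h1, h2, h3⟩ := ih t hlt ht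
      refine ⟨s₁, p * s', by rw [h1]; ring, h2, fun r hr hrd => ?_⟩
      rcases (Nat.Prime.dvd_mul hr).mp hrd with h | h
      · rwa [(Nat.prime_dvd_prime_iff_eq hr hp).mp h]
      · exact h3 r hr h

theorem split (q s : ℕ) (hq : 1 ≤ q) (hs : 1 ≤ s) : ∃ g s₁ s₂ : ℕ, s = g * s₁ * s₂ ∧ 1 ≤ g ∧
    1 ≤ s₁ ∧ 1 ≤ s₂ ∧ s₁.Coprime (g * q) ∧ s₂ ∣ g * q ∧ g ∣ s₂ ∧
    (∀ p : ℕ, p.Prime → p ∣ g → p ∣ q) := by
  obtain ⟨s₁, s', h1, h2, h3⟩ := split_cop q s hs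
  obtain ⟨r, g, hrg, hr⟩ := Nat.sq_mul_squarefree s'
  have hs1 : s₁ ≠ 0 := by rintro rfl; simp at h1; omega
  have hs' : s' ≠ 0 := by rintro rfl; simp at h1; omega
  have hg : g ≠ 0 := by rintro rfl; simp at hrg; exact hs' hrg.symm
  have hr0 : r ≠ 0 := hr.ne_zero
  have hgq : ∀ p : ℕ, p.Prime → p ∣ g → p ∣ q := fun p hp hpg =>
    h3 p hp (by rw [← hrg]; exact Dvd.dvd.mul_right (hpg.trans (dvd_pow_self g two_ne_zero)) r)
  have hrq : r ∣ q := by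
    rw [← Nat.prod_primeFactors_of_squarefree hr]
    refine (Finset.prod_dvd_prod_of_subset _ q.primeFactors _ ?_).trans
      (Nat.prod_primeFactors_dvd q)
    intro p hp
    have hp' := Nat.prime_of_mem_primeFactors hp
    have hpr := Nat.dvd_of_mem_primeFactors hp
    exact Nat.mem_primeFactors.mpr ⟨hp', h3 p hp' (by rw [← hrg]; exact hpr.mul_left _), by omega⟩
  refine ⟨g, s₁, g * r, by rw [h1, ← hrg]; ring, Nat.pos_of_ne_zero hg, Nat.pos_of_ne_zero hs1,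
    Nat.pos_of_ne_zero (mul_ne_zero hg hr0), ?_, Nat.mul_dvd_mul_left g hrq, Dvd.intro r rfl, hgq⟩
  refine Nat.Coprime.mul_right ?_ h2
  refine Nat.Coprime.symm (Nat.coprime_of_dvd fun p hp hpg hps => ?_)
  have : p ∣ Nat.gcd s₁ q := Nat.dvd_gcd hps (hgq p hp hpg)
  rw [h2] at this
  exact hp.one_lt.ne' (Nat.dvd_one.mp this)

end Pool.Agent.HN
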