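import Pool.Agent.Work.MP_92f640_nt.HN.TMinor2
import Pool.Agent.Work.MP_92f640_nt.HS.SupFA

/-! # Module SupNA: auxiliary lemmas for SupN -/

namespace Pool.Agent.HN

open Finset Filter Pool.Agent.BV Pool.Agent.HL Pool.Agent.HS

namespace SupNaux

/-- arithmetic of the minor arcs, type I and II part -/
lemma minor_arithN (B'' c b e₀ e1 Bm : ℕ) (C X L q s D w₁ w₂ J M η s4 τ : ℝ) (hC : 0 < C)
    (hL : 1000 ≤ L) (hLC : 800 * C ≤ L) (hX : 1 ≤ X) (hq : 1 ≤ q) (hqX : q ≤ X)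
    (hτ : τ = 1 / L ^ e1) (he₀ : e₀ = 2 * b + 4 + c + B'' + 3)
    (he1 : e1 = 2 * b + 4 + 4 * e₀ + c + B'' + 3) (hBm : Bm = c + B'' + 2)
    (hη : η = 1 / L ^ (2 * e₀))
    (h1 : 1 / s ≤ τ) (h2 : q * s / X ≤ τ) (h3 : q * D ^ 2 / X ^ 2 ≤ τ) (h4 : 1 / w₁ ≤ τ)
    (h5 : w₂ / X ≤ τ) (h6 : 1 / s4 ≤ τ) (hJ0 : 0 ≤ J) (hJ : J ≤ 3 * L ^ (b + 1))
    (hM : M = X / L ^ Bm) :
    C * L ^ c * ((X ^ 2 / q) * (1 / s + q * s / X + q * D ^ 2 / X ^ 2) +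
        J ^ 2 * (1 / η ^ 2 * (s * X + X ^ 2 / (q * w₁) + X * w₂ / q + X ^ 2 / (q * s4)) +
          X ^ 2 / q * Real.sqrt η) +
        (X / q + 1) * M) ≤ 1 / 16 * (X ^ 2 / (q * L ^ B'')) := by
  have hL0 : 0 < L := by linarith
  have hL1 : 1 ≤ L := by linarith
  have hq0 : 0 < q := by linarith
  have hX0 : 0 < X := by linarith
  set W := X ^ 2 / q with hW
  have hW0 : 0 < W := by positivity
  have hτ0 : 0 < τ := by rw [hτ]; positivity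
  have hM0 : 0 < M := by rw [hM]; positivity
  have hη0 : 0 < η := by rw [hη]; positivity
  have hXq : 1 ≤ X / q := by rw [le_div_iff₀ hq0]; linarith
  have hsq : Real.sqrt η = 1 / L ^ e₀ := by
    rw [Real.sqrt_eq_iff_mul_self_eq hη0.le (by positivity), hη]
    rw [two_mul, pow_add]
    field_simp
  set P := W / L ^ (c + B'' + 2) with hP
  have hP0 : 0 < P := by positivity
  have a1 : W * (1 / s + q * s / X + q * D ^ 2 / X ^ 2) ≤ 3 * P := by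
    have e2 : τ ≤ 1 / L ^ (c + B'' + 2) := by
      rw [hτ]
      exact div_le_div_of_nonneg_left zero_le_one (by positivity) (pow_le_pow_right₀ hL1 (by omega))
    calc W * (1 / s + q * s / X + q * D ^ 2 / X ^ 2) ≤ W * (3 * (1 / L ^ (c + B'' + 2))) := by
          refine mul_le_mul_of_nonneg_left ?_ hW0.le
          linarith
      _ = 3 * P := by rw [hP]; ring
  have a2 : s * X + X ^ 2 / (q * w₁) + X * w₂ / q + X ^ 2 / (q * s4) ≤ 4 * (W * τ) := by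
    have e1' : s * X = W * (q * s / X) := by rw [hW]; field_simp
    have e2 : X ^ 2 / (q * w₁) = W * (1 / w₁) := by rw [hW, div_mul_div_comm, mul_one]
    have e3 : X * w₂ / q = W * (w₂ / X) := by rw [hW]; field_simp
    have e4 : X ^ 2 / (q * s4) = W * (1 / s4) := by rw [hW, div_mul_div_comm, mul_one]
    rw [e1', e2, e3, e4, ← mul_add, ← mul_add, ← mul_add, ← mul_assoc, mul_comm 4 W, mul_assoc]
    refine mul_le_mul_of_nonneg_left ?_ hW0.le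
    linarith
  have hJ2 : J ^ 2 ≤ 9 * L ^ (2 * b + 2) := by
    calc J ^ 2 ≤ (3 * L ^ (b + 1)) ^ 2 := pow_le_pow_left₀ hJ0 hJ 2
      _ = _ := by ring
  have a3 : J ^ 2 * (1 / η ^ 2 * (s * X + X ^ 2 / (q * w₁) + X * w₂ / q + X ^ 2 / (q * s4)) +
          W * Real.sqrt η) ≤ 45 * P := by
    have e5 : L ^ e1 = L ^ (2 * b + 2) * (L ^ (4 * e₀) * (L ^ 3 * L ^ (c + B'' + 2))) := by
      rw [he1, ← pow_add, ← pow_add, ← pow_add]
      congr 1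
      ring
    have e6 : L ^ e₀ = L ^ (2 * b + 2) * (L ^ 3 * L ^ (c + B'' + 2)) := by
      rw [he₀, ← pow_add, ← pow_add]
      congr 1
      ring
    have hL3 : 1 ≤ L ^ 3 := one_le_pow₀ hL1
    have e7 : 9 * L ^ (2 * b + 2) * (1 / η ^ 2 * (4 * (W * τ))) = 36 * (P / L ^ 3) := by
      have : 1 / η ^ 2 = L ^ (4 * e₀) := by
        rw [hη, div_pow, one_pow, one_div_one_div, ← pow_mul]
        congr 1
        ring
      rw [this, hτ, e5, hP]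
      field_simp
      norm_num
    have e8 : 9 * L ^ (2 * b + 2) * (W * Real.sqrt η) = 9 * (P / L ^ 3) := by
      rw [hsq, e6, hP]
      field_simp
    have e9 : P / L ^ 3 ≤ P := div_le_self hP0.le hL3
    calc J ^ 2 * (1 / η ^ 2 * (s * X + X ^ 2 / (q * w₁) + X * w₂ / q + X ^ 2 / (q * s4)) +
          W * Real.sqrt η)
        ≤ J ^ 2 * (1 / η ^ 2 * (4 * (W * τ)) + W * Real.sqrt η) := by gcongr
      _ ≤ 9 * L ^ (2 * b + 2) * (1 / η ^ 2 * (4 * (W * τ)) + W * Real.sqrt η) := by gcongr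
      _ = 36 * (P / L ^ 3) + 9 * (P / L ^ 3) := by rw [mul_add, e7, e8]
      _ ≤ 45 * P := by linarith
  have a4 : (X / q + 1) * M ≤ 2 * P := by
    calc (X / q + 1) * M ≤ (X / q + X / q) * M := by gcongr
      _ = 2 * P := by
        rw [hM, hP, hW, hBm]
        field_simp
        ring
  have hsum : W * (1 / s + q * s / X + q * D ^ 2 / X ^ 2) +
        J ^ 2 * (1 / η ^ 2 * (s * X + X ^ 2 / (q * w₁) + X * w₂ / q + X ^ 2 / (q * s4)) +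
          W * Real.sqrt η) +
        (X / q + 1) * M ≤ 50 * P := by linarith
  calc C * L ^ c * (W * (1 / s + q * s / X + q * D ^ 2 / X ^ 2) +
        J ^ 2 * (1 / η ^ 2 * (s * X + X ^ 2 / (q * w₁) + X * w₂ / q + X ^ 2 / (q * s4)) +
          W * Real.sqrt η) +
        (X / q + 1) * M)
      ≤ C * L ^ c * (50 * P) := mul_le_mul_of_nonneg_left hsum (by positivity)
    _ = (50 * C) * (W / L ^ (B'' + 2)) := by
        have e2 : L ^ (c + B'' + 2) = L ^ c * L ^ (B'' + 2) := by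
          rw [← pow_add]
          congr 1
        rw [hP, e2]
        field_simp
    _ ≤ (1 / 16 * L) * (W / L ^ (B'' + 2)) := by
        refine mul_le_mul_of_nonneg_right ?_ (by positivity)
        linarith
    _ ≤ 1 / 16 * (X ^ 2 / (q * L ^ B'')) := by
        have e1 : X ^ 2 / (q * L ^ B'') = W / L ^ B'' := by rw [hW]; field_simp
        rw [e1, mul_assoc]
        refine mul_le_mul_of_nonneg_left ?_ (by norm_num)
        rw [← mul_div_assoc, div_le_div_iff₀ (by positivity) (by positivity)]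
        have e2 : L * L ^ B'' ≤ L ^ (B'' + 2) := by
          rw [← pow_succ']
          exact pow_le_pow_right₀ hL1 (by omega)
        calc L * W * L ^ B'' = W * (L * L ^ B'') := by ring
          _ ≤ W * L ^ (B'' + 2) := by gcongr

/-- arithmetic of the variance -/
lemma var_arithN (E c b b₃ : ℕ) (C X L k D J M η ρ T1 T2 : ℝ) (hC : 0 < C) (hL : 1000 ≤ L)
    (hLC : 66 * C ≤ L) (hX : 1 ≤ X) (hk0 : 0 ≤ k) (hkX : k ≤ X)
    (hb₃ : b₃ = 2 * b + 2 + E + c + 1)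
    (hη : η = 1 / L ^ (2 * b₃)) (hρ : ρ = 2 / L ^ (3 * b₃))
    (hM : M = X / L ^ (E + c + 1)) (hJ0 : 0 ≤ J) (hJ : J ≤ 3 * L ^ (b + 1))
    (h1 : k * (D ^ 2 + X) ≤ X ^ 2 / L ^ (E + c + 1)) (h2 : T1 + T2 ≤ X ^ 2 / L ^ (5 * b₃)) :
    C * L ^ c * (k * (D ^ 2 + X) + J ^ 2 * (1 / η ^ 2 * (ρ ^ 2 * X ^ 2 + T1 + T2) +
        (η * X + k) * Real.sqrt η * X) + (X + k) * M) ≤ X ^ 2 / L ^ E := by
  have hL0 : 0 < L := by linarith
  have hL1 : 1 ≤ L := by linarith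
  have hX0 : 0 < X := by linarith
  have hη0 : 0 < η := by rw [hη]; positivity
  have hη1 : η ≤ 1 := by
    rw [hη, div_le_one (by positivity)]
    exact one_le_pow₀ hL1
  have hM0 : 0 < M := by rw [hM]; positivity
  have hsq : Real.sqrt η = 1 / L ^ b₃ := by
    rw [Real.sqrt_eq_iff_mul_self_eq hη0.le (by positivity), hη]
    rw [two_mul, pow_add]
    field_simp
  set P := X ^ 2 / L ^ (E + c + 1) with hP
  have hP0 : 0 < P := by positivity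
  have hJ2 : J ^ 2 ≤ 9 * L ^ (2 * b + 2) := by
    calc J ^ 2 ≤ (3 * L ^ (b + 1)) ^ 2 := pow_le_pow_left₀ hJ0 hJ 2
      _ = _ := by ring
  have hexp : L ^ b₃ = L ^ (2 * b + 2) * L ^ (E + c + 1) := by
    rw [hb₃, ← pow_add]
    congr 1
    ring
  have hη2 : 1 / η ^ 2 = L ^ (4 * b₃) := by
    rw [hη, div_pow, one_pow, one_div_one_div, ← pow_mul]
    congr 1
    ring
  have a1 : 1 / η ^ 2 * (ρ ^ 2 * X ^ 2 + T1 + T2) ≤ 5 * (X ^ 2 / L ^ b₃) := by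
    have e1 : L ^ (4 * b₃) * (ρ ^ 2 * X ^ 2) ≤ 4 * (X ^ 2 / L ^ b₃) := by
      have e2 : L ^ (4 * b₃) * (ρ ^ 2 * X ^ 2) = 4 * (X ^ 2 / L ^ (2 * b₃)) := by
        have h3 : (L ^ (3 * b₃)) ^ 2 = L ^ (4 * b₃) * L ^ (2 * b₃) := by
          rw [← pow_mul, ← pow_add]; congr 1; ring
        rw [hρ, div_pow, h3]
        field_simp
        norm_num
      rw [e2]
      have e3 : L ^ b₃ ≤ L ^ (2 * b₃) := pow_le_pow_right₀ hL1 (by omega)
      gcongr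
    have e4 : L ^ (4 * b₃) * (T1 + T2) ≤ X ^ 2 / L ^ b₃ := by
      calc L ^ (4 * b₃) * (T1 + T2) ≤ L ^ (4 * b₃) * (X ^ 2 / L ^ (5 * b₃)) := by gcongr
        _ = X ^ 2 / L ^ b₃ := by
          have : L ^ (5 * b₃) = L ^ (4 * b₃) * L ^ b₃ := by rw [← pow_add]; congr 1; ring
          rw [this]
          field_simp
    rw [hη2]
    calc L ^ (4 * b₃) * (ρ ^ 2 * X ^ 2 + T1 + T2)
        = L ^ (4 * b₃) * (ρ ^ 2 * X ^ 2) + L ^ (4 * b₃) * (T1 + T2) := by ring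
      _ ≤ _ := by linarith
  have a2 : (η * X + k) * Real.sqrt η * X ≤ 2 * (X ^ 2 / L ^ b₃) := by
    rw [hsq]
    have : η * X + k ≤ 2 * X := by nlinarith
    calc (η * X + k) * (1 / L ^ b₃) * X ≤ 2 * X * (1 / L ^ b₃) * X := by gcongr
      _ = _ := by ring
  have a3 : J ^ 2 * (1 / η ^ 2 * (ρ ^ 2 * X ^ 2 + T1 + T2) + (η * X + k) * Real.sqrt η * X) ≤
      63 * P := by
    have h0 : 0 ≤ 5 * (X ^ 2 / L ^ b₃) + 2 * (X ^ 2 / L ^ b₃) := by positivity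
    calc J ^ 2 * (1 / η ^ 2 * (ρ ^ 2 * X ^ 2 + T1 + T2) + (η * X + k) * Real.sqrt η * X)
        ≤ J ^ 2 * (5 * (X ^ 2 / L ^ b₃) + 2 * (X ^ 2 / L ^ b₃)) := by gcongr
      _ ≤ 9 * L ^ (2 * b + 2) * (5 * (X ^ 2 / L ^ b₃) + 2 * (X ^ 2 / L ^ b₃)) := by gcongr
      _ = 63 * P := by
          rw [hP, hexp]
          field_simp
          ring
  have a4 : (X + k) * M ≤ 2 * P := by
    calc (X + k) * M ≤ (X + X) * M := by gcongr
      _ = 2 * P := by rw [hM, hP]; ring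
  calc C * L ^ c * (k * (D ^ 2 + X) + J ^ 2 * (1 / η ^ 2 * (ρ ^ 2 * X ^ 2 + T1 + T2) +
        (η * X + k) * Real.sqrt η * X) + (X + k) * M)
      ≤ C * L ^ c * (66 * P) := by
        refine mul_le_mul_of_nonneg_left ?_ (by positivity)
        linarith
    _ = (66 * C) * (X ^ 2 / L ^ (E + 1)) := by
        rw [hP]
        have : L ^ (E + c + 1) = L ^ c * L ^ (E + 1) := by rw [← pow_add]; congr 1; ring
        rw [this]
        field_simp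
    _ ≤ L * (X ^ 2 / L ^ (E + 1)) := by gcongr
    _ = X ^ 2 / L ^ E := by
        rw [pow_succ' L E]
        field_simp

/-- the large value terms -/
lemma large_arith (X k w₂ ε R : ℝ) (hX : 1 ≤ X) (hε : 0 < ε) (hk0 : 0 ≤ k) (hw0 : 0 ≤ w₂)
    (hR : 0 < R) (hk : k ≤ X ^ (10 / 11 - 3 * ε / 4)) (hw : w₂ ≤ X ^ (2 / 11 + ε / 4))
    (h3 : 3 * R ≤ X ^ (ε / 4)) :
    X ^ 2 / X ^ (ε / 4) + (X ^ (ε / 4)) ^ 4 * (w₂ ^ 5 * k ^ 4 * Real.sqrt k + k ^ 5 * Real.sqrt k) /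
      X ^ 3 ≤ X ^ 2 / R := by
  have hX0 : 0 < X := by linarith
  have mono : ∀ a b : ℝ, a ≤ b → X ^ a ≤ X ^ b := fun a b h =>
    Real.rpow_le_rpow_of_exponent_le hX h
  have pw : ∀ (a : ℝ) (n : ℕ), (X ^ a) ^ n = X ^ (a * n) := fun a n => by
    rw [Real.rpow_mul hX0.le, Real.rpow_natCast]
  have hsk : Real.sqrt k ≤ X ^ (5 / 11 - 3 * ε / 8) := by
    refine (Real.sqrt_le_sqrt hk).trans_eq ?_
    rw [Real.sqrt_eq_rpow, ← Real.rpow_mul hX0.le]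
    congr 1
    ring
  have hX2 : X ^ 2 = X ^ (2 : ℝ) := by rw [← Real.rpow_natCast]; norm_num
  have hX3 : X ^ 3 = X ^ (3 : ℝ) := by rw [← Real.rpow_natCast]; norm_num
  have t1' : w₂ ^ 5 * k ^ 4 * Real.sqrt k ≤ X ^ (5 - 5 * ε / 4) := by
    calc w₂ ^ 5 * k ^ 4 * Real.sqrt k
        ≤ (X ^ (2 / 11 + ε / 4)) ^ 5 * (X ^ (10 / 11 - 3 * ε / 4)) ^ 4 *
          X ^ (5 / 11 - 3 * ε / 8) := by gcongr
      _ = X ^ (5 - 17 * ε / 8) := by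
          rw [pw, pw, ← Real.rpow_add hX0, ← Real.rpow_add hX0]
          congr 1
          push_cast
          ring
      _ ≤ _ := mono _ _ (by linarith)
  have t2' : k ^ 5 * Real.sqrt k ≤ X ^ (5 - 5 * ε / 4) := by
    calc k ^ 5 * Real.sqrt k
        ≤ (X ^ (10 / 11 - 3 * ε / 4)) ^ 5 * X ^ (5 / 11 - 3 * ε / 8) := by gcongr
      _ = X ^ (5 - 33 * ε / 8) := by
          rw [pw, ← Real.rpow_add hX0]
          congr 1
          push_cast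
          ring
      _ ≤ _ := mono _ _ (by linarith)
  have e1 : X ^ 2 / X ^ (ε / 4) = X ^ (2 - ε / 4) := by
    rw [hX2, ← Real.rpow_sub hX0]
  have e2 : (X ^ (ε / 4)) ^ 4 * (X ^ (5 - 5 * ε / 4) + X ^ (5 - 5 * ε / 4)) / X ^ 3 =
      2 * X ^ (2 - ε / 4) := by
    have e3 : (X ^ (ε / 4)) ^ 4 * X ^ (5 - 5 * ε / 4) = X ^ (2 - ε / 4) * X ^ 3 := by
      rw [pw, hX3, ← Real.rpow_add hX0, ← Real.rpow_add hX0]
      congr 1
      push_cast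
      ring
    rw [← two_mul, show (X ^ (ε / 4)) ^ 4 * (2 * X ^ (5 - 5 * ε / 4)) =
      2 * ((X ^ (ε / 4)) ^ 4 * X ^ (5 - 5 * ε / 4)) by ring, e3]
    field_simp
  have e4 : (X ^ (ε / 4)) ^ 4 * (w₂ ^ 5 * k ^ 4 * Real.sqrt k + k ^ 5 * Real.sqrt k) / X ^ 3 ≤
      2 * X ^ (2 - ε / 4) := by
    rw [← e2]
    gcongr
  calc _ ≤ X ^ (2 - ε / 4) + 2 * X ^ (2 - ε / 4) := by rw [e1]; gcongr
    _ = 3 * X ^ (2 - ε / 4) := by ring
    _ ≤ X ^ 2 / R := by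
      rw [le_div_iff₀ hR]
      calc 3 * X ^ (2 - ε / 4) * R = X ^ (2 - ε / 4) * (3 * R) := by ring
        _ ≤ X ^ (2 - ε / 4) * X ^ (ε / 4) := by gcongr
        _ = X ^ 2 := by
          rw [hX2, ← Real.rpow_add hX0]
          congr 1
          ring

/-- the model on the minor arcs -/
lemma VV_vT2 (C : ℝ) (hC : 0 < C) (hT : ∀ (y q Q s : ℕ) (φ : ℕ → ℂ) (α : ℝ) (b : ℤ), 1 ≤ q →
      1 ≤ Q → Tw q φ → Q < s → IsCoprime b (s : ℤ) → |q * α - b / s| ≤ 1 / (2 * s * Q) →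
      ‖∑ n ∈ Icc 1 y, TM q Q n * φ n * e (n * α)‖ ≤
        C * ((q : ℝ) / q.totient) * Real.sqrt q * (s * (1 + Real.log Q) + (Q : ℝ) ^ 3))
    (x q Q s : ℕ) (V α : ℝ) (b : ℤ) (v : ℕ → ℝ) (hv : BVar x V v) (hV : 0 ≤ V)
    (hq : 1 ≤ q) (hQ : 1 ≤ Q) (hsQ : Q < s) (hbs : IsCoprime b (s : ℤ))
    (hα : |q * α - b / s| ≤ 1 / (2 * s * Q)) :
    VV q x (fun n => ((v n : ℝ) : ℂ) * TM q Q n) α ≤ (2 * V * (C * ((q : ℝ) / q.totient) *
      Real.sqrt q * (s * (1 + Real.log Q) + (Q : ℝ) ^ 3))) ^ 2 := by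
  have hlQ : 0 ≤ Real.log Q := Real.log_natCast_nonneg Q
  refine VV_le q x hq _ (fun n hn => ?_) α _ (by positivity) ?_
  · show ((v n : ℝ) : ℂ) * TM q Q n = 0
    unfold TM
    rw [if_neg hn, mul_zero]
  intro φ hφ
  have h1 : ∑ n ∈ Icc 1 x, (((v n : ℝ) : ℂ) * TM q Q n) * φ n * e (n * α) =
      ∑ n ∈ Icc 1 x, ((v n : ℝ) : ℂ) * (TM q Q n * φ n * e (n * α)) :=
    sum_congr rfl fun n _ => by ring
  rw [h1]
  refine SupFaux.abel x v V hv _ _ (by positivity) fun y' hy' => ?_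
  exact hT y' q Q s φ α b hq hQ hφ hsQ hbs hα

/-- arithmetic of the model on the minor arcs -/
lemma T_arith (B'' B₁ : ℕ) (C V X L q ρ s Q lQ : ℝ) (hC : 0 < C) (hV : 0 < V)
    (hL : 1000 ≤ L) (hLC : 2 ^ 17 * (C * V) ^ 2 ≤ L) (hX : 1 ≤ X) (hq : 1 ≤ q)
    (hρ0 : 0 ≤ ρ) (hρ : ρ ≤ 4 * L) (hs0 : 0 ≤ s) (hs : q * s ≤ X / L ^ B₁) (hQ0 : 0 ≤ Q)
    (hQ : Q ≤ 2 * L ^ B₁) (hl0 : 0 ≤ lQ) (hl : lQ ≤ L) (hB : B'' + 5 ≤ B₁)
    (hqX : q ^ 2 * (L ^ (6 * B₁) * L ^ (2 * B₁)) ≤ X ^ 2) :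
    (2 * V * (C * ρ * Real.sqrt q * (s * (1 + lQ) + Q ^ 3))) ^ 2 ≤
      1 / 4 * (X ^ 2 / (q * L ^ B'')) := by
  have hL0 : 0 < L := by linarith
  have hL1 : 1 ≤ L := by linarith
  have hX0 : 0 < X := by linarith
  have hq0 : 0 < q := by linarith
  have hsq : Real.sqrt q ^ 2 = q := Real.sq_sqrt hq0.le
  have h1 : s * (1 + lQ) ≤ 2 * L * s := by nlinarith
  have h2 : Q ^ 3 ≤ 8 * L ^ (3 * B₁) := by
    calc Q ^ 3 ≤ (2 * L ^ B₁) ^ 3 := by gcongr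
      _ = 8 * L ^ (3 * B₁) := by rw [mul_pow, ← pow_mul, mul_comm B₁ 3]; norm_num
  have h3 : (s * (1 + lQ) + Q ^ 3) ^ 2 ≤ 2 * (2 * L * s) ^ 2 + 2 * (8 * L ^ (3 * B₁)) ^ 2 := by
    have h4 : s * (1 + lQ) + Q ^ 3 ≤ 2 * L * s + 8 * L ^ (3 * B₁) := by linarith
    have h5 : 0 ≤ s * (1 + lQ) + Q ^ 3 := by positivity
    calc (s * (1 + lQ) + Q ^ 3) ^ 2 ≤ (2 * L * s + 8 * L ^ (3 * B₁)) ^ 2 :=
          pow_le_pow_left₀ h5 h4 2
      _ ≤ _ := by nlinarith [sq_nonneg (2 * L * s - 8 * L ^ (3 * B₁))]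
  -- the two terms
  have h6 : q * (q * s ^ 2) ≤ X ^ 2 / L ^ (2 * B₁) := by
    calc q * (q * s ^ 2) = (q * s) ^ 2 := by ring
      _ ≤ (X / L ^ B₁) ^ 2 := by gcongr
      _ = X ^ 2 / L ^ (2 * B₁) := by rw [div_pow, ← pow_mul, mul_comm B₁ 2]
  have h7 : q * (q * L ^ (6 * B₁)) ≤ X ^ 2 / L ^ (2 * B₁) := by
    rw [le_div_iff₀ (by positivity)]
    calc q * (q * L ^ (6 * B₁)) * L ^ (2 * B₁) = q ^ 2 * (L ^ (6 * B₁) * L ^ (2 * B₁)) := by ring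
      _ ≤ X ^ 2 := hqX
  rw [show X ^ 2 / (q * L ^ B'') = X ^ 2 / L ^ B'' / q by field_simp, ← mul_div_assoc,
    le_div_iff₀ hq0]
  have e6 : (L ^ (3 * B₁)) ^ 2 = L ^ (6 * B₁) := by rw [← pow_mul]; congr 1; ring
  calc (2 * V * (C * ρ * Real.sqrt q * (s * (1 + lQ) + Q ^ 3))) ^ 2 * q
      = 4 * (C * V) ^ 2 * ρ ^ 2 * (q * (Real.sqrt q ^ 2 * (s * (1 + lQ) + Q ^ 3) ^ 2)) := by ring
    _ = 4 * (C * V) ^ 2 * ρ ^ 2 * (q * (q * (s * (1 + lQ) + Q ^ 3) ^ 2)) := by rw [hsq]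
    _ ≤ 4 * (C * V) ^ 2 * (4 * L) ^ 2 *
        (q * (q * (2 * (2 * L * s) ^ 2 + 2 * (8 * L ^ (3 * B₁)) ^ 2))) := by gcongr
    _ = 64 * (C * V) ^ 2 * L ^ 2 *
        (8 * L ^ 2 * (q * (q * s ^ 2)) + 128 * (q * (q * (L ^ (3 * B₁)) ^ 2))) := by ring
    _ = 64 * (C * V) ^ 2 * L ^ 2 *
        (8 * L ^ 2 * (q * (q * s ^ 2)) + 128 * (q * (q * L ^ (6 * B₁)))) := by rw [e6]
    _ ≤ 64 * (C * V) ^ 2 * L ^ 2 *
        (8 * L ^ 2 * (X ^ 2 / L ^ (2 * B₁)) + 128 * (X ^ 2 / L ^ (2 * B₁))) := by gcongr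
    _ ≤ 64 * (C * V) ^ 2 * L ^ 2 *
        (136 * L ^ 2 * (X ^ 2 / L ^ (2 * B₁))) := by
        have h8 : 0 ≤ X ^ 2 / L ^ (2 * B₁) := by positivity
        have h9 : 1 ≤ L ^ 2 := one_le_pow₀ hL1
        have h10 : X ^ 2 / L ^ (2 * B₁) ≤ L ^ 2 * (X ^ 2 / L ^ (2 * B₁)) :=
          le_mul_of_one_le_left h8 h9
        refine mul_le_mul_of_nonneg_left ?_ (by positivity)
        linarith
    _ = 8704 * (C * V) ^ 2 * (L ^ 4 * (X ^ 2 / L ^ (2 * B₁))) := by ring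
    _ ≤ 1 / 4 * L * (L ^ 4 * (X ^ 2 / L ^ (2 * B₁))) := by
        refine mul_le_mul_of_nonneg_right ?_ (by positivity)
        norm_num at hLC
        linarith [sq_nonneg (C * V)]
    _ = 1 / 4 * (X ^ 2 * (L ^ 5 / L ^ (2 * B₁))) := by ring
    _ ≤ 1 / 4 * (X ^ 2 * (1 / L ^ B'')) := by
        have : L ^ 5 / L ^ (2 * B₁) ≤ 1 / L ^ B'' := by
          rw [div_le_div_iff₀ (by positivity) (by positivity), one_mul, ← pow_add]
          exact pow_le_pow_right₀ hL1 (by omega)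
        gcongr
    _ = 1 / 4 * (X ^ 2 / L ^ B'') := by ring

end SupNaux

end Pool.Agent.HN
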