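import Pool.Agent.Work.MP_92f640_nt.HL.TMinor
import Pool.Agent.Work.MP_92f640_nt.HL.TL2

/-! # Module TMinor2: the model on the minor arcs, all `s > Q`

Geometric sums as in HL/TMinor (`gm`): for `r` coprime to `t ≤ Q`, `(t,q) = 1`: bound `1/(2‖qα + q r/t‖)`. As `s > Q ≥ t`, `‖b/s + q r/t‖ ≥ 1/(s t)`, so `‖qα + q r/t‖ ≥ 1/(2 s t)`.
Two different fractions with denominators `≤ Q` differ by `≥ 1/Q²` mod 1: at most one of all the `qα + q r/t` is within `1/(2Q²)` of an integer; it contributes `≤ s t/φ(t) ≤ C s (1 + log Q)`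
(`ratio_le`), the others `≤ Q²` each, `∑_t φ(t) (1/φ(t)) Q² ≤ Q³`. `∑_a |φ(a)| ≤ √q`. -/

namespace Pool.Agent.HN

open Finset Pool.Agent.BV Pool.Agent.HL
open scoped ArithmeticFunction.Moebius

/-- reduction to geometric sums (as in `T_minor`) -/
theorem tm2_expand (x q Q : ℕ) (φ : ℕ → ℂ) (α : ℝ) (hq : 1 ≤ q) (hφ : Tw q φ) :
    ‖∑ n ∈ Icc 1 x, TM q Q n * φ n * e (n * α)‖ ≤
      ((q : ℝ) / q.totient) * (Real.sqrt q *
        ∑ t ∈ (Icc 1 Q).filter (fun t => t.Coprime q), 1 / (t.totient : ℝ) *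
          ∑ b' ∈ (range t).filter (fun b => b.Coprime t),
            gm ((x : ℝ) / q + 1) (q * ((b' : ℝ) / t + α))) := by
  set K : ℂ := (q : ℂ) / (q.totient : ℂ) with hK
  have hKn : ‖K‖ = (q : ℝ) / q.totient := by
    rw [hK, norm_div]; simp
  set Y : ℝ := (x : ℝ) / q + 1 with hY
  have hY0 : 0 ≤ Y := by positivity
  set D := (Icc 1 Q).filter (fun t => t.Coprime q) with hD
  set Bt : ℕ → Finset ℕ := fun t => (range t).filter (fun b => b.Coprime t) with hBt
  have hBcard : ∀ t, 1 ≤ t → ((Bt t).card : ℝ) = t.totient := by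
    intro t _
    have h3 : (Bt t).card = t.totient := by
      unfold Nat.totient
      congr 1
      ext b
      simp only [hBt, mem_filter, mem_range, Nat.coprime_comm]
    rw [h3]
  have hexp : ∑ n ∈ Icc 1 x, TM q Q n * φ n * e (n * α) =
      K * ∑ t ∈ D, ((μ t : ℤ) : ℂ) / (t.totient : ℂ) * ∑ b' ∈ Bt t,
        ∑ n ∈ Icc 1 x, φ n * e (n * ((b' : ℝ) / t + α)) := by
    have h1 : ∀ n ∈ Icc 1 x, TM q Q n * φ n * e (n * α) =
        K * ∑ t ∈ D, ((μ t : ℤ) : ℂ) / (t.totient : ℂ) * ∑ b' ∈ Bt t,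
          φ n * e (n * ((b' : ℝ) / t + α)) := by
      intro n _
      by_cases hn : n.Coprime q
      · unfold TM
        rw [if_pos hn, mul_assoc, mul_assoc, Finset.sum_mul]
        congr 1
        refine Finset.sum_congr rfl fun t _ => ?_
        rw [mul_assoc]
        congr 1
        unfold ram
        rw [Finset.sum_mul]
        refine Finset.sum_congr rfl fun b' _ => ?_
        rw [mul_add, add_e_add]
        ring
      · rw [hφ.cop n hn]
        simp
    rw [Finset.sum_congr rfl h1, ← Finset.mul_sum]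
    congr 1
    rw [Finset.sum_comm]
    refine Finset.sum_congr rfl fun t _ => ?_
    rw [← Finset.mul_sum]
    congr 1
    rw [Finset.sum_comm]
  rw [hexp, norm_mul, hKn]
  apply mul_le_mul_of_nonneg_left _ (by positivity)
  have hw : ∀ t, 1 ≤ t → ‖((μ t : ℤ) : ℂ) / (t.totient : ℂ)‖ ≤ 1 / (t.totient : ℝ) := by
    intro t ht
    have h0 : (0 : ℝ) < t.totient := by exact_mod_cast Nat.totient_pos.2 ht
    rw [norm_div]
    have h1 : ‖((μ t : ℤ) : ℂ)‖ ≤ 1 := by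
      rw [Complex.norm_intCast]
      exact_mod_cast ArithmeticFunction.abs_moebius_le_one
    have h2 : ‖(t.totient : ℂ)‖ = (t.totient : ℝ) := by simp
    rw [h2]
    exact div_le_div_of_nonneg_right h1 h0.le
  have hsq : 0 ≤ Real.sqrt q := Real.sqrt_nonneg _
  have hstep : ‖∑ t ∈ D, ((μ t : ℤ) : ℂ) / (t.totient : ℂ) * ∑ b' ∈ Bt t,
        ∑ n ∈ Icc 1 x, φ n * e (n * ((b' : ℝ) / t + α))‖ ≤
      Real.sqrt q * ∑ t ∈ D, 1 / (t.totient : ℝ) * ∑ b' ∈ Bt t,
        gm Y (q * ((b' : ℝ) / t + α)) := by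
    rw [Finset.mul_sum]
    refine (norm_sum_le _ _).trans (Finset.sum_le_sum fun t ht => ?_)
    have ht1 : 1 ≤ t := (mem_Icc.1 (mem_filter.1 ht).1).1
    rw [norm_mul]
    have h1 : ‖∑ b' ∈ Bt t, ∑ n ∈ Icc 1 x, φ n * e (n * ((b' : ℝ) / t + α))‖ ≤
        Real.sqrt q * ∑ b' ∈ Bt t, gm Y (q * ((b' : ℝ) / t + α)) := by
      rw [Finset.mul_sum]
      exact (norm_sum_le _ _).trans (Finset.sum_le_sum fun b' _ => tmi_twist x q φ _ hq hφ)
    calc _ ≤ 1 / (t.totient : ℝ) *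
          (Real.sqrt q * ∑ b' ∈ Bt t, gm Y (q * ((b' : ℝ) / t + α))) :=
          mul_le_mul (hw t ht1) h1 (norm_nonneg _) (by positivity)
      _ = _ := by ring
  exact hstep

/-- the bound for every pair -/
theorem tm2_off (q Q s t : ℕ) (α Y : ℝ) (b : ℤ) (b' : ℕ) (hY : 0 ≤ Y)
    (hs : 1 ≤ s) (ht : 1 ≤ t) (htQ : t ≤ Q) (hα : |q * α - b / s| ≤ 1 / (2 * s * Q))
    (h : ¬ ((s * t : ℕ) : ℤ) ∣ (q : ℤ) * b' * s + b * t) :
    gm Y (q * ((b' : ℝ) / t + α)) ≤ s * t := by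
  have hs' : (1 : ℝ) ≤ s := by exact_mod_cast hs
  have ht' : (1 : ℝ) ≤ t := by exact_mod_cast ht
  have htQ' : (t : ℝ) ≤ Q := by exact_mod_cast htQ
  have hst : 0 < (s : ℝ) * t := by positivity
  have h2 : 1 / (2 * ((s : ℝ) * t)) ≤
      |q * ((b' : ℝ) / t + α) - round (q * ((b' : ℝ) / t + α))| := by
    have h3 := tmi_dist ((q : ℤ) * b' * s + b * t) (s * t) (Nat.mul_pos hs ht) h
      (round (q * ((b' : ℝ) / t + α)))
    have h4 : (((q : ℤ) * b' * s + b * t : ℤ) : ℝ) / ((s * t : ℕ) : ℝ) =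
        q * ((b' : ℝ) / t) + b / s := by
      push_cast
      field_simp
    rw [h4] at h3
    have h5 : |q * α - b / s| ≤ 1 / (2 * ((s : ℝ) * t)) := by
      refine hα.trans ?_
      apply one_div_le_one_div_of_le (by positivity)
      nlinarith
    have h6 : 1 / (((s * t : ℕ) : ℝ)) = 1 / (2 * ((s : ℝ) * t)) + 1 / (2 * ((s : ℝ) * t)) := by
      push_cast
      field_simp
      ring
    rw [h6] at h3
    have h7 : (q : ℝ) * ((b' : ℝ) / t) + b / s - round (q * ((b' : ℝ) / t + α)) =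
        (q * ((b' : ℝ) / t + α) - round (q * ((b' : ℝ) / t + α))) - (q * α - b / s) := by
      ring
    rw [h7] at h3
    have h8 := abs_sub (q * ((b' : ℝ) / t + α) - round (q * ((b' : ℝ) / t + α)) : ℝ)
      (q * α - b / s)
    linarith
  have h9 := gm_le_of_dist hY (by positivity) h2
  refine h9.trans (le_of_eq ?_)
  field_simp

/-- at most one pair is close to an integer -/
theorem tm2_uniq (q Q t t' : ℕ) (α : ℝ) (b1 b2 : ℕ) (hQ : 1 ≤ Q) (ht : 1 ≤ t) (htQ : t ≤ Q)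
    (ht' : 1 ≤ t') (htQ' : t' ≤ Q) (htq : t.Coprime q) (htq' : t'.Coprime q)
    (hb1 : b1 < t) (hb1t : b1.Coprime t) (hb2 : b2 < t') (hb2t : b2.Coprime t')
    (h1 : |q * ((b1 : ℝ) / t + α) - round (q * ((b1 : ℝ) / t + α))| < 1 / (2 * (Q : ℝ) ^ 2))
    (h2 : |q * ((b2 : ℝ) / t' + α) - round (q * ((b2 : ℝ) / t' + α))| < 1 / (2 * (Q : ℝ) ^ 2)) :
    t = t' ∧ b1 = b2 := by
  have hQ' : (1 : ℝ) ≤ Q := by exact_mod_cast hQ
  have htr : (1 : ℝ) ≤ t := by exact_mod_cast ht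
  have htr' : (1 : ℝ) ≤ t' := by exact_mod_cast ht'
  have htQr : (t : ℝ) ≤ Q := by exact_mod_cast htQ
  have htQr' : (t' : ℝ) ≤ Q := by exact_mod_cast htQ'
  set m1 := round (q * ((b1 : ℝ) / t + α)) with hm1
  set m2 := round (q * ((b2 : ℝ) / t' + α)) with hm2
  -- the difference is an integer
  have hdvd : ((t * t' : ℕ) : ℤ) ∣ (q : ℤ) * b1 * t' - q * b2 * t := by
    by_contra hnot
    have h3 := tmi_dist ((q : ℤ) * b1 * t' - q * b2 * t) (t * t') (Nat.mul_pos ht ht') hnot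
      (m1 - m2)
    have h4 : (((q : ℤ) * b1 * t' - q * b2 * t : ℤ) : ℝ) / ((t * t' : ℕ) : ℝ) =
        q * ((b1 : ℝ) / t) - q * ((b2 : ℝ) / t') := by
      push_cast
      field_simp
    rw [h4] at h3
    have h5 : q * ((b1 : ℝ) / t) - q * ((b2 : ℝ) / t') - ((m1 - m2 : ℤ) : ℝ) =
        (q * ((b1 : ℝ) / t + α) - m1) - (q * ((b2 : ℝ) / t' + α) - m2) := by
      push_cast
      ring
    rw [h5] at h3
    have h6 := abs_sub (q * ((b1 : ℝ) / t + α) - m1 : ℝ) (q * ((b2 : ℝ) / t' + α) - m2)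
    have h7 : 1 / ((Q : ℝ) ^ 2) ≤ 1 / ((t * t' : ℕ) : ℝ) := by
      apply one_div_le_one_div_of_le
      · push_cast; positivity
      · push_cast
        rw [sq]
        exact mul_le_mul htQr htQr' (by linarith) (by linarith)
    have h8 : 1 / ((Q : ℝ) ^ 2) = 1 / (2 * (Q : ℝ) ^ 2) + 1 / (2 * (Q : ℝ) ^ 2) := by
      field_simp
      ring
    linarith
  have e1 : (t : ℤ) ∣ (q : ℤ) * b1 * t' := by
    have h3 : (t : ℤ) ∣ (q : ℤ) * b1 * t' - q * b2 * t :=
      dvd_trans (by push_cast; exact dvd_mul_right _ _) hdvd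
    have h4 := dvd_add h3 (dvd_mul_left (t : ℤ) ((q : ℤ) * b2))
    simpa using h4
  have e2 : (t' : ℤ) ∣ (q : ℤ) * b2 * t := by
    have h3 : (t' : ℤ) ∣ (q : ℤ) * b1 * t' - q * b2 * t :=
      dvd_trans (by push_cast; exact dvd_mul_left _ _) hdvd
    have h4 := dvd_sub (dvd_mul_left (t' : ℤ) ((q : ℤ) * b1)) h3
    simpa using h4
  have f1 : t ∣ t' := by
    have h3 : t ∣ q * b1 * t' := by exact_mod_cast e1
    exact (htq.mul_right hb1t.symm).dvd_of_dvd_mul_left h3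
  have f2 : t' ∣ t := by
    have h3 : t' ∣ q * b2 * t := by exact_mod_cast e2
    exact (htq'.mul_right hb2t.symm).dvd_of_dvd_mul_left h3
  have htt : t = t' := Nat.dvd_antisymm f1 f2
  subst htt
  refine ⟨rfl, ?_⟩
  have h3 : ((t : ℤ) * t) ∣ t * ((q : ℤ) * (b1 - b2)) := by
    have : (t : ℤ) * ((q : ℤ) * (b1 - b2)) = (q : ℤ) * b1 * t - q * b2 * t := by ring
    rw [this]
    exact_mod_cast hdvd
  have h4 : (t : ℤ) ∣ (q : ℤ) * (b1 - b2) :=
    (mul_dvd_mul_iff_left (by exact_mod_cast (by omega : t ≠ 0))).1 h3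
  have h5 : (t : ℤ) ∣ (b1 : ℤ) - b2 := by
    have h8 : IsCoprime (t : ℤ) (q : ℤ) := Nat.isCoprime_iff_coprime.2 htq
    exact h8.dvd_of_dvd_mul_left h4
  have h9 : ((b2 : ℕ) : ℤ) ≡ b1 [ZMOD t] := Int.modEq_iff_dvd.2 h5
  have h10 : b2 ≡ b1 [MOD t] := (Int.natCast_modEq_iff).1 h9
  rw [Nat.ModEq, Nat.mod_eq_of_lt hb2, Nat.mod_eq_of_lt hb1] at h10
  exact h10.symm

theorem T_minor2 : ∃ C : ℝ, 0 < C ∧ ∀ (y q Q s : ℕ) (φ : ℕ → ℂ) (α : ℝ) (b : ℤ), 1 ≤ q → 1 ≤ Q →
    Tw q φ → Q < s → IsCoprime b (s : ℤ) → |q * α - b / s| ≤ 1 / (2 * s * Q) →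
    ‖∑ n ∈ Icc 1 y, TM q Q n * φ n * e (n * α)‖ ≤
      C * ((q : ℝ) / q.totient) * Real.sqrt q * (s * (1 + Real.log Q) + (Q : ℝ) ^ 3) := by
  refine ⟨2, by norm_num, ?_⟩
  intro y q Q s φ α b hq hQ hφ hQs hbs hα
  refine (tm2_expand y q Q φ α hq hφ).trans ?_
  set Y : ℝ := (y : ℝ) / q + 1 with hY
  have hY0 : 0 ≤ Y := by positivity
  have hQ' : (1 : ℝ) ≤ Q := by exact_mod_cast hQ
  have hs1 : 1 ≤ s := by omega
  have hlog : 0 ≤ Real.log Q := Real.log_nonneg hQ'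
  classical
  set D := (Icc 1 Q).filter (fun t => t.Coprime q) with hD
  set Bt : ℕ → Finset ℕ := fun t => (range t).filter (fun b => b.Coprime t) with hBt
  have hBcard : ∀ t, ((Bt t).card : ℝ) = t.totient := by
    intro t
    have h3 : (Bt t).card = t.totient := by
      unfold Nat.totient
      congr 1
      ext b
      simp only [hBt, mem_filter, mem_range, Nat.coprime_comm]
    rw [h3]
  have hmemD : ∀ t ∈ D, 1 ≤ t ∧ t ≤ Q ∧ t.Coprime q := fun t ht =>
    ⟨(mem_Icc.1 (mem_filter.1 ht).1).1, (mem_Icc.1 (mem_filter.1 ht).1).2, (mem_filter.1 ht).2⟩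
  have hmemB : ∀ t, ∀ b' ∈ Bt t, b' < t ∧ b'.Coprime t := fun t b' hb =>
    ⟨mem_range.1 (mem_filter.1 hb).1, (mem_filter.1 hb).2⟩
  let X : ℕ → ℕ → Prop := fun t b' =>
    |q * ((b' : ℝ) / t + α) - round (q * ((b' : ℝ) / t + α))| < 1 / (2 * (Q : ℝ) ^ 2)
  have hone : ∀ t ∈ D, ∀ b' ∈ Bt t, gm Y (q * ((b' : ℝ) / t + α)) ≤
      (Q : ℝ) ^ 2 + if X t b' then (s : ℝ) * t else 0 := by
    intro t ht b' hb'
    obtain ⟨ht1, ht2, htq⟩ := hmemD t ht
    obtain ⟨hb1, hb2⟩ := hmemB t b' hb'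
    by_cases hx : X t b'
    · rw [if_pos hx]
      have h1 : gm Y (q * ((b' : ℝ) / t + α)) ≤ s * t := by
        refine tm2_off q Q s t α Y b b' hY0 hs1 ht1 ht2 hα ?_
        intro hdvd
        have := (tmi_diag q s t b b' hs1 ht1 htq hb2 hbs hdvd).1
        omega
      have h2 : (0 : ℝ) ≤ (Q : ℝ) ^ 2 := by positivity
      linarith
    · rw [if_neg hx, add_zero]
      have h1 : 1 / (2 * (Q : ℝ) ^ 2) ≤
          |q * ((b' : ℝ) / t + α) - round (q * ((b' : ℝ) / t + α))| := not_lt.1 hx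
      refine (gm_le_of_dist hY0 (by positivity) h1).trans (le_of_eq ?_)
      field_simp
  have hexc : ∑ t ∈ D, 1 / (t.totient : ℝ) * ∑ b' ∈ Bt t, (if X t b' then (s : ℝ) * t else 0) ≤
      2 * (s * (1 + Real.log Q)) := by
    by_cases hex : ∃ t0 ∈ D, ∃ b0 ∈ Bt t0, X t0 b0
    · obtain ⟨t0, ht0, b0, hb0, hx0⟩ := hex
      obtain ⟨t01, t02, t03⟩ := hmemD t0 ht0
      obtain ⟨b01, b02⟩ := hmemB t0 b0 hb0
      have huniq : ∀ t ∈ D, ∀ b' ∈ Bt t, X t b' → t = t0 ∧ b' = b0 := by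
        intro t ht b' hb' hx
        obtain ⟨ht1, ht2, htq⟩ := hmemD t ht
        obtain ⟨hb1, hb2⟩ := hmemB t b' hb'
        exact tm2_uniq q Q t t0 α b' b0 hQ ht1 ht2 t01 t02 htq t03 hb1 hb2 b01 b02 hx hx0
      have h1 : ∀ t ∈ D, 1 / (t.totient : ℝ) *
          ∑ b' ∈ Bt t, (if X t b' then (s : ℝ) * t else 0) ≤
          if t = t0 then 1 / (t0.totient : ℝ) * (s * t0) else 0 := by
        intro t ht
        by_cases htt : t = t0
        · rw [if_pos htt]
          subst htt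
          apply mul_le_mul_of_nonneg_left _ (by positivity)
          calc ∑ b' ∈ Bt t, (if X t b' then (s : ℝ) * t else 0)
              ≤ ∑ b' ∈ Bt t, (if b' = b0 then (s : ℝ) * t else 0) := by
                refine Finset.sum_le_sum fun b' hb' => ?_
                by_cases hx : X t b'
                · rw [if_pos hx, if_pos (huniq t ht b' hb' hx).2]
                · rw [if_neg hx]
                  split_ifs
                  · positivity
                  · exact le_rfl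
            _ ≤ s * t := by
                rw [Finset.sum_ite_eq' (Bt t) b0, if_pos hb0]
        · rw [if_neg htt]
          apply le_of_eq
          rw [Finset.sum_eq_zero, mul_zero]
          intro b' hb'
          rw [if_neg]
          intro hx
          exact htt (huniq t ht b' hb' hx).1
      refine (Finset.sum_le_sum h1).trans ?_
      rw [Finset.sum_ite_eq' D t0, if_pos ht0]
      have h2 := ratio_le t0 t01
      have h3 : Real.log t0 ≤ Real.log Q :=
        Real.log_le_log (by exact_mod_cast t01) (by exact_mod_cast t02)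
      have h4 : 1 / (t0.totient : ℝ) * (s * t0) = s * ((t0 : ℝ) / t0.totient) := by ring
      rw [h4]
      have h5 : (0 : ℝ) ≤ s := Nat.cast_nonneg _
      calc (s : ℝ) * ((t0 : ℝ) / t0.totient) ≤ s * (2 * (1 + Real.log Q)) := by
            apply mul_le_mul_of_nonneg_left _ h5
            linarith
        _ = 2 * (s * (1 + Real.log Q)) := by ring
    · push Not at hex
      have h1 : ∑ t ∈ D, 1 / (t.totient : ℝ) *
          ∑ b' ∈ Bt t, (if X t b' then (s : ℝ) * t else 0) = 0 := by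
        refine Finset.sum_eq_zero fun t ht => ?_
        rw [Finset.sum_eq_zero, mul_zero]
        intro b' hb'
        rw [if_neg (hex t ht b' hb')]
      rw [h1]
      positivity
  have hmain : ∑ t ∈ D, 1 / (t.totient : ℝ) * ∑ b' ∈ Bt t, gm Y (q * ((b' : ℝ) / t + α)) ≤
      2 * (s * (1 + Real.log Q)) + (Q : ℝ) ^ 3 := by
    have h1 : ∀ t ∈ D, 1 / (t.totient : ℝ) * ∑ b' ∈ Bt t, gm Y (q * ((b' : ℝ) / t + α)) ≤
        (Q : ℝ) ^ 2 + 1 / (t.totient : ℝ) * ∑ b' ∈ Bt t, (if X t b' then (s : ℝ) * t else 0) := by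
      intro t ht
      obtain ⟨ht1, ht2, htq⟩ := hmemD t ht
      have h0 : (0 : ℝ) < t.totient := by exact_mod_cast Nat.totient_pos.2 ht1
      have h2 := Finset.sum_le_sum (hone t ht)
      rw [Finset.sum_add_distrib, Finset.sum_const, nsmul_eq_mul, hBcard t] at h2
      have h3 := mul_le_mul_of_nonneg_left h2 (by positivity : (0 : ℝ) ≤ 1 / (t.totient : ℝ))
      refine h3.trans (le_of_eq ?_)
      rw [mul_add]
      congr 1
      field_simp
    refine (Finset.sum_le_sum h1).trans ?_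
    rw [Finset.sum_add_distrib, Finset.sum_const, nsmul_eq_mul]
    have h2 : (D.card : ℝ) ≤ Q := by
      have h3 : D.card ≤ Q := by
        refine (Finset.card_filter_le _ _).trans ?_
        simp
      exact_mod_cast h3
    have h4 : (D.card : ℝ) * (Q : ℝ) ^ 2 ≤ (Q : ℝ) ^ 3 := by
      calc (D.card : ℝ) * (Q : ℝ) ^ 2 ≤ Q * (Q : ℝ) ^ 2 :=
            mul_le_mul_of_nonneg_right h2 (by positivity)
        _ = (Q : ℝ) ^ 3 := by ring
    linarith
  have hK : (0 : ℝ) ≤ (q : ℝ) / q.totient := by positivity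
  have hsq : 0 ≤ Real.sqrt q := Real.sqrt_nonneg _
  have h3 : (0 : ℝ) ≤ (Q : ℝ) ^ 3 := by positivity
  calc (q : ℝ) / q.totient * (Real.sqrt q * ∑ t ∈ D, 1 / (t.totient : ℝ) *
        ∑ b' ∈ Bt t, gm Y (q * ((b' : ℝ) / t + α)))
      ≤ (q : ℝ) / q.totient * (Real.sqrt q * (2 * (s * (1 + Real.log Q) + (Q : ℝ) ^ 3))) := by
        apply mul_le_mul_of_nonneg_left _ hK
        apply mul_le_mul_of_nonneg_left _ hsq
        linarith
    _ = 2 * ((q : ℝ) / q.totient) * Real.sqrt q * (s * (1 + Real.log Q) + (Q : ℝ) ^ 3) := by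
        ring

end Pool.Agent.HN
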