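import Pool.Agent.Work.MP_92f640_nt.HN.CtlMinorN
import Pool.Agent.Work.MP_92f640_nt.HN.CtlVarN
import Pool.Agent.Work.MP_92f640_nt.HN.TMinor2
import Pool.Agent.Work.MP_92f640_nt.HN.SupNA
import Pool.Agent.Work.MP_92f640_nt.HS.SupF

/-! # Module SupN

Copy of HS/SupF with `z = zx (9/11) x`, `D0 = ⌈x^(6/11)⌉`, `w₂ = w z ≤ 4 x^(κ + 2/11)`, `D = w² D0 ≤ 8 x^(2κ + 6/11)`. `aa_ctl (9/11) κ` twice. (1) minor arcs: `Bm = c_m + B'' + 2` gives `B'm`; cells in `ctl_minorN` (`η₁ = 1/11`):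
`η = L^(-e)`, `e = 2 (2 B'm + 4 + c_m + B'' + 3)`; `B₁ = 4 (2 B'm + 4 + 2 e + c_m + B'' + 3)` (`s > L^B₁`: `x²/(q s^(1/4)) ≤ (x²/q) L^(-B₁/4)`, `s x ≤ (x²/q) L^(-B₁)`, `x²/(q w₁)`, `x w₂/q`: powers of `x`). (2) `B₂ = B₁`, `S = x/(q L^B₁)`: for `s > Q ≥ L^B₁`:
`1/(s S) ≤ q/x` and `≤ 1/(2 s Q)`. Cases `s ≤ Q` / `s > Q` (`Q = ⌈L^B₁⌉`, so `s ≤ L^(B₁+1)` in `GoodF`, `goodF_all (9/11) κ` with `B₁ + 1`). Major arcs: `E = B'' + 2 B₁ + 2`, `ctl_varN` with `Δ = x^(ε/4)`, `ρ`, `η` as in SupF: `k = q s ≤ x^(10/11 - ε) L^(B₁+1)`: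
`k D² ≤ x^(2 - ε/2)`, `Δ⁴ w₂^5 k^(9/2)/x³ ≤ x^(2 + ε + 5κ - 4.5 ε + o(1))`, `Δ⁴ k^(11/2)/x³ ≤ x^(2 + ε - 5.5 ε + o(1))`. Model on the minor arcs: `VV_le`, `SupFaux.abel`, `T_minor2` at every `y ≤ x`. -/

namespace Pool.Agent.HN

open Finset Filter Pool.Agent.BV Pool.Agent.HL Pool.Agent.HS

theorem sup_N (κ ε V : ℝ) (hκ : 0 < κ) (hκ1 : κ ≤ 1 / 100) (hε : 0 < ε) (hκε : 8 * κ ≤ ε)
    (hV : 0 < V) (B'' : ℕ) :
    ∃ B₁ B' B9 BD : ℕ, B'' ≤ B₁ ∧ ∀ A₁ : ℕ, ∃ x₁ : ℕ, ∀ x : ℕ, x₁ ≤ x →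
    ∀ q : ℕ, 1 ≤ q → (q : ℝ) ≤ (x : ℝ) ^ (10 / 11 - ε) →
    GoodF x (wk κ x) (wk κ x * zx (9 / 11) x) (JJ x B') B9
      (AJ (y0 x) (zx (9 / 11) x) (wk κ x) (1 / (Real.log x) ^ B')) ((Real.log x) ^ A₁)
      ((Real.log x) ^ (B₁ + 1)) q →
    ∀ cc v : ℕ → ℝ, Wt (zx (9 / 11) x) ⌈(x : ℝ) ^ (6 / 11 : ℝ)⌉₊ cc → BVar x V v →
    (∀ y ≤ x, |∑ n ∈ Icc 1 y, (cut x (aa cc (zx (9 / 11) x)) n - v n)| ≤
      (x : ℝ) / (Real.log x) ^ BD) →
    ∀ α : ℝ, VV q x (fun n => FA q (cut x (aa cc (zx (9 / 11) x))) n -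
      ((v n : ℝ) : ℂ) * TM q ⌈(Real.log x) ^ B₁⌉₊ n) α ≤
      (x : ℝ) ^ 2 / (q * (Real.log x) ^ B'') := by
  have hθ : (1 : ℝ) / 2 ≤ 9 / 11 := by norm_num
  have hθ1 : (9 : ℝ) / 11 < 1 := by norm_num
  have hκ8 : κ ≤ 1 / 8 := by linarith
  obtain ⟨Cm, cm, hCm, hmin⟩ := ctl_minorN (1 / 11) (by norm_num)
  obtain ⟨Cv, cv, hCv, hvar⟩ := ctl_varN
  obtain ⟨CT, hCT, hTm⟩ := T_minor2
  obtain ⟨Bp, xa, hxa⟩ := aa_ctl (9 / 11) κ hθ hθ1 hκ hκ8 (cm + B'' + 2)
  set e₀ : ℕ := 2 * Bp + 4 + cm + B'' + 3 with he₀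
  set e1 : ℕ := 2 * Bp + 4 + 4 * e₀ + cm + B'' + 3 with he1
  set B₁ : ℕ := 4 * e1 with hB₁
  set E : ℕ := B'' + 2 * B₁ + 2 with hE
  obtain ⟨B', xb, hxb⟩ := aa_ctl (9 / 11) κ hθ hθ1 hκ hκ8 (E + cv + 1)
  set b₃ : ℕ := 2 * B' + 2 + E + cv + 1 with hb₃
  refine ⟨B₁, B', 3 * b₃, E, by omega, fun A₁ => ?_⟩
  obtain ⟨xc, hxc⟩ := goodF_all (9 / 11) κ hθ hθ1 hκ hκ8 B' A₁ (B₁ + 1) (3 * b₃)
  set K : ℕ := 11 with hK
  set G : ℝ := 1000 * (K : ℝ) ^ 2 * (2 ^ K) ^ 2 * (1 + V) ^ 2 with hG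
  have hG0 : 0 < G := by
    rw [hG, hK]
    positivity
  have hev : ∀ᶠ x : ℕ in atTop, ∀ q : ℕ, 1 ≤ q → (q : ℝ) ≤ (x : ℝ) ^ (10 / 11 - ε) →
      GoodF x (wk κ x) (wk κ x * zx (9 / 11) x) (JJ x B') (3 * b₃)
        (AJ (y0 x) (zx (9 / 11) x) (wk κ x) (1 / (Real.log x) ^ B')) ((Real.log x) ^ A₁)
        ((Real.log x) ^ (B₁ + 1)) q →
      ∀ cc v : ℕ → ℝ, Wt (zx (9 / 11) x) ⌈(x : ℝ) ^ (6 / 11 : ℝ)⌉₊ cc → BVar x V v →
      (∀ y ≤ x, |∑ n ∈ Icc 1 y, (cut x (aa cc (zx (9 / 11) x)) n - v n)| ≤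
        (x : ℝ) / (Real.log x) ^ E) →
      ∀ α : ℝ, VV q x (fun n => FA q (cut x (aa cc (zx (9 / 11) x))) n -
        ((v n : ℝ) : ℂ) * TM q ⌈(Real.log x) ^ B₁⌉₊ n) α ≤
        (x : ℝ) ^ 2 / (q * (Real.log x) ^ B'') := by
    filter_upwards [eventually_ge_atTop xa, eventually_ge_atTop xb, eventually_ge_atTop xc,
      eventually_ge_atTop 24, evt_log 1000,
      evt_log (800 * Cm), evt_log (66 * Cv), evt_log (1148 * G), evt_log (2 ^ 17 * (CT * V) ^ 2),
      evt_pow 4 (2 * B₁) (1 / 11) (by norm_num), evt_pow 2 (2 * e₀ + e1 + 2 * b₃) κ hκ,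
      evt_pow 65 (B₁ + E + cv + 1) (ε / 4) (by linarith), evt_pow 8 0 (1 / 8) (by norm_num),
      evt_pow 2 (2 * e₀) (1 / 11) (by norm_num), evt_pow 4 e1 (1 / 2) (by norm_num),
      evt_pow 64 e1 (ε / 2) (by linarith), evt_pow 1 (8 * B₁) (2 / 11) (by norm_num),
      evt_pow 4 0 (ε / 8) (by linarith), evt_pow 3 (5 * b₃) (ε / 4) (by linarith),
      evt_pow 1 E (1 / 11) (by norm_num), evt_pow 1024 (6 * B₁ + 2 + E) (2 / 11) (by norm_num)]
      with x hxxa hxxb hxxc hx24 hL1000 hLCm hLCv hLG hLT hp1 hp2 hp3 hp5 hp6 hp7 hp8 hp9 hp10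
        hp11 hp12 hp13
    intro q hq hqx hgood cc v hcc hv hδ α
    set X : ℝ := (x : ℝ) with hX
    set L : ℝ := Real.log X with hL
    have hx3 : 3 ≤ x := by omega
    have hX24 : (24 : ℝ) ≤ X := by rw [hX]; exact_mod_cast hx24
    have toN : ∀ n : ℕ, (n : ℝ) ≤ X → n ≤ x := fun n h => by
      rw [hX] at h; exact_mod_cast h
    have hX0 : 0 < X := by linarith
    have hX1 : 1 ≤ X := by linarith
    have hL0 : 0 < L := by linarith
    have hL1 : 1 ≤ L := by linarith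
    have hqR : (1 : ℝ) ≤ q := by exact_mod_cast hq
    have hq0 : (0 : ℝ) < q := by linarith
    rw [pow_zero, mul_one] at hp5 hp10
    rw [one_mul] at hp9 hp12
    have mono : ∀ a b : ℝ, a ≤ b → X ^ a ≤ X ^ b := fun a b h =>
      Real.rpow_le_rpow_of_exponent_le hX1 h
    have hqθ : (q : ℝ) ≤ X ^ (10 / 11 : ℝ) := hqx.trans (mono _ _ (by linarith))
    have hqX : (q : ℝ) ≤ X := by
      calc (q : ℝ) ≤ X ^ (10 / 11 : ℝ) := hqθ
        _ ≤ X ^ (1 : ℝ) := mono _ _ (by norm_num)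
        _ = X := Real.rpow_one X
    have hXq : X ^ (1 / 11 : ℝ) ≤ X / q := by
      rw [le_div_iff₀ hq0]
      calc X ^ (1 / 11 : ℝ) * q ≤ X ^ (1 / 11 : ℝ) * X ^ (10 / 11 : ℝ) := by gcongr
        _ = X := by rw [← Real.rpow_add hX0]; norm_num
    have hLB₁ : 1 ≤ L ^ B₁ := one_le_pow₀ hL1
    -- sizes
    obtain ⟨hw1, hw2, hz1, hz2, -⟩ := SupFaux.sizes (9 / 11) κ x hθ hθ1 hκ (by linarith) (by omega)
    rw [← hX] at hw1 hw2 hz1 hz2
    rw [show (1 : ℝ) - 9 / 11 = 2 / 11 by norm_num] at hz1 hz2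
    set w : ℕ := wk κ x with hw
    set z : ℕ := zx (9 / 11) x with hz
    set D0 : ℕ := ⌈X ^ (6 / 11 : ℝ)⌉₊ with hD0
    have hD1 : (D0 : ℝ) ≤ 2 * X ^ (6 / 11 : ℝ) := by
      have h1 : 1 ≤ X ^ (6 / 11 : ℝ) := Real.one_le_rpow hX1 (by norm_num)
      have h2 := Nat.ceil_lt_add_one (show 0 ≤ X ^ (6 / 11 : ℝ) by linarith)
      rw [← hD0] at h2
      linarith
    set D : ℕ := w ^ 2 * D0 with hD
    set w₂ : ℕ := w * z with hw₂
    have hXκ : 0 < X ^ κ := by positivity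
    have hw0 : (0 : ℝ) < w := hXκ.trans_le hw1
    have hz0 : (0 : ℝ) < z := lt_of_lt_of_le (by positivity) hz1
    have hw₂R : (w₂ : ℝ) ≤ 4 * X ^ (κ + 2 / 11) := by
      calc (w₂ : ℝ) = w * z := by rw [hw₂]; push_cast; ring
        _ ≤ (2 * X ^ κ) * (2 * X ^ (2 / 11 : ℝ)) := by gcongr
        _ = 4 * (X ^ κ * X ^ (2 / 11 : ℝ)) := by ring
        _ = 4 * X ^ (κ + 2 / 11) := by rw [← Real.rpow_add hX0]
    have hDR : (D : ℝ) ≤ 8 * X ^ (2 * κ + 6 / 11) := by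
      calc (D : ℝ) = (w : ℝ) ^ 2 * D0 := by rw [hD]; push_cast; ring
        _ ≤ (2 * X ^ κ) ^ 2 * (2 * X ^ (6 / 11 : ℝ)) := by gcongr
        _ = 8 * ((X ^ κ) ^ 2 * X ^ (6 / 11 : ℝ)) := by ring
        _ = 8 * X ^ (2 * κ + 6 / 11) := by
            rw [← Real.rpow_natCast (X ^ κ) 2, ← Real.rpow_mul hX0.le, ← Real.rpow_add hX0]
            congr 2
            push_cast
            ring
    have hD2 : (D : ℝ) ^ 2 ≤ 64 * X ^ (4 * κ + 12 / 11) := by
      calc (D : ℝ) ^ 2 ≤ (8 * X ^ (2 * κ + 6 / 11)) ^ 2 := by gcongr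
        _ = 64 * (X ^ (2 * κ + 6 / 11)) ^ 2 := by ring
        _ = 64 * X ^ (4 * κ + 12 / 11) := by
            rw [← Real.rpow_natCast (X ^ (2 * κ + 6 / 11)) 2, ← Real.rpow_mul hX0.le]
            congr 2
            push_cast
            ring
    have hDX : (D : ℝ) ≤ X := by
      calc (D : ℝ) ≤ 8 * X ^ (2 * κ + 6 / 11) := hDR
        _ ≤ X ^ (1 / 8 : ℝ) * X ^ (7 / 8 : ℝ) :=
            mul_le_mul hp5 (mono _ _ (by linarith)) (by positivity) (by positivity)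
        _ = X := by rw [← Real.rpow_add hX0]; norm_num
    have hDx : D ≤ x := toN _ hDX
    have hw₂X2 : (w₂ : ℝ) ≤ X ^ (1 / 2 : ℝ) := by
      calc (w₂ : ℝ) ≤ 4 * X ^ (κ + 2 / 11) := hw₂R
        _ ≤ X ^ (1 / 8 : ℝ) * X ^ (3 / 8 : ℝ) :=
            mul_le_mul (by linarith) (mono _ _ (by linarith)) (by positivity) (by positivity)
        _ = X ^ (1 / 2 : ℝ) := by rw [← Real.rpow_add hX0]; norm_num
    have hw₂X : (w₂ : ℝ) ≤ X := by
      calc (w₂ : ℝ) ≤ X ^ (1 / 2 : ℝ) := hw₂X2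
        _ ≤ X ^ (1 : ℝ) := mono _ _ (by norm_num)
        _ = X := Real.rpow_one X
    have hw₂x : w₂ ≤ x := toN _ hw₂X
    have hw1n : 1 ≤ w := by
      have : (0 : ℝ) < w := hw0
      have : 0 < w := by exact_mod_cast this
      omega
    have hz1n : 1 ≤ z := by
      have : 0 < z := by exact_mod_cast hz0
      omega
    have hww₂ : w ≤ w₂ := by
      rw [hw₂]
      exact Nat.le_mul_of_pos_right _ (by omega)
    have hJle : ∀ b : ℕ, (JJ x b : ℝ) ≤ 3 * L ^ (b + 1) := by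
      intro b
      have h1 : 1 ≤ L ^ (b + 1) := one_le_pow₀ hL1
      have h2 := Nat.ceil_lt_add_one (show 0 ≤ 2 * L ^ (b + 1) by positivity)
      unfold JJ
      rw [← hX, ← hL]
      linarith
    -- S
    set S : ℝ := X / (q * L ^ B₁) with hS
    have hS0 : 0 < S := by positivity
    have hS4' : 4 * L ^ B₁ ≤ S := by
      have : S = X / q / L ^ B₁ := by rw [hS, div_div]
      rw [this, le_div_iff₀ (by positivity)]
      calc 4 * L ^ B₁ * L ^ B₁ = 4 * L ^ (2 * B₁) := by ring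
        _ ≤ X ^ (1 / 11 : ℝ) := hp1
        _ ≤ X / q := hXq
    have hS1 : 1 ≤ S := by linarith
    have hSX : S ≤ X := by
      rw [hS, div_le_iff₀ (by positivity)]
      exact le_mul_of_one_le_right hX0.le (one_le_mul_of_one_le_of_one_le hqR hLB₁)
    set Q : ℕ := ⌈L ^ B₁⌉₊ with hQ
    have hQge : L ^ B₁ ≤ Q := Nat.le_ceil _
    have hQle : (Q : ℝ) ≤ 2 * L ^ B₁ := by
      have := Nat.ceil_lt_add_one (show 0 ≤ L ^ B₁ by positivity)
      rw [← hQ] at this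
      linarith
    have hQ1 : 1 ≤ Q := by
      have : (1 : ℝ) ≤ Q := hLB₁.trans hQge
      exact_mod_cast this
    have hρ : (q : ℝ) / q.totient ≤ 4 * L := by
      have h1 := ratio_le q hq
      have h2 : Real.log q ≤ L := Real.log_le_log hq0 hqX
      linarith
    have hρ0 : 0 ≤ (q : ℝ) / q.totient := by positivity
    -- Dirichlet
    have hSf : 0 < ⌊S⌋₊ := Nat.floor_pos.2 hS1
    obtain ⟨r, hr1, hr2⟩ := Real.exists_rat_abs_sub_le_and_den_le ((q : ℝ) * α) hSf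
    set s : ℕ := r.den with hs
    have hs1 : 1 ≤ s := r.pos
    have hsR : (1 : ℝ) ≤ s := by exact_mod_cast hs1
    have hs0 : (0 : ℝ) < s := by linarith
    have hsS : (s : ℝ) ≤ S := by
      calc (s : ℝ) ≤ (⌊S⌋₊ : ℝ) := by exact_mod_cast hr2
        _ ≤ S := Nat.floor_le hS0.le
    have hbs : IsCoprime r.num (s : ℤ) := by
      rw [Int.isCoprime_iff_gcd_eq_one]
      exact r.reduced
    have hrcast : (r : ℝ) = (r.num : ℝ) / s := by
      rw [hs]
      exact_mod_cast (Rat.num_div_den r).symm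
    have hα : |(q : ℝ) * α - r.num / s| ≤ 1 / (s * S) := by
      rw [← hrcast]
      refine hr1.trans (div_le_div_of_nonneg_left zero_le_one (by positivity) ?_)
      have h1 : S < ⌊S⌋₊ + 1 := Nat.lt_floor_add_one S
      rw [mul_comm]
      exact mul_le_mul_of_nonneg_right h1.le hs0.le
    have hqsB₁ : (q : ℝ) * s ≤ X / L ^ B₁ := by
      calc (q : ℝ) * s ≤ q * S := by gcongr
        _ = X / L ^ B₁ := by rw [hS]; field_simp
    by_cases hcase : s ≤ Q
    · -- major arcs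
      have hsQR : (s : ℝ) ≤ 2 * L ^ B₁ := le_trans (by exact_mod_cast hcase) hQle
      have hsL : (s : ℝ) ≤ L ^ (B₁ + 1) := by
        refine hsQR.trans ?_
        rw [pow_succ, mul_comm]
        exact mul_le_mul_of_nonneg_left (by linarith) (by positivity)
      have hqsR : (q : ℝ) * s ≤ X := hqsB₁.trans (div_le_self hX0.le hLB₁)
      have hqs : q * s ≤ x := toN _ (by push_cast; exact hqsR)
      have : NeZero (q * s) := ⟨by positivity⟩
      have hkε : (q : ℝ) * s ≤ X ^ (10 / 11 - 3 * ε / 4) := by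
        calc (q : ℝ) * s ≤ X ^ (10 / 11 - ε) * (2 * L ^ B₁) := by gcongr
          _ ≤ X ^ (10 / 11 - ε) * X ^ (ε / 4) := by
              refine mul_le_mul_of_nonneg_left ?_ (by positivity)
              refine le_trans ?_ hp3
              have h1 : L ^ B₁ ≤ L ^ (B₁ + E + cv + 1) := pow_le_pow_right₀ hL1 (by omega)
              have h0 : 0 ≤ L ^ (B₁ + E + cv + 1) := by positivity
              linarith
          _ = X ^ (10 / 11 - 3 * ε / 4) := by
              rw [← Real.rpow_add hX0]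
              congr 1
              ring
      -- the variance
      obtain ⟨Bf, β, err, hctl, herr⟩ := hxb x hxxb D0 cc hcc
      have hqL : (q : ℝ) * L ^ (B₁ + 1) ≤ X := by
        have h1 : L ^ (B₁ + 1) ≤ X / q := by
          calc L ^ (B₁ + 1) ≤ 4 * L ^ (2 * B₁) := by
                have : L ^ (B₁ + 1) ≤ L ^ (2 * B₁) := pow_le_pow_right₀ hL1 (by omega)
                have h0 : 0 ≤ L ^ (2 * B₁) := by positivity
                linarith
            _ ≤ X ^ (1 / 11 : ℝ) := hp1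
            _ ≤ X / q := hXq
        rw [le_div_iff₀ hq0] at h1
        linarith
      have hchar := hxc x hxxc q hq hqL hgood s hs1 hsL
      have hη0 : 0 < 1 / L ^ (2 * b₃) := by positivity
      have hη1 : 1 / L ^ (2 * b₃) ≤ 1 := by
        rw [div_le_one (by positivity)]
        exact one_le_pow₀ hL1
      have hηw : 2 ≤ 1 / L ^ (2 * b₃) * (w : ℝ) := by
        rw [one_div, ← div_eq_inv_mul, le_div_iff₀ (by positivity)]
        refine le_trans ?_ (hp2.trans hw1)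
        have : L ^ (2 * b₃) ≤ L ^ (2 * e₀ + e1 + 2 * b₃) := pow_le_pow_right₀ hL1 (by omega)
        linarith
      have hkD : ((q * s : ℕ) : ℝ) * ((D : ℝ) ^ 2 + X) ≤ X ^ 2 / L ^ (E + cv + 1) := by
        have h1 : (D : ℝ) ^ 2 + X ≤ 65 * X ^ (4 * κ + 12 / 11) := by
          have h2 : X ≤ X ^ (4 * κ + 12 / 11) := by
            calc X = X ^ (1 : ℝ) := (Real.rpow_one X).symm
              _ ≤ _ := mono _ _ (by linarith)
          linarith
        rw [le_div_iff₀ (by positivity)]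
        calc ((q * s : ℕ) : ℝ) * ((D : ℝ) ^ 2 + X) * L ^ (E + cv + 1)
            ≤ X ^ (10 / 11 - 3 * ε / 4) * (65 * X ^ (4 * κ + 12 / 11)) * L ^ (B₁ + E + cv + 1) := by
              push_cast
              have h3 : L ^ (E + cv + 1) ≤ L ^ (B₁ + E + cv + 1) := pow_le_pow_right₀ hL1 (by omega)
              gcongr
          _ = (65 * L ^ (B₁ + E + cv + 1)) * (X ^ (10 / 11 - 3 * ε / 4) *
              X ^ (4 * κ + 12 / 11)) := by ring
          _ ≤ X ^ (ε / 4) * (X ^ (10 / 11 - 3 * ε / 4) * X ^ (4 * κ + 12 / 11)) := by gcongr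
          _ = X ^ (2 + 4 * κ - ε / 2) := by
              rw [← Real.rpow_add hX0, ← Real.rpow_add hX0]
              congr 1
              ring
          _ ≤ X ^ (2 : ℝ) := mono _ _ (by linarith)
          _ = X ^ 2 := by rw [← Real.rpow_natCast]; norm_num
      have hw₂ε : (w₂ : ℝ) ≤ X ^ (2 / 11 + ε / 4) := by
        calc (w₂ : ℝ) ≤ 4 * X ^ (κ + 2 / 11) := hw₂R
          _ ≤ X ^ (ε / 8) * X ^ (κ + 2 / 11) := by gcongr
          _ = X ^ (ε / 8 + (κ + 2 / 11)) := by rw [← Real.rpow_add hX0]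
          _ ≤ X ^ (2 / 11 + ε / 4) := mono _ _ (by linarith)
      have hΔ1 : 1 ≤ X ^ (ε / 4) := Real.one_le_rpow hX1 (by linarith)
      have hlarge := SupNaux.large_arith X ((q * s : ℕ) : ℝ) w₂ ε (L ^ (5 * b₃)) hX1 hε
        (Nat.cast_nonneg _) (Nat.cast_nonneg _) (by positivity) (by push_cast; exact hkε) hw₂ε hp11
      have hVb : ∀ y' ≤ x, ∑ χ ∈ (univ : Finset (DirichletCharacter ℂ (q * s))).erase 1,
          ‖∑ n ∈ Icc 1 y', ((aa cc z n : ℝ) : ℂ) * χ (n : ZMod (q * s))‖ ^ 2 ≤ X ^ 2 / L ^ E := by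
        intro y' hy'
        have h1 := hvar x D w w₂ (JJ x B') (q * s) (AJ (y0 x) z w (1 / L ^ B')) Bf β err
          (aa cc z) (X / L ^ (E + cv + 1)) (1 / L ^ (2 * b₃)) (2 / L ^ (3 * b₃)) (X ^ (ε / 4))
          hctl herr hx3 hqs
          hDx hw1n hww₂ hw₂x hη0 hη1 hηw (by positivity) hΔ1
          ((univ : Finset (DirichletCharacter ℂ (q * s))).erase 1)
          (fun χ hχ => (mem_erase.1 hχ).1)
          (fun χ hχ j hj u hu1 hu2 => hchar χ (mem_erase.1 hχ).1 j hj u hu1 hu2) y' hy'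
        refine h1.trans ?_
        rw [← hX, ← hL]
        exact SupNaux.var_arithN E cv B' b₃ Cv X L ((q * s : ℕ) : ℝ) D (JJ x B')
          (X / L ^ (E + cv + 1)) (1 / L ^ (2 * b₃)) (2 / L ^ (3 * b₃)) _ _ hCv hL1000 hLCv hX1
          (Nat.cast_nonneg _) (by push_cast; exact hqsR) hb₃ rfl rfl rfl
          (Nat.cast_nonneg _) (hJle B') hkD hlarge
      have hz2n : 2 ≤ z := by
        have h1 : (4 : ℝ) ≤ z := by
          have h2 : 1 ≤ L ^ (2 * B₁) := one_le_pow₀ hL1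
          calc (4 : ℝ) ≤ 4 * L ^ (2 * B₁) := by linarith
            _ ≤ X ^ (1 / 11 : ℝ) := hp1
            _ ≤ X ^ (2 / 11 : ℝ) := mono _ _ (by norm_num)
            _ ≤ z := hz1
        have h2 : 4 ≤ z := by exact_mod_cast h1
        omega
      have hzK : x < z ^ K := by
        have h1 : X < (z : ℝ) ^ K := by
          calc X = X ^ (1 : ℝ) := (Real.rpow_one X).symm
            _ < X ^ (2 : ℝ) := Real.rpow_lt_rpow_of_exponent_lt (by linarith) (by norm_num)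
            _ ≤ X ^ ((2 / 11 : ℝ) * K) := mono _ _ (by rw [hK]; norm_num)
            _ = (X ^ (2 / 11 : ℝ)) ^ K := by rw [Real.rpow_mul hX0.le, Real.rpow_natCast]
            _ ≤ (z : ℝ) ^ K := by gcongr
        rw [hX] at h1
        exact_mod_cast h1
      have hFabs : ∀ n, n ≤ x → |aa cc z n| ≤ (2 : ℝ) ^ K := fun n hn =>
        aa_abs x z D0 K cc hcc hz2n hzK n hn
      have hcl : ∀ y ≤ x, ∑ c ∈ range (q * s), ‖∑ n ∈ (Icc 1 y).filter
          (fun n => n ≡ c [MOD q * s]), (FA q (cut x (aa cc z)) n -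
            ((v n : ℝ) : ℂ) * TM q Q n)‖ ^ 2 ≤
          G * ((X ^ 2 / L ^ E + (X / L ^ E) ^ 2 + (X / z) ^ 2) / (q * s).totient +
            X ^ 2 / (q * s * z) + (q * s) * ((q : ℝ) / q.totient * Q ^ 2) ^ 2) := by
        intro y hy
        exact class_F x z K q Q s y (X ^ 2 / L ^ E) V (X / L ^ E) (2 ^ K) (aa cc z) v hx3 hz2n hzK
          hq hs1 hcase hqs hy (one_le_pow₀ (by norm_num)) hFabs
          (fun n hn => aa_rough z D0 cc hcc n hn) hv hV.le hδ hVb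
      have hΘ : |(q : ℝ) * α - r.num / s| ≤ 1 / S := by
        refine hα.trans ?_
        refine div_le_div_of_nonneg_left zero_le_one hS0 ?_
        exact le_mul_of_one_le_left hS0.le hsR
      have h3 := major_gen (fun n => FA q (cut x (aa cc z)) n - ((v n : ℝ) : ℂ) * TM q Q n)
        x q s hq hs1 α (1 / S) _ r.num hΘ hcl
      rw [← hX] at h3
      have h4 : 2 * Real.pi * (1 / S) * X / q = 2 * Real.pi * L ^ B₁ := by
        rw [hS]
        field_simp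
      rw [h4] at h3
      refine h3.trans ?_
      have hLE : L ^ E ≤ z := hp12.trans ((mono _ _ (by norm_num)).trans hz1)
      have hLE1 : 1 ≤ L ^ E := one_le_pow₀ hL1
      have hz1R : (1 : ℝ) ≤ z := hLE1.trans hLE
      have htot : 0 < (q * s).totient := Nat.totient_pos.2 (Nat.mul_pos (by omega) (by omega))
      refine SupFaux.major_arith B'' B₁ E G X L q s ((q * s).totient : ℝ) z (X ^ 2 / L ^ E)
        ((X / L ^ E) ^ 2) (((q : ℝ) / q.totient * Q ^ 2) ^ 2) hG0 hL1000 hLG hX1 hqR hsR rfl hz0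
        (by exact_mod_cast htot) ?_ le_rfl ?_ ?_ ?_ ?_
      · have h1 := ratio_le (q * s) (Nat.mul_pos (by omega) (by omega))
        have h2 : Real.log ((q * s : ℕ) : ℝ) ≤ L :=
          Real.log_le_log (by push_cast; positivity) (by push_cast; exact hqsR)
        push_cast at h1 h2
        linarith
      · rw [div_pow]
        refine div_le_div_of_nonneg_left (by positivity) (by positivity) ?_
        rw [sq]
        exact le_mul_of_one_le_left (by positivity) hLE1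
      · rw [div_pow]
        refine div_le_div_of_nonneg_left (by positivity) (by positivity) ?_
        rw [sq]
        exact hLE.trans (le_mul_of_one_le_left hz0.le hz1R)
      · exact div_le_div_of_nonneg_left (by positivity) (by positivity) hLE
      · rw [le_div_iff₀ (by positivity)]
        have h2 : (q : ℝ) * s ≤ X ^ (10 / 11 : ℝ) * (2 * L ^ B₁) := by gcongr
        calc (q : ℝ) * s * (q * s * ((q : ℝ) / q.totient * Q ^ 2) ^ 2) * L ^ E
            ≤ (X ^ (10 / 11 : ℝ) * (2 * L ^ B₁)) * ((X ^ (10 / 11 : ℝ) * (2 * L ^ B₁)) *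
              (4 * L * (2 * L ^ B₁) ^ 2) ^ 2) * L ^ E := by
              gcongr
          _ = (1024 * L ^ (6 * B₁ + 2 + E)) * (X ^ (10 / 11 : ℝ) * X ^ (10 / 11 : ℝ)) := by ring
          _ ≤ X ^ (2 / 11 : ℝ) * (X ^ (10 / 11 : ℝ) * X ^ (10 / 11 : ℝ)) := by gcongr
          _ = X ^ 2 := by
              rw [← Real.rpow_add hX0, ← Real.rpow_add hX0, ← Real.rpow_natCast]
              congr 1
              norm_num
    · -- minor arcs
      push Not at hcase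
      have hsL : L ^ B₁ < s := lt_of_le_of_lt hQge (by exact_mod_cast hcase)
      have hα2 : |(q : ℝ) * α - r.num / s| ≤ 1 / (s : ℝ) ^ 2 := by
        refine hα.trans ?_
        refine div_le_div_of_nonneg_left zero_le_one (by positivity) ?_
        rw [sq]
        exact mul_le_mul_of_nonneg_left hsS hs0.le
      have hα3 : |(q : ℝ) * α - r.num / s| ≤ (q : ℝ) / X := by
        refine hα.trans ?_
        have e1 : 1 / (s * S) = (q : ℝ) / X * (L ^ B₁ / s) := by rw [hS]; field_simp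
        rw [e1]
        refine mul_le_of_le_one_right (by positivity) ?_
        rw [div_le_one hs0]
        exact hsL.le
      have hα4 : |(q : ℝ) * α - r.num / s| ≤ 1 / (2 * s * Q) := by
        refine hα.trans ?_
        have hQ0 : (0 : ℝ) < Q := by exact_mod_cast hQ1
        refine div_le_div_of_nonneg_left zero_le_one (by positivity) ?_
        have : 2 * (Q : ℝ) ≤ S := by linarith
        calc 2 * (s : ℝ) * Q = s * (2 * Q) := by ring
          _ ≤ s * S := mul_le_mul_of_nonneg_left this hs0.le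
      have hqs8 : q * s ≤ x / 8 := by
        rw [Nat.le_div_iff_mul_le (by norm_num)]
        refine toN _ ?_
        push_cast
        have h1 : (1000 : ℝ) ≤ L ^ B₁ := by
          calc (1000 : ℝ) ≤ L ^ 1 := by rw [pow_one]; exact hL1000
            _ ≤ L ^ B₁ := pow_le_pow_right₀ hL1 (by omega)
        have h2 : X / L ^ B₁ ≤ X / 1000 := by gcongr
        linarith
      have hqs : q * s ≤ x := hqs8.trans (Nat.div_le_self _ _)
      obtain ⟨Bf, β, err, hctl, herr⟩ := hxa x hxxa D0 cc hcc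
      have hLe1 : L ^ e1 ≤ L ^ B₁ := pow_le_pow_right₀ hL1 (by omega)
      have hτ1 : 1 / (s : ℝ) ≤ 1 / L ^ e1 :=
        div_le_div_of_nonneg_left zero_le_one (by positivity) (hLe1.trans hsL.le)
      have hτ2 : (q : ℝ) * s / X ≤ 1 / L ^ e1 := by
        rw [div_le_iff₀ hX0]
        calc (q : ℝ) * s ≤ X / L ^ B₁ := hqsB₁
          _ ≤ X / L ^ e1 := by gcongr
          _ = 1 / L ^ e1 * X := by ring
      have hτ3 : (q : ℝ) * (D : ℝ) ^ 2 / X ^ 2 ≤ 1 / L ^ e1 := by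
        rw [div_le_div_iff₀ (by positivity) (by positivity), one_mul]
        calc (q : ℝ) * (D : ℝ) ^ 2 * L ^ e1
            ≤ X ^ (10 / 11 - ε) * (64 * X ^ (4 * κ + 12 / 11)) * L ^ e1 := by gcongr
          _ = (64 * L ^ e1) * (X ^ (10 / 11 - ε) * X ^ (4 * κ + 12 / 11)) := by ring
          _ ≤ X ^ (ε / 2) * (X ^ (10 / 11 - ε) * X ^ (4 * κ + 12 / 11)) := by gcongr
          _ = X ^ (2 + 4 * κ - ε / 2) := by
              rw [← Real.rpow_add hX0, ← Real.rpow_add hX0]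
              congr 1
              ring
          _ ≤ X ^ (2 : ℝ) := mono _ _ (by linarith)
          _ = X ^ 2 := by rw [← Real.rpow_natCast]; norm_num
      have hτ4 : 1 / (w : ℝ) ≤ 1 / L ^ e1 := by
        refine div_le_div_of_nonneg_left zero_le_one (by positivity) ?_
        refine le_trans ?_ (hp2.trans hw1)
        have h1 : L ^ e1 ≤ L ^ (2 * e₀ + e1 + 2 * b₃) := pow_le_pow_right₀ hL1 (by omega)
        have h0 : 0 ≤ L ^ (2 * e₀ + e1 + 2 * b₃) := by positivity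
        linarith
      have hτ5 : (w₂ : ℝ) / X ≤ 1 / L ^ e1 := by
        rw [div_le_div_iff₀ hX0 (by positivity), one_mul]
        calc (w₂ : ℝ) * L ^ e1 ≤ X ^ (1 / 2 : ℝ) * (4 * L ^ e1) := by
              have h0 : 0 ≤ L ^ e1 := by positivity
              exact mul_le_mul hw₂X2 (by linarith) h0 (by positivity)
          _ ≤ X ^ (1 / 2 : ℝ) * X ^ (1 / 2 : ℝ) := by gcongr
          _ = X := by rw [← Real.rpow_add hX0]; norm_num
      have hτ6 : 1 / (s : ℝ) ^ (1 / 4 : ℝ) ≤ 1 / L ^ e1 := by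
        refine div_le_div_of_nonneg_left zero_le_one (by positivity) ?_
        have h1 : (L ^ B₁) ^ (1 / 4 : ℝ) ≤ (s : ℝ) ^ (1 / 4 : ℝ) :=
          Real.rpow_le_rpow (by positivity) hsL.le (by norm_num)
        refine le_trans (le_of_eq ?_) h1
        rw [hB₁, mul_comm 4 e1, pow_mul, ← Real.rpow_natCast (L ^ e1) 4, ← Real.rpow_mul (by positivity)]
        norm_num
      have hη0 : 0 < 1 / L ^ (2 * e₀) := by positivity
      have hη1 : 1 / L ^ (2 * e₀) ≤ 1 := by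
        rw [div_le_one (by positivity)]
        exact one_le_pow₀ hL1
      have hηw : 2 ≤ 1 / L ^ (2 * e₀) * (w : ℝ) := by
        rw [one_div, ← div_eq_inv_mul, le_div_iff₀ (by positivity)]
        refine le_trans ?_ (hp2.trans hw1)
        have : L ^ (2 * e₀) ≤ L ^ (2 * e₀ + e1 + 2 * b₃) := pow_le_pow_right₀ hL1 (by omega)
        linarith
      have hηq : (q : ℝ) ≤ 1 / L ^ (2 * e₀) * X := by
        have h1 : L ^ (2 * e₀) ≤ X / q := by
          refine le_trans ?_ (hp6.trans hXq)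
          have h0 : 0 ≤ L ^ (2 * e₀) := by positivity
          linarith
        rw [le_div_iff₀ hq0] at h1
        rw [one_div, ← div_eq_inv_mul, le_div_iff₀ (by positivity)]
        linarith
      have hF : ∀ y : ℕ, 3 ≤ y → y ≤ x → q * s ≤ y →
          VV q y (FA q (aa cc z)) α ≤ 1 / 16 * (X ^ 2 / (q * L ^ B'')) := by
        intro y hy3 hyx hqsy
        have h1 := hmin x y q s D w w₂ (JJ x Bp) (AJ (y0 x) z w (1 / L ^ Bp)) Bf β err (aa cc z)
          (X / L ^ (cm + B'' + 2)) α (1 / L ^ (2 * e₀)) r.num hctl herr hy3 hyx hq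
          (by rw [← hX, show (1 : ℝ) - 1 / 11 = 10 / 11 by norm_num]; exact hqθ) hw1n hww₂ hw₂x hDx
          hs1 hqsy hbs hα2 hα3 hη0 hη1 hηw hηq
        refine h1.trans ?_
        rw [← hX, ← hL]
        exact SupNaux.minor_arithN B'' cm Bp e₀ e1 (cm + B'' + 2) Cm X L q s D w w₂ (JJ x Bp)
          (X / L ^ (cm + B'' + 2)) (1 / L ^ (2 * e₀)) ((s : ℝ) ^ (1 / 4 : ℝ)) (1 / L ^ e1) hCm
          hL1000 hLCm hX1 hqR hqX rfl he₀ he1 rfl rfl hτ1 hτ2 hτ3 hτ4 hτ5 hτ6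
          (Nat.cast_nonneg _) (hJle Bp) rfl
      have hFc : VV q x (FA q (cut x (aa cc z))) α ≤ 1 / 4 * (X ^ 2 / (q * L ^ B'')) := by
        have h1 := SupFaux.VV_cut q x (aa cc z) α
        have h2 := hF x hx3 le_rfl hqs
        have h3 := hF (x / 8) (by omega) (Nat.div_le_self _ _) hqs8
        linarith
      have hT := SupNaux.VV_vT2 CT hCT hTm x q Q s V α r.num v hv hV.le hq hQ1 hcase hbs hα4
      have hlogQ : Real.log Q ≤ L := by
        have hQ0 : (0 : ℝ) < Q := by exact_mod_cast hQ1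
        refine Real.log_le_log hQ0 ?_
        linarith
      have hT3 : VV q x (fun n => ((v n : ℝ) : ℂ) * TM q Q n) α ≤
          1 / 4 * (X ^ 2 / (q * L ^ B'')) := by
        refine hT.trans ?_
        refine SupNaux.T_arith B'' B₁ CT V X L q ((q : ℝ) / q.totient) s Q (Real.log Q) hCT hV
          hL1000 hLT hX1 hqR hρ0 hρ hs0.le hqsB₁ (Nat.cast_nonneg _) hQle
          (Real.log_natCast_nonneg Q) hlogQ (by omega) ?_
        calc (q : ℝ) ^ 2 * (L ^ (6 * B₁) * L ^ (2 * B₁))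
            ≤ (X ^ (10 / 11 : ℝ)) ^ 2 * (L ^ (6 * B₁) * L ^ (2 * B₁)) := by gcongr
          _ = (X ^ (10 / 11 : ℝ) * X ^ (10 / 11 : ℝ)) * L ^ (8 * B₁) := by ring
          _ ≤ (X ^ (10 / 11 : ℝ) * X ^ (10 / 11 : ℝ)) * X ^ (2 / 11 : ℝ) := by gcongr
          _ = X ^ 2 := by
              rw [← Real.rpow_add hX0, ← Real.rpow_add hX0, ← Real.rpow_natCast]
              congr 1
              norm_num
      have h5 := VV_sub_le q x (FA q (cut x (aa cc z))) (fun n => ((v n : ℝ) : ℂ) * TM q Q n) α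
      refine h5.trans ?_
      have h7 : 0 ≤ X ^ 2 / (q * L ^ B'') := by positivity
      linarith
  obtain ⟨x₀, hx₀⟩ := eventually_atTop.1 hev
  exact ⟨x₀, hx₀⟩

end Pool.Agent.HN
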